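import Mathlib

/-!
# Integral means of derivatives of univalent functions: definitions
-/

set_option autoImplicit false

open Complex Set Filter Topology MeasureTheory
open scoped Real

namespace Pool.Agent.Helper42.KoebeMeans

/-- The class `S` of normalised univalent functions in the unit disc. -/
def ClassS (f : ℂ → ℂ) : Prop :=
  DifferentiableOn ℂ f (Metric.ball 0 1) ∧ InjOn f (Metric.ball 0 1) ∧ f 0 = 0 ∧ deriv f 0 = 1

/-- The Koebe function `z / (1 - z) ^ 2`. -/
noncomputable def koebe (z : ℂ) : ℂ := z / (1 - z) ^ 2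

/-- The integral mean `I_lam(r, f')`. -/
noncomputable def integralMean (lam r : ℝ) (f : ℂ → ℂ) : ℝ :=
  ((1 / (2 * π)) * ∫ θ in (0 : ℝ)..(2 * π), ‖deriv f (r * cexp (θ * I))‖ ^ lam) ^ (1 / lam)

/-- The best constant `C_lam`: the supremum over `f ∈ S` and `0 < r < 1` of
`I_lam(r, f') / I_lam(r, k')`. -/
noncomputable def bestConstant (lam : ℝ) : ENNReal :=
  ⨆ (f : ℂ → ℂ) (_ : ClassS f) (r : ℝ) (_ : r ∈ Ioo (0 : ℝ) 1),
    ENNReal.ofReal (integralMean lam r f) / ENNReal.ofReal (integralMean lam r koebe)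

end Pool.Agent.Helper42.KoebeMeans
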