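import Pool.Agent.Helper42.KoebeDefs

/-!
# The Koebe function does not maximise the integral means of the derivative below exponent one

In the upper half plane coordinate `w = i (1 + z) / (1 - z)` the Koebe function is
`-(w ^ 2 + 1) / 4`. The competitor is `-(h (w) ^ 2 + const) / const` with the rational
`h (w) = w - t (1 / v + i η / v ^ 2)`, `v = w - x + i η`, which maps the half plane injectively
into itself. The mean value property of `log |f' / k'|` produces a gain of order `η x ^ lam`, and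
the loss caused by the normalisation is smaller when `lam < 1` and `η = x ^ (2 - lam)`.
-/

set_option autoImplicit false

open Complex Set Filter Topology MeasureTheory
open scoped Real

namespace Pool.Agent.Helper42.KoebeMeans

/-! ### The competing function -/

/-- The shifted variable. -/
noncomputable def vv (x η : ℝ) (w : ℂ) : ℂ := w - x + η * I

/-- The local perturbation of the identity of the upper half plane. -/
noncomputable def hh (x η : ℝ) (w : ℂ) : ℂ :=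
  w - (η : ℂ) ^ 2 / 10 * (1 / vv x η w + η * I / vv x η w ^ 2)

/-- Its derivative. -/
noncomputable def dh (x η : ℝ) (w : ℂ) : ℂ :=
  1 + (η : ℂ) ^ 2 / 10 * (1 / vv x η w ^ 2 + 2 * η * I / vv x η w ^ 3)

/-- The Cayley map from the disc to the upper half plane. -/
noncomputable def cay (z : ℂ) : ℂ := I * (1 + z) / (1 - z)

/-- The competitor. -/
noncomputable def ff (x η : ℝ) (z : ℂ) : ℂ :=
  (hh x η (cay z) ^ 2 - hh x η I ^ 2) / (4 * I * hh x η I * dh x η I)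

theorem vv_im (x η : ℝ) (w : ℂ) : (vv x η w).im = w.im + η := by
  simp [vv]

theorem vv_re (x η : ℝ) (w : ℂ) : (vv x η w).re = w.re - x := by
  simp [vv]

theorem le_norm_vv {x η : ℝ} {w : ℂ} (hw : 0 < w.im) : η ≤ ‖vv x η w‖ := by
  have h1 := Complex.abs_im_le_norm (vv x η w)
  rw [vv_im] at h1
  have h2 := le_abs_self (w.im + η)
  linarith

theorem vv_ne_zero {x η : ℝ} {w : ℂ} (hη : 0 < η) (hw : 0 < w.im) : vv x η w ≠ 0 := by
  intro h
  have := le_norm_vv (x := x) (η := η) hw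
  rw [h, norm_zero] at this
  linarith

theorem im_kernel_nonpos {η : ℝ} (v : ℂ) (hη : 0 < η) (hv : η ≤ v.im) :
    (1 / v + η * I / v ^ 2).im ≤ 0 := by
  have hv0 : v ≠ 0 := by
    rintro rfl
    simp at hv
    linarith
  have h1 : 1 / v + η * I / v ^ 2 = (v + η * I) / v ^ 2 := by
    field_simp
  rw [h1, Complex.div_im, ← sub_nonpos]
  have hn : 0 < Complex.normSq (v ^ 2) := Complex.normSq_pos.2 (pow_ne_zero 2 hv0)
  have hre : (v ^ 2).re = v.re ^ 2 - v.im ^ 2 := by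
    rw [pow_two, Complex.mul_re]; ring
  have him : (v ^ 2).im = 2 * v.re * v.im := by
    rw [pow_two, Complex.mul_im]; ring
  have h2 : (v + η * I).im = v.im + η := by simp
  have h3 : (v + η * I).re = v.re := by simp
  rw [hre, him, h2, h3, sub_zero, ← sub_div]
  apply div_nonpos_of_nonpos_of_nonneg _ hn.le
  nlinarith [mul_nonneg (sq_nonneg v.re) (sub_nonneg.2 hv), mul_nonneg (sq_nonneg v.im) (by linarith : (0:ℝ) ≤ v.im + η)]

theorem im_le_hh_im {x η : ℝ} {w : ℂ} (hη : 0 < η) (hw : 0 < w.im) : w.im ≤ (hh x η w).im := by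
  have h1 := im_kernel_nonpos (vv x η w) hη (by rw [vv_im]; linarith)
  have h2 : (hh x η w).im = w.im - η ^ 2 / 10 * (1 / vv x η w + η * I / vv x η w ^ 2).im := by
    have : (η : ℂ) ^ 2 / 10 = ((η ^ 2 / 10 : ℝ) : ℂ) := by push_cast; ring
    rw [hh, this, Complex.sub_im, Complex.im_ofReal_mul]
  rw [h2]
  nlinarith [mul_nonneg (by positivity : (0:ℝ) ≤ η ^ 2 / 10) (neg_nonneg.2 h1)]

theorem hh_injOn {x η : ℝ} (hη : 0 < η) {w₁ w₂ : ℂ} (h₁ : 0 < w₁.im) (h₂ : 0 < w₂.im)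
    (h : hh x η w₁ = hh x η w₂) : w₁ = w₂ := by
  have hv₁ := vv_ne_zero (x := x) hη h₁
  have hv₂ := vv_ne_zero (x := x) hη h₂
  have hn₁ := le_norm_vv (x := x) (η := η) h₁
  have hn₂ := le_norm_vv (x := x) (η := η) h₂
  have hd : vv x η w₁ - vv x η w₂ = w₁ - w₂ := by simp [vv]
  obtain ⟨v₁, hv1⟩ : ∃ v, v = vv x η w₁ := ⟨_, rfl⟩
  obtain ⟨v₂, hv2⟩ : ∃ v, v = vv x η w₂ := ⟨_, rfl⟩
  rw [hh, hh, ← hv1, ← hv2] at h
  rw [← hv1] at hv₁ hn₁
  rw [← hv2] at hv₂ hn₂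
  rw [← hv1, ← hv2] at hd
  have hη0 : (η : ℂ) ≠ 0 := by exact_mod_cast hη.ne'
  have key : (v₁ - v₂) * (1 + (η : ℂ) ^ 2 / 10 *
      (1 / (v₁ * v₂) + (η * I / (v₁ * v₂ ^ 2) + η * I / (v₁ ^ 2 * v₂)))) = 0 := by
    have e1 : (v₁ - v₂) * (1 / (v₁ * v₂) + (η * I / (v₁ * v₂ ^ 2) + η * I / (v₁ ^ 2 * v₂))) =
        -((1 / v₁ + η * I / v₁ ^ 2) - (1 / v₂ + η * I / v₂ ^ 2)) := by
      field_simp
      ring
    have e2 : v₁ - v₂ = (η : ℂ) ^ 2 / 10 *
        ((1 / v₁ + η * I / v₁ ^ 2) - (1 / v₂ + η * I / v₂ ^ 2)) := by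
      rw [hd]
      linear_combination h
    calc (v₁ - v₂) * (1 + (η : ℂ) ^ 2 / 10 *
      (1 / (v₁ * v₂) + (η * I / (v₁ * v₂ ^ 2) + η * I / (v₁ ^ 2 * v₂))))
        = (v₁ - v₂) + (η : ℂ) ^ 2 / 10 * ((v₁ - v₂) *
      (1 / (v₁ * v₂) + (η * I / (v₁ * v₂ ^ 2) + η * I / (v₁ ^ 2 * v₂)))) := by ring
      _ = 0 := by
        rw [e1]
        linear_combination e2
  rcases mul_eq_zero.1 key with h0 | h0
  · rw [hd] at h0
    exact sub_eq_zero.1 h0
  · exfalso
    have hnorm : ‖(η : ℂ) ^ 2 / 10 *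
      (1 / (v₁ * v₂) + (η * I / (v₁ * v₂ ^ 2) + η * I / (v₁ ^ 2 * v₂)))‖ ≤ 3 / 10 := by
      have hηn : ‖(η : ℂ)‖ = η := by
        rw [Complex.norm_real, Real.norm_eq_abs, abs_of_pos hη]
      have b1 : ‖1 / (v₁ * v₂)‖ ≤ 1 / (η * η) := by
        rw [norm_div, norm_one, norm_mul]
        gcongr
      have b2 : ‖η * I / (v₁ * v₂ ^ 2)‖ ≤ η / (η * η ^ 2) := by
        rw [norm_div, norm_mul, norm_mul, norm_pow, hηn, Complex.norm_I, mul_one]
        gcongr
      have b3 : ‖η * I / (v₁ ^ 2 * v₂)‖ ≤ η / (η ^ 2 * η) := by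
        rw [norm_div, norm_mul, norm_mul, norm_pow, hηn, Complex.norm_I, mul_one]
        gcongr
      rw [norm_mul, norm_div, norm_pow, hηn]
      have b4 := norm_add_le (1 / (v₁ * v₂)) (η * I / (v₁ * v₂ ^ 2) + η * I / (v₁ ^ 2 * v₂))
      have b5 := norm_add_le (η * I / (v₁ * v₂ ^ 2)) (η * I / (v₁ ^ 2 * v₂))
      have b6 : ‖1 / (v₁ * v₂) + (η * I / (v₁ * v₂ ^ 2) + η * I / (v₁ ^ 2 * v₂))‖ ≤ 3 / η ^ 2 := by
        have : 1 / (η * η) + (η / (η * η ^ 2) + η / (η ^ 2 * η)) = 3 / η ^ 2 := by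
          field_simp
          ring
        linarith
      calc η ^ 2 / ‖(10 : ℂ)‖ * ‖1 / (v₁ * v₂) + (η * I / (v₁ * v₂ ^ 2) + η * I / (v₁ ^ 2 * v₂))‖
          ≤ η ^ 2 / ‖(10 : ℂ)‖ * (3 / η ^ 2) := by gcongr
        _ = 3 / 10 := by
          rw [show ‖(10 : ℂ)‖ = 10 by norm_num]
          field_simp
    have h1 : (1 : ℂ) = -((η : ℂ) ^ 2 / 10 *
      (1 / (v₁ * v₂) + (η * I / (v₁ * v₂ ^ 2) + η * I / (v₁ ^ 2 * v₂)))) := by
      linear_combination h0
    have h2 : ‖(1 : ℂ)‖ ≤ 3 / 10 := by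
      rw [h1, norm_neg]
      exact hnorm
    rw [norm_one] at h2
    linarith

theorem norm_ofReal_pos {η : ℝ} (hη : 0 < η) : ‖(η : ℂ)‖ = η := by
  rw [Complex.norm_real, Real.norm_eq_abs, abs_of_pos hη]

theorem norm_dh_sub_one {x η : ℝ} (hη : 0 < η) {w : ℂ} (hw : 0 < w.im) :
    ‖dh x η w - 1‖ ≤ 3 / 10 := by
  have hn := le_norm_vv (x := x) (η := η) hw
  rw [dh, add_sub_cancel_left, norm_mul, norm_div, norm_pow, norm_ofReal_pos hη,
    show ‖(10 : ℂ)‖ = 10 by norm_num]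
  have b1 : ‖1 / vv x η w ^ 2‖ ≤ 1 / η ^ 2 := by
    rw [norm_div, norm_one, norm_pow]
    gcongr
  have b2 : ‖2 * η * I / vv x η w ^ 3‖ ≤ 2 * η / η ^ 3 := by
    rw [norm_div, norm_mul, norm_mul, norm_pow, norm_ofReal_pos hη, Complex.norm_I, mul_one,
      show ‖(2 : ℂ)‖ = 2 by norm_num]
    gcongr
  have b3 := norm_add_le (1 / vv x η w ^ 2) (2 * η * I / vv x η w ^ 3)
  have b4 : 1 / η ^ 2 + 2 * η / η ^ 3 = 3 / η ^ 2 := by
    field_simp
    ring
  calc η ^ 2 / 10 * ‖1 / vv x η w ^ 2 + 2 * η * I / vv x η w ^ 3‖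
      ≤ η ^ 2 / 10 * (3 / η ^ 2) := by
        gcongr
        linarith
    _ = 3 / 10 := by field_simp

theorem dh_ne_zero {x η : ℝ} (hη : 0 < η) {w : ℂ} (hw : 0 < w.im) : dh x η w ≠ 0 := by
  intro h
  have := norm_dh_sub_one (x := x) hη hw
  rw [h, zero_sub, norm_neg, norm_one] at this
  linarith

theorem hh_ne_zero {x η : ℝ} (hη : 0 < η) {w : ℂ} (hw : 0 < w.im) : hh x η w ≠ 0 := by
  intro h
  have := im_le_hh_im (x := x) hη hw
  rw [h, Complex.zero_im] at this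
  linarith

theorem hasDerivAt_hh {x η : ℝ} (hη : 0 < η) {w : ℂ} (hw : 0 < w.im) :
    HasDerivAt (hh x η) (dh x η w) w := by
  have hv := vv_ne_zero (x := x) hη hw
  have h1 : HasDerivAt (vv x η) 1 w := by
    unfold vv
    exact ((hasDerivAt_id w).sub_const _).add_const _
  have h2 : HasDerivAt (fun w => 1 / vv x η w) (-1 / vv x η w ^ 2) w := by
    have := h1.fun_inv hv
    simpa [one_div] using this
  have h3 : HasDerivAt (fun w => η * I / vv x η w ^ 2) (-(2 * η * I) / vv x η w ^ 3) w := by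
    have h4 := (hasDerivAt_const w (η * I : ℂ)).fun_div (h1.fun_pow 2) (pow_ne_zero 2 hv)
    refine h4.congr_deriv ?_
    field_simp
    ring
  have h6 := (hasDerivAt_id w).fun_sub ((h2.fun_add h3).const_mul ((η : ℂ) ^ 2 / 10))
  refine h6.congr_deriv ?_
  rw [dh]
  ring

theorem cay_im {z : ℂ} (hz : ‖z‖ < 1) : 0 < (cay z).im := by
  have h1 : 1 - z ≠ 0 := by
    intro h
    rw [sub_eq_zero] at h
    rw [← h, norm_one] at hz
    exact lt_irrefl _ hz
  have hn : 0 < Complex.normSq (1 - z) := Complex.normSq_pos.2 h1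
  have h2 : z.re ^ 2 + z.im ^ 2 < 1 := by
    have : ‖z‖ ^ 2 < 1 := by
      have := norm_nonneg z
      nlinarith
    rw [← Complex.normSq_eq_norm_sq, Complex.normSq_apply] at this
    nlinarith
  rw [cay, Complex.div_im]
  have e1 : (I * (1 + z)).im = 1 + z.re := by simp
  have e2 : (I * (1 + z)).re = -z.im := by simp
  have e3 : (1 - z).re = 1 - z.re := by simp
  have e4 : (1 - z).im = -z.im := by simp
  rw [e1, e2, e3, e4, ← sub_div]
  apply div_pos _ hn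
  nlinarith

theorem one_sub_ne_zero' {z : ℂ} (hz : ‖z‖ < 1) : 1 - z ≠ 0 := by
  intro h
  rw [sub_eq_zero] at h
  rw [← h, norm_one] at hz
  exact lt_irrefl _ hz

theorem cay_inj {z₁ z₂ : ℂ} (h₁ : ‖z₁‖ < 1) (h₂ : ‖z₂‖ < 1) (h : cay z₁ = cay z₂) : z₁ = z₂ := by
  have e1 := one_sub_ne_zero' h₁
  have e2 := one_sub_ne_zero' h₂
  rw [cay, cay, div_eq_div_iff e1 e2] at h
  have h3 : I * (2 * (z₁ - z₂)) = 0 := by linear_combination h
  rcases mul_eq_zero.1 h3 with h4 | h4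
  · exact absurd h4 Complex.I_ne_zero
  · rcases mul_eq_zero.1 h4 with h5 | h5
    · norm_num at h5
    · exact sub_eq_zero.1 h5

theorem hasDerivAt_cay {z : ℂ} (hz : ‖z‖ < 1) : HasDerivAt cay (2 * I / (1 - z) ^ 2) z := by
  have e1 := one_sub_ne_zero' hz
  have h1 : HasDerivAt (fun z : ℂ => I * (1 + z)) (I * 1) z :=
    ((hasDerivAt_id z).const_add 1).const_mul I
  have h2 : HasDerivAt (fun z : ℂ => 1 - z) (-1) z := (hasDerivAt_id z).const_sub 1
  have h3 := h1.fun_div h2 e1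
  refine h3.congr_deriv ?_
  field_simp
  ring

theorem cay_zero : cay 0 = I := by simp [cay]

theorem hasDerivAt_ff {x η : ℝ} (hη : 0 < η) {z : ℂ} (hz : ‖z‖ < 1) :
    HasDerivAt (ff x η) (hh x η (cay z) * dh x η (cay z) / (hh x η I * dh x η I) /
      (1 - z) ^ 2) z := by
  have e1 := one_sub_ne_zero' hz
  have hI : 0 < I.im := by simp
  have h1 := (hasDerivAt_hh (x := x) hη (cay_im hz)).comp z (hasDerivAt_cay hz)
  have h2 := ((h1.fun_pow 2).sub_const (hh x η I ^ 2)).div_const (4 * I * hh x η I * dh x η I)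
  have e2 := hh_ne_zero (x := x) hη hI
  have e3 := dh_ne_zero (x := x) hη hI
  have e4 := Complex.I_ne_zero
  refine h2.congr_deriv ?_
  simp only [Function.comp]
  field_simp
  ring

theorem classS_ff {x η : ℝ} (hη : 0 < η) : ClassS (ff x η) := by
  have hI : 0 < I.im := by simp
  have e2 := hh_ne_zero (x := x) hη hI
  have e3 := dh_ne_zero (x := x) hη hI
  refine ⟨?_, ?_, ?_, ?_⟩
  · intro z hz
    rw [mem_ball_zero_iff] at hz
    exact (hasDerivAt_ff hη hz).differentiableAt.differentiableWithinAt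
  · intro z₁ h₁ z₂ h₂ h
    rw [mem_ball_zero_iff] at h₁ h₂
    have hden : 4 * I * hh x η I * dh x η I ≠ 0 := by
      have e4 := Complex.I_ne_zero
      simp [e2, e3]
    rw [ff, ff, div_left_inj' hden, sub_left_inj, sq_eq_sq_iff_eq_or_eq_neg] at h
    have i1 := cay_im h₁
    have i2 := cay_im h₂
    rcases h with h | h
    · exact cay_inj h₁ h₂ (hh_injOn hη i1 i2 h)
    · exfalso
      have j1 := im_le_hh_im (x := x) hη i1
      have j2 := im_le_hh_im (x := x) hη i2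
      rw [h, Complex.neg_im] at j1
      linarith
  · simp [ff, cay_zero]
  · have h := hasDerivAt_ff (x := x) hη (z := 0) (by simp)
    rw [h.deriv, cay_zero]
    field_simp
    simp

theorem hasDerivAt_koebe {z : ℂ} (hz : ‖z‖ < 1) :
    HasDerivAt koebe ((1 + z) / (1 - z) ^ 3) z := by
  have e1 := one_sub_ne_zero' hz
  have h2 : HasDerivAt (fun z : ℂ => 1 - z) (-1) z := (hasDerivAt_id z).const_sub 1
  have h3 := (hasDerivAt_id' z).fun_div (h2.fun_pow 2) (pow_ne_zero 2 e1)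
  refine h3.congr_deriv ?_
  field_simp
  ring

/-- The quotient `f' / k'` up to normalisation. -/
noncomputable def AA (x η : ℝ) (w : ℂ) : ℂ := hh x η w * dh x η w / w

theorem deriv_ff_eq {x η : ℝ} (hη : 0 < η) {z : ℂ} (hz : ‖z‖ < 1) :
    deriv (ff x η) z = deriv koebe z * AA x η (cay z) / AA x η I := by
  have e1 := one_sub_ne_zero' hz
  have hI : 0 < I.im := by simp
  have e2 := hh_ne_zero (x := x) hη hI
  have e3 := dh_ne_zero (x := x) hη hI
  have e4 := Complex.I_ne_zero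
  have e5 : 1 + z ≠ 0 := by
    intro h
    have : z = -1 := by linear_combination h
    rw [this, norm_neg, norm_one] at hz
    exact lt_irrefl _ hz
  have e6 : cay z ≠ 0 := by
    intro h
    have := cay_im hz
    rw [h, Complex.zero_im] at this
    exact lt_irrefl _ this
  rw [(hasDerivAt_ff hη hz).deriv, (hasDerivAt_koebe hz).deriv, AA, AA]
  have e7 : 1 + z = cay z * (1 - z) / I := by
    rw [cay]
    field_simp
  rw [e7]
  field_simp

/-! ### Logarithm estimates -/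

theorem abs_log_one_add_le {y : ℝ} (hy : |y| ≤ 1 / 2) : |Real.log (1 + y)| ≤ 2 * |y| := by
  have h1 := (abs_le.1 hy).1
  have hpos : 0 < 1 + y := by linarith
  rw [abs_le]
  constructor
  · have h2 := Real.one_sub_inv_le_log_of_pos hpos
    have h3 : -(2 * |y|) ≤ 1 - (1 + y)⁻¹ := by
      have h4 : 1 - (1 + y)⁻¹ = y / (1 + y) := by field_simp; ring
      rw [h4, le_div_iff₀ hpos]
      rcases abs_cases y with ⟨h, _⟩ | ⟨h, _⟩ <;> rw [h] <;> nlinarith
    linarith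
  · have h2 := Real.log_le_sub_one_of_pos hpos
    have h3 := le_abs_self y
    have h4 := abs_nonneg y
    linarith

theorem abs_log_norm_le {ξ : ℂ} (h : ‖ξ‖ ≤ 1 / 2) : |Real.log ‖1 + ξ‖| ≤ 2 * ‖ξ‖ := by
  have h1 : |‖1 + ξ‖ - 1| ≤ ‖ξ‖ := by
    have := abs_norm_sub_norm_le (1 + ξ) 1
    rw [norm_one, add_sub_cancel_left] at this
    exact this
  have h2 := abs_log_one_add_le (y := ‖1 + ξ‖ - 1) (h1.trans h)
  rw [add_sub_cancel] at h2
  linarith

theorem normSq_one_add (ξ : ℂ) : ‖1 + ξ‖ ^ 2 = 1 + (2 * ξ.re + ‖ξ‖ ^ 2) := by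
  rw [← Complex.normSq_eq_norm_sq, ← Complex.normSq_eq_norm_sq, Complex.normSq_apply,
    Complex.normSq_apply]
  simp
  ring

theorem abs_log_norm_le' {ξ : ℂ} (h : |2 * ξ.re + ‖ξ‖ ^ 2| ≤ 1 / 2) :
    |Real.log ‖1 + ξ‖| ≤ 2 * |ξ.re| + ‖ξ‖ ^ 2 := by
  have h1 := abs_log_one_add_le h
  rw [← normSq_one_add, Real.log_pow, abs_mul] at h1
  have h2 : |((2 : ℕ) : ℝ)| = 2 := by norm_num
  rw [h2] at h1
  have h3 := abs_add_le (2 * ξ.re) (‖ξ‖ ^ 2)
  rw [abs_mul, abs_of_nonneg (sq_nonneg ‖ξ‖), abs_of_nonneg (by norm_num : (0:ℝ) ≤ 2)] at h3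
  linarith

theorem log_norm_le_neg {ξ : ℂ} {s : ℝ} (h0 : 1 + ξ ≠ 0) (h : 2 * ξ.re + ‖ξ‖ ^ 2 ≤ - (2 * s)) :
    Real.log ‖1 + ξ‖ ≤ -s := by
  have h1 : 0 < ‖1 + ξ‖ := norm_pos_iff.2 h0
  have h2 := Real.log_le_sub_one_of_pos (pow_pos h1 2)
  rw [Real.log_pow, normSq_one_add] at h2
  push_cast at h2
  linarith

/-! ### Mean value -/

theorem norm_circleMap_lt {r : ℝ} (h0 : 0 ≤ r) (h1 : r < 1) (θ : ℝ) : ‖circleMap 0 r θ‖ < 1 := by
  rw [norm_circleMap_zero, abs_of_nonneg h0]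
  exact h1

theorem AA_ne_zero {x η : ℝ} (hη : 0 < η) {w : ℂ} (hw : 0 < w.im) : AA x η w ≠ 0 := by
  have e0 : w ≠ 0 := by
    rintro rfl
    simp at hw
  exact div_ne_zero (mul_ne_zero (hh_ne_zero hη hw) (dh_ne_zero hη hw)) e0

theorem differentiableAt_AA {x η : ℝ} (hη : 0 < η) {w : ℂ} (hw : 0 < w.im) :
    DifferentiableAt ℂ (AA x η) w := by
  have e0 : w ≠ 0 := by
    rintro rfl
    simp at hw
  have hv := vv_ne_zero (x := x) hη hw
  have h1 : DifferentiableAt ℂ (vv x η) w := by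
    unfold vv
    fun_prop
  have h2 : DifferentiableAt ℂ (dh x η) w := by
    unfold dh
    exact ((((differentiableAt_const _).div (h1.pow 2) (pow_ne_zero 2 hv)).add
      ((differentiableAt_const _).div (h1.pow 3) (pow_ne_zero 3 hv))).const_mul _).const_add _
  unfold AA
  exact ((hasDerivAt_hh hη hw).differentiableAt.mul h2).div differentiableAt_id e0

theorem mean_value {x η r : ℝ} (hη : 0 < η) (h0 : 0 ≤ r) (h1 : r < 1) :
    ∫ θ in (0 : ℝ)..(2 * π), Real.log ‖AA x η (cay (circleMap 0 r θ))‖ =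
      2 * π * Real.log ‖AA x η I‖ := by
  have hA : AnalyticOnNhd ℂ (fun z => AA x η (cay z)) (Metric.closedBall 0 |r|) := by
    have hD : DifferentiableOn ℂ (fun z => AA x η (cay z)) (Metric.ball 0 1) := by
      intro z hz
      rw [mem_ball_zero_iff] at hz
      exact ((differentiableAt_AA hη (cay_im hz)).comp z
        (hasDerivAt_cay hz).differentiableAt).differentiableWithinAt
    have hB := hD.analyticOnNhd Metric.isOpen_ball
    apply hB.mono
    rw [abs_of_nonneg h0]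
    exact Metric.closedBall_subset_ball h1
  have hN : ∀ u ∈ Metric.closedBall (0 : ℂ) |r|, (fun z => AA x η (cay z)) u ≠ 0 := by
    intro u hu
    rw [mem_closedBall_zero_iff, abs_of_nonneg h0] at hu
    exact AA_ne_zero hη (cay_im (hu.trans_lt h1))
  have h := hA.circleAverage_log_norm_of_ne_zero hN
  rw [Real.circleAverage_def, smul_eq_mul, cay_zero] at h
  rw [← h]
  have := Real.pi_pos
  field_simp

/-! ### Pointwise estimates -/

/-- The remainder `A - 1`. -/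
noncomputable def xi (x η : ℝ) (w : ℂ) : ℂ := AA x η w - 1

theorem xi_eq {x η : ℝ} (hη : 0 < η) {w : ℂ} (hw : 0 < w.im) :
    xi x η w = (η : ℂ) ^ 2 / 10 * (1 / vv x η w ^ 2 + 2 * η * I / vv x η w ^ 3) -
      (η : ℂ) ^ 2 / 10 * (1 / vv x η w + η * I / vv x η w ^ 2) / w -
      ((η : ℂ) ^ 2 / 10 * (1 / vv x η w + η * I / vv x η w ^ 2) / w) *
      ((η : ℂ) ^ 2 / 10 * (1 / vv x η w ^ 2 + 2 * η * I / vv x η w ^ 3)) := by
  have e0 : w ≠ 0 := by
    rintro rfl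
    simp at hw
  have hv := vv_ne_zero (x := x) hη hw
  rw [xi, AA, hh, dh]
  field_simp
  ring

theorem norm_kernel {η : ℝ} (hη : 0 < η) {v : ℂ} (hv : η ≤ ‖v‖) :
    ‖(η : ℂ) ^ 2 / 10 * (1 / v + η * I / v ^ 2)‖ ≤ η ^ 2 / 5 / ‖v‖ := by
  have hv0 : 0 < ‖v‖ := hη.trans_le hv
  rw [norm_mul, norm_div, norm_pow, norm_ofReal_pos hη, show ‖(10 : ℂ)‖ = 10 by norm_num]
  have b1 : ‖1 / v + η * I / v ^ 2‖ ≤ 1 / ‖v‖ + η / ‖v‖ ^ 2 := by
    refine (norm_add_le _ _).trans ?_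
    rw [norm_div, norm_one, norm_div, norm_mul, norm_pow, norm_ofReal_pos hη, Complex.norm_I,
      mul_one]
  have b2 : η / ‖v‖ ^ 2 ≤ 1 / ‖v‖ := by
    rw [div_le_div_iff₀ (by positivity) hv0]
    nlinarith
  calc η ^ 2 / 10 * ‖1 / v + η * I / v ^ 2‖ ≤ η ^ 2 / 10 * (1 / ‖v‖ + 1 / ‖v‖) := by
        gcongr
        linarith
    _ = η ^ 2 / 5 / ‖v‖ := by ring

theorem norm_kernel' {η : ℝ} (hη : 0 < η) {v : ℂ} (hv : η ≤ ‖v‖) :
    ‖(η : ℂ) ^ 2 / 10 * (1 / v ^ 2 + 2 * η * I / v ^ 3)‖ ≤ 3 * η ^ 2 / 10 / ‖v‖ ^ 2 := by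
  have hv0 : 0 < ‖v‖ := hη.trans_le hv
  rw [norm_mul, norm_div, norm_pow, norm_ofReal_pos hη, show ‖(10 : ℂ)‖ = 10 by norm_num]
  have b1 : ‖1 / v ^ 2 + 2 * η * I / v ^ 3‖ ≤ 1 / ‖v‖ ^ 2 + 2 * η / ‖v‖ ^ 3 := by
    refine (norm_add_le _ _).trans ?_
    rw [norm_div, norm_one, norm_div, norm_mul, norm_mul, norm_pow, norm_pow,
      norm_ofReal_pos hη, Complex.norm_I, mul_one, show ‖(2 : ℂ)‖ = 2 by norm_num]
  have b2 : 2 * η / ‖v‖ ^ 3 ≤ 2 / ‖v‖ ^ 2 := by
    rw [div_le_div_iff₀ (by positivity) (by positivity)]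
    nlinarith [mul_le_mul_of_nonneg_right hv (sq_nonneg ‖v‖)]
  calc η ^ 2 / 10 * ‖1 / v ^ 2 + 2 * η * I / v ^ 3‖
      ≤ η ^ 2 / 10 * (1 / ‖v‖ ^ 2 + 2 / ‖v‖ ^ 2) := by
        gcongr
        linarith
    _ = 3 * η ^ 2 / 10 / ‖v‖ ^ 2 := by ring

theorem norm_kernel'' {η : ℝ} (hη : 0 < η) {v : ℂ} (hv : η ≤ ‖v‖) :
    ‖(η : ℂ) ^ 2 / 10 * (1 / v ^ 2 + 2 * η * I / v ^ 3)‖ ≤ 3 / 10 := by
  refine (norm_kernel' hη hv).trans ?_
  have hv0 : 0 < ‖v‖ := hη.trans_le hv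
  rw [div_le_iff₀ (by positivity)]
  have : η ^ 2 ≤ ‖v‖ ^ 2 := pow_le_pow_left₀ hη.le hv 2
  linarith

/-- The first-order combination. -/
theorem kernel_comb {x η : ℝ} (hη : 0 < η) {w : ℂ} (hw : 0 < w.im) :
    (η : ℂ) ^ 2 / 10 * (1 / vv x η w ^ 2 + 2 * η * I / vv x η w ^ 3) -
      (η : ℂ) ^ 2 / 10 * (1 / vv x η w + η * I / vv x η w ^ 2) / w =
    (η : ℂ) ^ 2 / 10 * ((x - 2 * η * I) / (vv x η w ^ 2 * w) + 2 * η * I / vv x η w ^ 3) := by
  have e0 : w ≠ 0 := by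
    rintro rfl
    simp at hw
  have hv := vv_ne_zero (x := x) hη hw
  have e1 : w = vv x η w + x - η * I := by
    rw [vv]; ring
  have e2 : (x : ℂ) = w - vv x η w + η * I := by
    rw [vv]; ring
  rw [e2]
  obtain ⟨v, hv1⟩ : ∃ v, v = vv x η w := ⟨_, rfl⟩
  rw [← hv1] at hv ⊢
  field_simp
  ring

theorem norm_xi_le {x η : ℝ} (hη : 0 < η) (hx : 1000 * η ≤ x) {w : ℂ} (hw : 0 < w.im) :
    ‖xi x η w‖ ≤ η ^ 2 / 10 * (2 * x / (‖vv x η w‖ ^ 2 * ‖w‖) + 2 * η / ‖vv x η w‖ ^ 3) := by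
  have hn := le_norm_vv (x := x) (η := η) hw
  have hv0 : 0 < ‖vv x η w‖ := hη.trans_le hn
  have hw0 : 0 < ‖w‖ := by
    rw [norm_pos_iff]
    rintro rfl
    simp at hw
  have hx0 : 0 < x := by linarith
  rw [xi_eq hη hw, kernel_comb hη hw]
  refine (norm_sub_le _ _).trans ?_
  have b1 : ‖(η : ℂ) ^ 2 / 10 * ((x - 2 * η * I) / (vv x η w ^ 2 * w) +
      2 * η * I / vv x η w ^ 3)‖ ≤ η ^ 2 / 10 * ((x + 2 * η) / (‖vv x η w‖ ^ 2 * ‖w‖) +
        2 * η / ‖vv x η w‖ ^ 3) := by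
    rw [norm_mul, norm_div, norm_pow, norm_ofReal_pos hη, show ‖(10 : ℂ)‖ = 10 by norm_num]
    gcongr
    refine (norm_add_le _ _).trans ?_
    apply add_le_add
    · rw [norm_div, norm_mul, norm_pow]
      gcongr
      refine (norm_sub_le _ _).trans ?_
      rw [norm_ofReal_pos hx0, norm_mul, norm_mul, norm_ofReal_pos hη, Complex.norm_I, mul_one,
        show ‖(2 : ℂ)‖ = 2 by norm_num]
    · rw [norm_div, norm_mul, norm_mul, norm_pow, norm_ofReal_pos hη, Complex.norm_I, mul_one,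
        show ‖(2 : ℂ)‖ = 2 by norm_num]
  have b2 : ‖((η : ℂ) ^ 2 / 10 * (1 / vv x η w + η * I / vv x η w ^ 2) / w) *
      ((η : ℂ) ^ 2 / 10 * (1 / vv x η w ^ 2 + 2 * η * I / vv x η w ^ 3))‖ ≤
      η ^ 2 / 10 * (η / (‖vv x η w‖ ^ 2 * ‖w‖)) := by
    rw [norm_mul, norm_div]
    calc ‖(η : ℂ) ^ 2 / 10 * (1 / vv x η w + η * I / vv x η w ^ 2)‖ / ‖w‖ *
          ‖(η : ℂ) ^ 2 / 10 * (1 / vv x η w ^ 2 + 2 * η * I / vv x η w ^ 3)‖
        ≤ (η ^ 2 / 5 / ‖vv x η w‖) / ‖w‖ * (3 * η ^ 2 / 10 / ‖vv x η w‖ ^ 2) := by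
          gcongr
          · exact norm_kernel hη hn
          · exact norm_kernel' hη hn
      _ = η ^ 2 / 10 * ((3 / 5 * η ^ 2 / ‖vv x η w‖) / (‖vv x η w‖ ^ 2 * ‖w‖)) := by
          field_simp
      _ ≤ η ^ 2 / 10 * (η / (‖vv x η w‖ ^ 2 * ‖w‖)) := by
          gcongr
          rw [div_le_iff₀ hv0]
          nlinarith
  calc _ ≤ η ^ 2 / 10 * ((x + 2 * η) / (‖vv x η w‖ ^ 2 * ‖w‖) + 2 * η / ‖vv x η w‖ ^ 3) +
        η ^ 2 / 10 * (η / (‖vv x η w‖ ^ 2 * ‖w‖)) := add_le_add b1 b2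
    _ = η ^ 2 / 10 * ((x + 3 * η) / (‖vv x η w‖ ^ 2 * ‖w‖) + 2 * η / ‖vv x η w‖ ^ 3) := by
        ring
    _ ≤ η ^ 2 / 10 * (2 * x / (‖vv x η w‖ ^ 2 * ‖w‖) + 2 * η / ‖vv x η w‖ ^ 3) := by
        gcongr
        linarith

/-- Size of the first kernel divided by `w`. -/
theorem norm_kernel_div {x η : ℝ} (hη : 0 < η) (hx : 1000 * η ≤ x) {w : ℂ} (hw : 0 < w.im)
    (hw2 : η / 2 ≤ ‖w‖) :
    ‖(η : ℂ) ^ 2 / 10 * (1 / vv x η w + η * I / vv x η w ^ 2) / w‖ ≤ 1 / 1000 := by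
  have hn := le_norm_vv (x := x) (η := η) hw
  have hv0 : 0 < ‖vv x η w‖ := hη.trans_le hn
  have hw0 : 0 < ‖w‖ := lt_of_lt_of_le (by linarith) hw2
  have hx0 : 0 < x := by linarith
  have h1 : x ≤ ‖vv x η w‖ + ‖w‖ := by
    have e : (x : ℂ) - η * I = w - vv x η w := by rw [vv]; ring
    have h2 : x ≤ ‖(x : ℂ) - η * I‖ := by
      have := Complex.abs_re_le_norm ((x : ℂ) - η * I)
      simp at this
      exact (le_abs_self x).trans this
    rw [e] at h2
    have := norm_sub_le w (vv x η w)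
    linarith
  have h2 : x * η / 4 ≤ ‖vv x η w‖ * ‖w‖ := by
    by_cases h : x / 2 ≤ ‖vv x η w‖
    · nlinarith
    · have h3 : x / 2 ≤ ‖w‖ := by linarith
      nlinarith
  rw [norm_div, div_le_iff₀ hw0]
  refine (norm_kernel hη hn).trans ?_
  rw [div_le_iff₀ hv0]
  have h3 : η ^ 2 / 5 ≤ 1 / 1000 * (x * η / 4) := by nlinarith
  nlinarith

theorem norm_xi_le_half {x η : ℝ} (hη : 0 < η) (hx : 1000 * η ≤ x) {w : ℂ} (hw : 0 < w.im)
    (hw2 : η / 2 ≤ ‖w‖) : ‖xi x η w‖ ≤ 1 / 2 := by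
  have hn := le_norm_vv (x := x) (η := η) hw
  rw [xi_eq hη hw]
  have b1 := norm_kernel_div hη hx hw hw2
  have b2 := norm_kernel'' hη hn
  obtain ⟨P, hP⟩ : ∃ P, P = (η : ℂ) ^ 2 / 10 * (1 / vv x η w + η * I / vv x η w ^ 2) / w :=
    ⟨_, rfl⟩
  obtain ⟨Q, hQ⟩ : ∃ Q, Q = (η : ℂ) ^ 2 / 10 * (1 / vv x η w ^ 2 + 2 * η * I / vv x η w ^ 3) :=
    ⟨_, rfl⟩
  rw [← hP, ← hQ]
  rw [← hP] at b1
  rw [← hQ] at b2
  have b3 := norm_sub_le (Q - P) (P * Q)
  have b4 := norm_sub_le Q P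
  have b5 : ‖P * Q‖ ≤ 1 / 1000 * (3 / 10) := by
    rw [norm_mul]
    gcongr
  linarith

/-- The value at the centre. -/
theorem abs_log_center {x η : ℝ} (hη : 0 < η) (hx : 1000 * η ≤ x) (hx1 : x ≤ 1 / 100) :
    |Real.log ‖AA x η I‖| ≤ 2 * η ^ 2 * x ^ 2 := by
  have hx0 : 0 < x := by linarith
  have hI : 0 < I.im := by simp
  have hn : 1 ≤ ‖vv x η I‖ := by
    have := Complex.abs_im_le_norm (vv x η I)
    rw [vv_im, Complex.I_im] at this
    have h2 := le_abs_self (1 + η)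
    linarith
  have hn' : η ≤ ‖vv x η I‖ := by linarith
  have hAA : AA x η I = 1 + xi x η I := by rw [xi]; ring
  -- the product term
  obtain ⟨P, hP⟩ : ∃ P, P = ((η : ℂ) ^ 2 / 10 * (1 / vv x η I + η * I / vv x η I ^ 2) / I) *
      ((η : ℂ) ^ 2 / 10 * (1 / vv x η I ^ 2 + 2 * η * I / vv x η I ^ 3)) := ⟨_, rfl⟩
  have hPn : ‖P‖ ≤ 3 / 50 * η ^ 4 := by
    rw [hP, norm_mul, norm_div, Complex.norm_I, div_one]
    calc ‖(η : ℂ) ^ 2 / 10 * (1 / vv x η I + η * I / vv x η I ^ 2)‖ *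
          ‖(η : ℂ) ^ 2 / 10 * (1 / vv x η I ^ 2 + 2 * η * I / vv x η I ^ 3)‖
        ≤ (η ^ 2 / 5 / ‖vv x η I‖) * (3 * η ^ 2 / 10 / ‖vv x η I‖ ^ 2) := by
          gcongr
          · exact norm_kernel hη hn'
          · exact norm_kernel' hη hn'
      _ ≤ (η ^ 2 / 5 / 1) * (3 * η ^ 2 / 10 / 1 ^ 2) := by gcongr
      _ = 3 / 50 * η ^ 4 := by ring
  have hxi : xi x η I = (η : ℂ) ^ 2 / 10 * ((x - 2 * η * I) / (vv x η I ^ 2 * I) +
      2 * η * I / vv x η I ^ 3) - P := by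
    rw [xi_eq hη hI, kernel_comb hη hI, hP]
  have hη1 : η ≤ 1 / 100000 := by linarith
  -- size
  have hsize : ‖xi x η I‖ ≤ η ^ 2 * x := by
    refine (norm_xi_le hη hx hI).trans ?_
    rw [Complex.norm_I, mul_one]
    calc η ^ 2 / 10 * (2 * x / ‖vv x η I‖ ^ 2 + 2 * η / ‖vv x η I‖ ^ 3)
        ≤ η ^ 2 / 10 * (2 * x / 1 ^ 2 + 2 * η / 1 ^ 3) := by gcongr
      _ ≤ η ^ 2 * x := by
        have : 0 ≤ η ^ 2 := sq_nonneg η
        nlinarith
  -- real part of the main term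
  obtain ⟨g, hg⟩ : ∃ g : ℂ, g = ((1 + η : ℝ) : ℂ) + (x : ℂ) * I := ⟨_, rfl⟩
  have hvg : vv x η I = I * g := by
    rw [vv, hg]
    push_cast
    have := Complex.I_sq
    linear_combination (-x : ℂ) * this
  have hg0 : g ≠ 0 := by
    rintro rfl
    rw [hvg, mul_zero, norm_zero] at hn
    linarith
  have hmain : (x - 2 * η * I) / (vv x η I ^ 2 * I) + 2 * η * I / vv x η I ^ 3 =
      (((-x ^ 2 + 2 * η ^ 2 : ℝ) : ℂ) + ((x * (1 + 3 * η) : ℝ) : ℂ) * I) / g ^ 3 := by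
    rw [hvg]
    have hI0 := Complex.I_ne_zero
    have hI2 := Complex.I_sq
    have hgg : g = 1 + η + x * I := by rw [hg]; push_cast; ring
    have e1 : (I * g) ^ 2 * I = -(g ^ 2 * I) := by linear_combination g ^ 2 * I * hI2
    have e2 : (I * g) ^ 3 = -(I * g ^ 3) := by linear_combination I * g ^ 3 * hI2
    have e3 : (x - 2 * η * I) / (-(g ^ 2 * I)) = (x * I + 2 * η) * g / g ^ 3 := by
      rw [div_eq_div_iff (neg_ne_zero.2 (mul_ne_zero (pow_ne_zero 2 hg0) hI0)) (pow_ne_zero 3 hg0)]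
      linear_combination (x : ℂ) * g ^ 3 * hI2
    have e4 : 2 * η * I / (-(I * g ^ 3)) = -(2 * η) / g ^ 3 := by
      rw [div_eq_div_iff (neg_ne_zero.2 (mul_ne_zero hI0 (pow_ne_zero 3 hg0))) (pow_ne_zero 3 hg0)]
      ring
    rw [e1, e2, e3, e4, ← add_div]
    congr 1
    push_cast
    rw [hgg]
    linear_combination (x : ℂ) ^ 2 * hI2
  have hre : |((((-x ^ 2 + 2 * η ^ 2 : ℝ) : ℂ) + ((x * (1 + 3 * η) : ℝ) : ℂ) * I) / g ^ 3).re| ≤
      6 * x ^ 2 := by
    obtain ⟨G, hG⟩ : ∃ G : ℂ, G = g ^ 3 := ⟨_, rfl⟩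
    have hg1 : 1 ≤ ‖g‖ := by
      have := Complex.abs_re_le_norm g
      have h1 : g.re = 1 + η := by simp [hg]
      rw [h1] at this
      have h2 := le_abs_self (1 + η)
      linarith
    have hG1 : 1 ≤ ‖G‖ := by
      rw [hG, norm_pow]
      exact one_le_pow₀ hg1
    have hGn : 1 ≤ Complex.normSq G := by
      rw [Complex.normSq_eq_norm_sq]
      exact one_le_pow₀ hG1
    have hGim : |G.im| ≤ 4 * x := by
      have e1 : G.im = 3 * (1 + η) ^ 2 * x - x ^ 3 := by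
        have h1 : g.re = 1 + η := by simp [hg]
        have h2 : g.im = x := by simp [hg]
        have h3 : (g ^ 3).im = 3 * g.re ^ 2 * g.im - g.im ^ 3 := by
          rw [pow_succ, pow_two, Complex.mul_im, Complex.mul_im, Complex.mul_re]
          ring
        rw [hG, h3, h1, h2]
      rw [e1, abs_le]
      constructor <;> nlinarith [pow_pos hx0 3, mul_pos hη hx0, mul_pos (mul_pos hη hx0) hη,
        mul_nonneg (sub_nonneg.2 hx1) (sq_nonneg x)]
    have hGre : |G.re| ≤ Complex.normSq G := by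
      rw [Complex.normSq_eq_norm_sq]
      have := Complex.abs_re_le_norm G
      nlinarith
    rw [← hG, Complex.div_re]
    have e1 : (((-x ^ 2 + 2 * η ^ 2 : ℝ) : ℂ) + ((x * (1 + 3 * η) : ℝ) : ℂ) * I).re =
        -x ^ 2 + 2 * η ^ 2 := by
      rw [Complex.add_re, Complex.re_ofReal_mul, Complex.ofReal_re, Complex.I_re, mul_zero,
        add_zero]
    have e2 : (((-x ^ 2 + 2 * η ^ 2 : ℝ) : ℂ) + ((x * (1 + 3 * η) : ℝ) : ℂ) * I).im =
        x * (1 + 3 * η) := by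
      rw [Complex.add_im, Complex.im_ofReal_mul, Complex.ofReal_im, Complex.I_im, mul_one,
        zero_add]
    rw [e1, e2, ← add_div, abs_div, abs_of_pos (by linarith : 0 < Complex.normSq G),
      div_le_iff₀ (by linarith : 0 < Complex.normSq G)]
    refine (abs_add_le _ _).trans ?_
    rw [abs_mul, abs_mul]
    have h1 : |-x ^ 2 + 2 * η ^ 2| ≤ x ^ 2 := by
      rw [abs_le]
      constructor <;> nlinarith
    have h2 : |x * (1 + 3 * η)| ≤ 5 / 4 * x := by
      rw [abs_of_pos (by positivity)]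
      nlinarith
    have h3 : |-x ^ 2 + 2 * η ^ 2| * |G.re| ≤ x ^ 2 * Complex.normSq G := by gcongr
    have h4 : |x * (1 + 3 * η)| * |G.im| ≤ (5 / 4 * x) * (4 * x) := by gcongr
    nlinarith [sq_nonneg x]
  -- conclusion
  have hxire : |(xi x η I).re| ≤ 6 / 10 * η ^ 2 * x ^ 2 + 3 / 50 * η ^ 4 := by
    rw [hxi, hmain, Complex.sub_re]
    have e1 : (η : ℂ) ^ 2 / 10 = ((η ^ 2 / 10 : ℝ) : ℂ) := by push_cast; ring
    rw [e1, Complex.re_ofReal_mul]
    refine (abs_sub _ _).trans ?_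
    rw [abs_mul, abs_of_nonneg (by positivity : (0:ℝ) ≤ η ^ 2 / 10)]
    have h1 := (Complex.abs_re_le_norm P).trans hPn
    have h2 := mul_le_mul_of_nonneg_left hre (by positivity : (0:ℝ) ≤ η ^ 2 / 10)
    linarith
  have hη2 : η ^ 4 ≤ η ^ 2 * x ^ 2 / 1000 := by
    have : η ^ 2 ≤ x ^ 2 / 1000 := by nlinarith
    nlinarith [sq_nonneg η]
  have hsq : ‖xi x η I‖ ^ 2 ≤ η ^ 2 * x ^ 2 / 1000 := by
    have h1 := pow_le_pow_left₀ (norm_nonneg _) hsize 2
    have h2 : (η ^ 2 * x) ^ 2 = η ^ 2 * (η ^ 2 * x ^ 2) := by ring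
    rw [h2] at h1
    have h3 : η ^ 2 ≤ 1 / 1000 := by nlinarith
    nlinarith [mul_nonneg (sq_nonneg η) (sq_nonneg x)]
  have hsmall : η ^ 2 * x ^ 2 ≤ 1 / 1000 := by
    have h1 : η ^ 2 ≤ 1 / 1000 := by nlinarith
    have h2 : x ^ 2 ≤ 1 := by nlinarith
    nlinarith [sq_nonneg η, sq_nonneg x]
  rw [hAA]
  refine (abs_log_norm_le' ?_).trans ?_
  · refine (abs_add_le _ _).trans ?_
    rw [abs_mul, abs_of_nonneg (by norm_num : (0:ℝ) ≤ 2), abs_of_nonneg (sq_nonneg ‖xi x η I‖)]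
    nlinarith
  · nlinarith

/-! ### Estimates on the circle -/

/-- The pole, outside the disc, of the perturbation. -/
noncomputable def bb (x η : ℝ) : ℂ := ((x : ℂ) - η * I - I) / ((x : ℂ) - η * I + I)

/-- The boundary point corresponding to `x`. -/
noncomputable def zz (x : ℝ) : ℂ := ((x : ℂ) - I) / ((x : ℂ) + I)

theorem aI_ne_zero {x η : ℝ} (hη : η < 1) : (x : ℂ) - η * I + I ≠ 0 := by
  intro h
  have := congrArg Complex.im h
  simp at this
  linarith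

theorem xI_ne_zero (x : ℝ) : (x : ℂ) + I ≠ 0 := by
  intro h
  have := congrArg Complex.im h
  simp at this

theorem norm_aI_ge {x η : ℝ} (hη : η ≤ 1 / 100) : 99 / 100 ≤ ‖(x : ℂ) - η * I + I‖ := by
  have h := Complex.abs_im_le_norm ((x : ℂ) - η * I + I)
  simp at h
  have := le_abs_self (-η + 1)
  linarith

theorem norm_aI_le {x η : ℝ} (hη : 0 < η) (hη1 : η ≤ 1) (hx : 0 < x) (hx1 : x ≤ 1 / 100) :
    ‖(x : ℂ) - η * I + I‖ ≤ 2 := by
  have e : (x : ℂ) - η * I + I = (x : ℂ) + ((1 - η : ℝ) : ℂ) * I := by push_cast; ring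
  rw [e]
  refine (norm_add_le _ _).trans ?_
  rw [norm_mul, Complex.norm_I, mul_one, norm_ofReal_pos hx, Complex.norm_real, Real.norm_eq_abs,
    abs_of_nonneg (by linarith)]
  linarith

theorem one_le_norm_bb {x η : ℝ} (hη : 0 < η) (hη1 : η < 1) : 1 ≤ ‖bb x η‖ := by
  rw [bb, norm_div, one_le_div (norm_pos_iff.2 (aI_ne_zero hη1)), ← sq_le_sq₀ (norm_nonneg _)
    (norm_nonneg _), ← Complex.normSq_eq_norm_sq, ← Complex.normSq_eq_norm_sq,
    Complex.normSq_apply, Complex.normSq_apply]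
  simp
  nlinarith

theorem vv_cay {x η : ℝ} (hη : η < 1) {z : ℂ} (hz : ‖z‖ < 1) :
    vv x η (cay z) = ((x : ℂ) - η * I + I) * (z - bb x η) / (1 - z) := by
  have e1 := one_sub_ne_zero' hz
  have e2 := aI_ne_zero (x := x) hη
  rw [vv, cay, bb, mul_sub, mul_div_cancel₀ _ e2]
  field_simp
  ring

theorem norm_zz (x : ℝ) : ‖zz x‖ = 1 := by
  rw [zz, norm_div, div_eq_one_iff_eq (norm_ne_zero_iff.2 (xI_ne_zero x)),
    ← sq_eq_sq₀ (norm_nonneg _) (norm_nonneg _), ← Complex.normSq_eq_norm_sq,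
    ← Complex.normSq_eq_norm_sq, Complex.normSq_apply, Complex.normSq_apply]
  simp

theorem one_le_norm_xI (x : ℝ) : 1 ≤ ‖(x : ℂ) + I‖ := by
  have h := Complex.abs_im_le_norm ((x : ℂ) + I)
  simpa using h

theorem norm_xI_le {x : ℝ} (hx : 0 < x) : ‖(x : ℂ) + I‖ ≤ 1 + x := by
  refine (norm_add_le _ _).trans ?_
  rw [norm_ofReal_pos hx, Complex.norm_I]
  linarith

theorem zz_sub_bb {x η : ℝ} (hη : 0 < η) (hη1 : η ≤ 1 / 100) : ‖zz x - bb x η‖ ≤ 3 * η := by
  have e1 := xI_ne_zero x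
  have e2 := aI_ne_zero (x := x) (η := η) (by linarith)
  have e3 : zz x - bb x η = -(2 * η) / (((x : ℂ) + I) * ((x : ℂ) - η * I + I)) := by
    rw [zz, bb, div_sub_div _ _ e1 e2]
    congr 1
    linear_combination (2 * η : ℂ) * Complex.I_sq
  rw [e3, norm_div, norm_neg, norm_mul, norm_mul, norm_ofReal_pos hη,
    show ‖(2 : ℂ)‖ = 2 by norm_num]
  have h1 := one_le_norm_xI x
  have h2 := norm_aI_ge (x := x) hη1
  rw [div_le_iff₀ (by positivity)]
  have h3 : 99 / 100 ≤ ‖(x : ℂ) + I‖ * ‖(x : ℂ) - η * I + I‖ := by nlinarith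
  nlinarith

theorem one_add_bb {x η : ℝ} (hη : 0 < η) (hη1 : η < 1) (hx : 0 < x) (hx1 : x ≤ 1 / 100) :
    x ≤ ‖1 + bb x η‖ := by
  have e2 := aI_ne_zero (x := x) (η := η) hη1
  have e3 : 1 + bb x η = 2 * ((x : ℂ) - η * I) / ((x : ℂ) - η * I + I) := by
    rw [bb]
    field_simp
    ring
  have h1 := norm_aI_le hη hη1.le hx hx1
  have h2 : x ≤ ‖(x : ℂ) - η * I‖ := by
    have := Complex.abs_re_le_norm ((x : ℂ) - η * I)
    simp at this
    exact (le_abs_self x).trans this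
  rw [e3, norm_div, norm_mul, show ‖(2 : ℂ)‖ = 2 by norm_num, le_div_iff₀ (norm_pos_iff.2 e2)]
  nlinarith

theorem zz_one_sub (x : ℝ) : 1 - zz x = 2 * I / ((x : ℂ) + I) := by
  have e1 := xI_ne_zero x
  rw [zz]
  field_simp
  ring

theorem zz_one_add (x : ℝ) : 1 + zz x = 2 * x / ((x : ℂ) + I) := by
  have e1 := xI_ne_zero x
  rw [zz]
  field_simp
  ring

/-- The absolute value of `k'` at `zz x`. -/
noncomputable def k0 (x : ℝ) : ℝ := ‖(1 + zz x) / (1 - zz x) ^ 3‖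

theorem norm_one_sub_zz_ge {x : ℝ} (hx : 0 < x) (hx1 : x ≤ 1) : 1 ≤ ‖1 - zz x‖ := by
  rw [zz_one_sub, norm_div, norm_mul, Complex.norm_I, show ‖(2 : ℂ)‖ = 2 by norm_num, mul_one,
    one_le_div (norm_pos_iff.2 (xI_ne_zero x))]
  exact (norm_xI_le hx).trans (by linarith)

theorem norm_one_add_zz_le {x : ℝ} (hx : 0 < x) : ‖1 + zz x‖ ≤ 2 * x := by
  rw [zz_one_add, norm_div, norm_mul, show ‖(2 : ℂ)‖ = 2 by norm_num, norm_ofReal_pos hx]
  exact div_le_self (by positivity) (one_le_norm_xI x)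

theorem k0_ge {x : ℝ} (hx : 0 < x) : x / 4 ≤ k0 x := by
  have h1 := one_le_norm_xI x
  have h0 : 0 < ‖(x : ℂ) + I‖ := by linarith
  rw [k0, zz_one_sub, zz_one_add, norm_div, norm_div, norm_pow, norm_div, norm_mul, norm_mul,
    Complex.norm_I, show ‖(2 : ℂ)‖ = 2 by norm_num, norm_ofReal_pos hx, mul_one]
  have : 2 * x / ‖(x : ℂ) + I‖ / (2 / ‖(x : ℂ) + I‖) ^ 3 = x / 4 * ‖(x : ℂ) + I‖ ^ 2 := by
    field_simp
    norm_num
  rw [this]
  have h2 : 1 ≤ ‖(x : ℂ) + I‖ ^ 2 := one_le_pow₀ h1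
  nlinarith

theorem k0_le {x : ℝ} (hx : 0 < x) (hx1 : x ≤ 1) : k0 x ≤ x := by
  have h1 := one_le_norm_xI x
  have h0 : 0 < ‖(x : ℂ) + I‖ := by linarith
  rw [k0, zz_one_sub, zz_one_add, norm_div, norm_div, norm_pow, norm_div, norm_mul, norm_mul,
    Complex.norm_I, show ‖(2 : ℂ)‖ = 2 by norm_num, norm_ofReal_pos hx, mul_one]
  have : 2 * x / ‖(x : ℂ) + I‖ / (2 / ‖(x : ℂ) + I‖) ^ 3 = x / 4 * ‖(x : ℂ) + I‖ ^ 2 := by
    field_simp
    norm_num
  rw [this]
  have h3 : ‖(x : ℂ) + I‖ ≤ 2 := (norm_xI_le hx).trans (by linarith)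
  have h2 : ‖(x : ℂ) + I‖ ^ 2 ≤ 2 ^ 2 := pow_le_pow_left₀ h0.le h3 2
  nlinarith

theorem norm_one_sub_le {z : ℂ} (hz : ‖z‖ < 1) : ‖1 - z‖ ≤ 2 := by
  refine (norm_sub_le _ _).trans ?_
  rw [norm_one]
  linarith

theorem k_lipschitz {x : ℝ} (hx : 0 < x) (hx1 : x ≤ 1 / 100) {z : ℂ} (hz : ‖z‖ < 1) :
    |‖(1 + z) / (1 - z) ^ 3‖ - k0 x| * ‖1 - z‖ ^ 3 ≤ 2 * ‖z - zz x‖ := by
  have e1 := one_sub_ne_zero' hz
  have h1 := norm_one_sub_zz_ge hx (by linarith)
  have e2 : 1 - zz x ≠ 0 := by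
    intro h
    rw [h, norm_zero] at h1
    linarith
  have h2 := norm_one_add_zz_le hx
  have h3 : ‖1 - zz x‖ ≤ 2 := by
    refine (norm_sub_le _ _).trans ?_
    rw [norm_one, norm_zz]
    norm_num
  have h4 := norm_one_sub_le hz
  calc |‖(1 + z) / (1 - z) ^ 3‖ - k0 x| * ‖1 - z‖ ^ 3
      ≤ ‖(1 + z) / (1 - z) ^ 3 - (1 + zz x) / (1 - zz x) ^ 3‖ * ‖1 - z‖ ^ 3 := by
        gcongr
        exact abs_norm_sub_norm_le _ _
    _ = ‖(z - zz x) + (1 + zz x) * (z - zz x) * ((1 - zz x) ^ 2 + (1 - zz x) * (1 - z) +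
          (1 - z) ^ 2) / (1 - zz x) ^ 3‖ := by
        rw [← norm_pow, ← norm_mul]
        congr 1
        field_simp
        ring
    _ ≤ ‖z - zz x‖ + (2 * x) * ‖z - zz x‖ * (2 ^ 2 + 2 * 2 + 2 ^ 2) / 1 ^ 3 := by
        refine (norm_add_le _ _).trans ?_
        gcongr
        rw [norm_div, norm_mul, norm_mul, norm_pow]
        gcongr
        refine (norm_add_le _ _).trans ?_
        rw [norm_pow]
        gcongr
        refine (norm_add_le _ _).trans ?_
        rw [norm_pow, norm_mul]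
        gcongr
    _ ≤ 2 * ‖z - zz x‖ := by
        have := norm_nonneg (z - zz x)
        nlinarith

theorem norm_cay {z : ℂ} : ‖cay z‖ = ‖1 + z‖ / ‖1 - z‖ := by
  rw [cay, norm_div, norm_mul, Complex.norm_I, one_mul]

/-- Bound of the remainder in terms of the distances in the disc. -/
theorem norm_xi_cay {x η : ℝ} (hη : 0 < η) (hx : 1000 * η ≤ x) (hx1 : x ≤ 1 / 100) {z : ℂ}
    (hz : ‖z‖ = 1 - η) :
    ‖xi x η (cay z)‖ ≤ η ^ 2 / 4 * ‖1 - z‖ ^ 3 *
      (x / (‖z - bb x η‖ ^ 2 * ‖1 + z‖) + η / ‖z - bb x η‖ ^ 3) := by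
  have hz1 : ‖z‖ < 1 := by rw [hz]; linarith
  have e1 := one_sub_ne_zero' hz1
  have hs : 0 < ‖1 - z‖ := norm_pos_iff.2 e1
  have hη1 : η ≤ 1 / 100 := by linarith
  have ha := norm_aI_ge (x := x) hη1
  have hb := one_le_norm_bb (x := x) hη (by linarith)
  have hx0 : 0 < x := by linarith
  have hq : η ≤ ‖z - bb x η‖ := by
    have := norm_sub_norm_le (bb x η) z
    rw [norm_sub_rev] at this
    linarith
  have hp : η ≤ ‖1 + z‖ := by
    have := norm_sub_norm_le 1 (-z)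
    rw [norm_one, norm_neg, sub_neg_eq_add] at this
    linarith
  obtain ⟨A, hA⟩ : ∃ A, A = ‖(x : ℂ) - η * I + I‖ := ⟨_, rfl⟩
  obtain ⟨q, hq'⟩ : ∃ q, q = ‖z - bb x η‖ := ⟨_, rfl⟩
  obtain ⟨p, hp'⟩ : ∃ p, p = ‖1 + z‖ := ⟨_, rfl⟩
  obtain ⟨s, hs'⟩ : ∃ s, s = ‖1 - z‖ := ⟨_, rfl⟩
  refine (norm_xi_le hη hx (cay_im hz1)).trans ?_
  rw [vv_cay (by linarith) hz1, norm_div, norm_mul, norm_cay, ← hA, ← hq', ← hp', ← hs']
  rw [← hA] at ha
  rw [← hq'] at hq
  rw [← hp'] at hp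
  rw [← hs'] at hs
  have hq0 : 0 < q := by linarith
  have hp0 : 0 < p := by linarith
  have hA0 : 0 < A := by linarith
  have c2 : 1 / A ^ 2 ≤ 5 / 4 := by
    rw [div_le_iff₀ (by positivity)]
    nlinarith
  have c3 : 1 / A ^ 3 ≤ 5 / 4 := by
    rw [div_le_iff₀ (by positivity)]
    have h1 : (99 / 100 : ℝ) ^ 3 ≤ A ^ 3 := pow_le_pow_left₀ (by norm_num) ha 3
    nlinarith
  calc η ^ 2 / 10 * (2 * x / ((A * q / s) ^ 2 * (p / s)) + 2 * η / (A * q / s) ^ 3)
      = η ^ 2 / 5 * s ^ 3 * (1 / A ^ 2 * (x / (q ^ 2 * p)) + 1 / A ^ 3 * (η / q ^ 3)) := by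
        field_simp
        ring
    _ ≤ η ^ 2 / 5 * s ^ 3 * (5 / 4 * (x / (q ^ 2 * p)) + 5 / 4 * (η / q ^ 3)) := by
        gcongr
    _ = η ^ 2 / 4 * s ^ 3 * (x / (q ^ 2 * p) + η / q ^ 3) := by ring

/-- The key pointwise estimate. -/
theorem key_pointwise {x η : ℝ} (hη : 0 < η) (hx : 1000 * η ≤ x) (hx1 : x ≤ 1 / 100) {z : ℂ}
    (hz : ‖z‖ = 1 - η) :
    |‖(1 + z) / (1 - z) ^ 3‖ - k0 x| * |Real.log ‖AA x η (cay z)‖| ≤
      4 * η ^ 2 * (1 / ‖z - (-1)‖ + 1 / ‖z - bb x η‖ + η / ‖z - bb x η‖ ^ 2) := by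
  have hz1 : ‖z‖ < 1 := by rw [hz]; linarith
  have e1 := one_sub_ne_zero' hz1
  have hs : 0 < ‖1 - z‖ := norm_pos_iff.2 e1
  have hη1 : η ≤ 1 / 100 := by linarith
  have hb := one_le_norm_bb (x := x) hη (by linarith)
  have hx0 : 0 < x := by linarith
  have hq : η ≤ ‖z - bb x η‖ := by
    have := norm_sub_norm_le (bb x η) z
    rw [norm_sub_rev] at this
    linarith
  have hp : η ≤ ‖1 + z‖ := by
    have := norm_sub_norm_le 1 (-z)
    rw [norm_one, norm_neg, sub_neg_eq_add] at this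
    linarith
  have hw2 : η / 2 ≤ ‖cay z‖ := by
    rw [norm_cay, le_div_iff₀ hs]
    have := norm_one_sub_le hz1
    nlinarith
  have hhalf := norm_xi_le_half hη hx (cay_im hz1) hw2
  have hU : |Real.log ‖AA x η (cay z)‖| ≤ 2 * ‖xi x η (cay z)‖ := by
    have : AA x η (cay z) = 1 + xi x η (cay z) := by rw [xi]; ring
    rw [this]
    exact abs_log_norm_le hhalf
  have hlip := k_lipschitz hx0 hx1 hz1
  have hzb := zz_sub_bb (x := x) hη hη1
  have hxi := norm_xi_cay hη hx hx1 hz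
  have hpq : x ≤ ‖1 + z‖ + ‖z - bb x η‖ := by
    have h1 := one_add_bb hη (by linarith) hx0 hx1
    have h2 := norm_sub_le (1 + z) (z - bb x η)
    have h3 : 1 + z - (z - bb x η) = 1 + bb x η := by ring
    rw [h3] at h2
    linarith
  have hzz : ‖z - zz x‖ ≤ 4 * ‖z - bb x η‖ := by
    have h1 := norm_sub_le_norm_sub_add_norm_sub z (bb x η) (zz x)
    rw [norm_sub_rev (bb x η)] at h1
    linarith
  have hpm : ‖z - (-1)‖ = ‖1 + z‖ := by
    congr 1
    ring
  rw [hpm]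
  obtain ⟨q, hq'⟩ : ∃ q, q = ‖z - bb x η‖ := ⟨_, rfl⟩
  obtain ⟨p, hp'⟩ : ∃ p, p = ‖1 + z‖ := ⟨_, rfl⟩
  obtain ⟨s, hs'⟩ : ∃ s, s = ‖1 - z‖ := ⟨_, rfl⟩
  obtain ⟨Δ, hΔ⟩ : ∃ Δ, Δ = |‖(1 + z) / (1 - z) ^ 3‖ - k0 x| := ⟨_, rfl⟩
  rw [← hΔ, ← hs'] at hlip
  rw [← hq', ← hp', ← hs'] at hxi
  rw [← hq', ← hp'] at hpq
  rw [← hq'] at hq hzz
  rw [← hp'] at hp
  rw [← hs'] at hs
  rw [← hΔ, ← hp', ← hq']
  have hΔ0 : 0 ≤ Δ := by rw [hΔ]; exact abs_nonneg _
  have hq0 : 0 < q := by linarith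
  have hp0 : 0 < p := by linarith
  have hB : 0 ≤ x / (q ^ 2 * p) + η / q ^ 3 := by positivity
  calc Δ * |Real.log ‖AA x η (cay z)‖| ≤ Δ * (2 * (η ^ 2 / 4 * s ^ 3 *
        (x / (q ^ 2 * p) + η / q ^ 3))) := by
        gcongr
        linarith
    _ = η ^ 2 / 2 * (Δ * s ^ 3) * (x / (q ^ 2 * p) + η / q ^ 3) := by ring
    _ ≤ η ^ 2 / 2 * (2 * (4 * q)) * (x / (q ^ 2 * p) + η / q ^ 3) := by
        have hds : Δ * s ^ 3 ≤ 2 * (4 * q) := by linarith
        exact mul_le_mul_of_nonneg_right (mul_le_mul_of_nonneg_left hds (by positivity)) hB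
    _ = 4 * η ^ 2 * (x / (q * p) + η / q ^ 2) := by
        field_simp
    _ ≤ 4 * η ^ 2 * ((1 / p + 1 / q) + η / q ^ 2) := by
        gcongr
        have : 1 / p + 1 / q = (q + p) / (q * p) := by
          field_simp
        rw [this]
        gcongr
        linarith

/-! ### Kernel integrals -/

theorem circle_lower {η : ℝ} (hη : 0 < η) (hη1 : η ≤ 1 / 2) {b : ℂ} (hb : 1 ≤ ‖b‖) {s : ℝ}
    (hs : |s| ≤ π) : (η + |s|) / 5 ≤ ‖circleMap 0 (1 - η) (s + b.arg) - b‖ := by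
  have e1 : circleMap 0 (1 - η) (s + b.arg) - b =
      cexp (b.arg * I) * (((1 - η : ℝ) : ℂ) * cexp (s * I) - (‖b‖ : ℂ)) := by
    have e0 := Complex.norm_mul_exp_arg_mul_I b
    rw [circleMap_zero, mul_sub]
    push_cast
    rw [add_mul, Complex.exp_add]
    linear_combination e0
  have e2 : ‖cexp (b.arg * I)‖ = 1 := Complex.norm_exp_ofReal_mul_I _
  rw [e1, norm_mul, e2, one_mul]
  apply le_of_sq_le_sq _ (norm_nonneg _)
  have e3 : ‖((1 - η : ℝ) : ℂ) * cexp (s * I) - (‖b‖ : ℂ)‖ ^ 2 =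
      (‖b‖ - (1 - η)) ^ 2 + 2 * (1 - η) * ‖b‖ * (1 - Real.cos s) := by
    rw [← Complex.normSq_eq_norm_sq, Complex.normSq_apply, Complex.sub_re, Complex.sub_im,
      Complex.re_ofReal_mul, Complex.im_ofReal_mul, Complex.exp_ofReal_mul_I_re,
      Complex.exp_ofReal_mul_I_im, Complex.ofReal_re, Complex.ofReal_im]
    have := Real.sin_sq_add_cos_sq s
    linear_combination (1 - η) ^ 2 * this
  rw [e3]
  have hcos := Real.cos_le_one_sub_mul_cos_sq hs
  have hpi : π ≤ 4 := Real.pi_le_four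
  have hpi0 := Real.pi_pos
  have h1 : s ^ 2 / 8 ≤ 1 - Real.cos s := by
    have h2 : 1 / 8 ≤ 2 / π ^ 2 := by
      rw [div_le_div_iff₀ (by norm_num) (by positivity)]
      nlinarith
    have h3 := mul_le_mul_of_nonneg_right h2 (sq_nonneg s)
    linarith
  have h2 : 1 ≤ 2 * (1 - η) * ‖b‖ := by nlinarith
  have h3 : s ^ 2 / 8 ≤ 2 * (1 - η) * ‖b‖ * (1 - Real.cos s) := by
    have h4 : 0 ≤ s ^ 2 / 8 := by positivity
    nlinarith
  have h4 : η ^ 2 ≤ (‖b‖ - (1 - η)) ^ 2 := by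
    apply pow_le_pow_left₀ hη.le
    linarith
  have h5 : ((η + |s|) / 5) ^ 2 ≤ η ^ 2 + s ^ 2 / 8 := by
    rw [← sq_abs s]
    nlinarith [sq_nonneg (η - |s|), sq_nonneg η, sq_nonneg |s|]
  linarith

theorem integral_le_of_le_even {F G : ℝ → ℝ} (hF : Continuous F) (hper : Function.Periodic F (2 * π))
    (β : ℝ) (hG : Continuous G) (h : ∀ s, |s| ≤ π → F (s + β) ≤ G |s|) :
    ∫ θ in (0 : ℝ)..(2 * π), F θ ≤ 2 * ∫ s in (0 : ℝ)..π, G s := by
  have hpi0 := Real.pi_pos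
  have h1 : ∫ θ in (0 : ℝ)..(2 * π), F θ = ∫ s in (-π)..π, F (s + β) := by
    rw [intervalIntegral.integral_comp_add_right]
    have := hper.intervalIntegral_add_eq 0 (-π + β)
    rw [zero_add] at this
    rw [this]
    congr 1
    ring
  have h2 : ∫ s in (-π)..π, F (s + β) ≤ ∫ s in (-π)..π, G |s| := by
    apply intervalIntegral.integral_mono_on (by linarith)
    · exact (hF.comp (continuous_id.add continuous_const)).intervalIntegrable _ _
    · exact (hG.comp continuous_abs).intervalIntegrable _ _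
    · intro s hs
      exact h s (abs_le.2 hs)
  have h3 : ∫ s in (-π)..π, G |s| = 2 * ∫ s in (0 : ℝ)..π, G s := by
    have hGa : Continuous (fun s => G |s|) := hG.comp continuous_abs
    rw [← intervalIntegral.integral_add_adjacent_intervals (b := 0)
      (hGa.intervalIntegrable _ _) (hGa.intervalIntegrable _ _)]
    have h4 : ∫ s in (-π)..0, G |s| = ∫ s in (0 : ℝ)..π, G s := by
      have h5 : ∫ s in (-π)..0, G |s| = ∫ s in (-π)..0, G (-s) := by
        apply intervalIntegral.integral_congr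
        intro s hs
        rw [uIcc_of_le (by linarith)] at hs
        show G |s| = G (-s)
        rw [abs_of_nonpos hs.2]
      rw [h5, intervalIntegral.integral_comp_neg, neg_zero, neg_neg]
    have h6 : ∫ s in (0 : ℝ)..π, G |s| = ∫ s in (0 : ℝ)..π, G s := by
      apply intervalIntegral.integral_congr
      intro s hs
      rw [uIcc_of_le hpi0.le] at hs
      show G |s| = G s
      rw [abs_of_nonneg hs.1]
    rw [h4, h6]
    ring
  rw [h1, ← h3]
  exact h2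

theorem integral_inv_kernel {η : ℝ} (hη : 0 < η) (hη1 : η ≤ 1 / 2) {b : ℂ} (hb : 1 ≤ ‖b‖) :
    ∫ θ in (0 : ℝ)..(2 * π), 1 / ‖circleMap 0 (1 - η) θ - b‖ ≤ 10 * (2 + Real.log (1 / η)) := by
  have hpi0 := Real.pi_pos
  have hne : ∀ θ, circleMap 0 (1 - η) θ - b ≠ 0 := by
    intro θ h
    rw [sub_eq_zero] at h
    rw [← h, norm_circleMap_zero, abs_of_nonneg (by linarith)] at hb
    linarith
  have hF : Continuous (fun θ => 1 / ‖circleMap 0 (1 - η) θ - b‖) := by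
    apply continuous_const.div
    · exact ((continuous_circleMap 0 _).sub continuous_const).norm
    · intro θ
      exact norm_ne_zero_iff.2 (hne θ)
  have hper : Function.Periodic (fun θ => 1 / ‖circleMap 0 (1 - η) θ - b‖) (2 * π) := by
    intro θ
    show 1 / ‖circleMap 0 (1 - η) (θ + 2 * π) - b‖ = _
    rw [periodic_circleMap 0 (1 - η) θ]
  have hG : Continuous (fun s : ℝ => 5 / (η + |s|)) := by
    apply continuous_const.div
    · exact continuous_const.add continuous_abs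
    · intro s
      positivity
  have h := integral_le_of_le_even hF hper b.arg hG (fun s hs => by
    have h1 := circle_lower hη hη1 hb hs
    have h2 : 0 < (η + |s|) / 5 := by positivity
    rw [abs_abs]
    calc 1 / ‖circleMap 0 (1 - η) (s + b.arg) - b‖ ≤ 1 / ((η + |s|) / 5) :=
          one_div_le_one_div_of_le h2 h1
      _ = 5 / (η + |s|) := by rw [one_div_div])
  refine h.trans ?_
  have h3 : ∫ s in (0 : ℝ)..π, 5 / (η + |s|) = 5 * Real.log (η + π) - 5 * Real.log (η + 0) := by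
    apply intervalIntegral.integral_eq_sub_of_hasDerivAt (f := fun s => 5 * Real.log (η + s))
    · intro s hs
      rw [uIcc_of_le hpi0.le] at hs
      rw [abs_of_nonneg hs.1]
      have hs0 : η + s ≠ 0 := by linarith [hs.1]
      have := (((hasDerivAt_id' s).const_add η).log hs0).const_mul 5
      refine this.congr_deriv ?_
      ring
    · exact hG.intervalIntegrable _ _
  rw [h3, add_zero]
  have h4 : Real.log (η + π) ≤ 2 := by
    have h5 : η + π ≤ Real.exp 2 := by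
      have h6 : π ≤ 4 := Real.pi_le_four
      have h7 : (2.7 : ℝ) < Real.exp 1 := by
        have := Real.exp_one_gt_d9
        linarith
      have h8 : Real.exp 2 = Real.exp 1 * Real.exp 1 := by
        rw [← Real.exp_add]; norm_num
      nlinarith
    calc Real.log (η + π) ≤ Real.log (Real.exp 2) := Real.log_le_log (by positivity) h5
      _ = 2 := Real.log_exp 2
  rw [one_div, Real.log_inv]
  linarith

theorem integral_inv_sq_kernel {η : ℝ} (hη : 0 < η) (hη1 : η ≤ 1 / 2) {b : ℂ} (hb : 1 ≤ ‖b‖) :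
    ∫ θ in (0 : ℝ)..(2 * π), 1 / ‖circleMap 0 (1 - η) θ - b‖ ^ 2 ≤ 50 / η := by
  have hpi0 := Real.pi_pos
  have hne : ∀ θ, circleMap 0 (1 - η) θ - b ≠ 0 := by
    intro θ h
    rw [sub_eq_zero] at h
    rw [← h, norm_circleMap_zero, abs_of_nonneg (by linarith)] at hb
    linarith
  have hF : Continuous (fun θ => 1 / ‖circleMap 0 (1 - η) θ - b‖ ^ 2) := by
    apply continuous_const.div
    · exact (((continuous_circleMap 0 _).sub continuous_const).norm).pow 2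
    · intro θ
      exact pow_ne_zero 2 (norm_ne_zero_iff.2 (hne θ))
  have hper : Function.Periodic (fun θ => 1 / ‖circleMap 0 (1 - η) θ - b‖ ^ 2) (2 * π) := by
    intro θ
    show 1 / ‖circleMap 0 (1 - η) (θ + 2 * π) - b‖ ^ 2 = _
    rw [periodic_circleMap 0 (1 - η) θ]
  have hG : Continuous (fun s : ℝ => 25 / (η + |s|) ^ 2) := by
    apply continuous_const.div
    · exact (continuous_const.add continuous_abs).pow 2
    · intro s
      positivity
  have h := integral_le_of_le_even hF hper b.arg hG (fun s hs => by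
    have h1 := circle_lower hη hη1 hb hs
    have h2 : 0 < (η + |s|) / 5 := by positivity
    rw [abs_abs]
    calc 1 / ‖circleMap 0 (1 - η) (s + b.arg) - b‖ ^ 2 ≤ 1 / ((η + |s|) / 5) ^ 2 :=
          one_div_le_one_div_of_le (pow_pos h2 2) (pow_le_pow_left₀ h2.le h1 2)
      _ = 25 / (η + |s|) ^ 2 := by
        field_simp
        norm_num)
  refine h.trans ?_
  have h3 : ∫ s in (0 : ℝ)..π, 25 / (η + |s|) ^ 2 = (-25) / (η + π) - (-25) / (η + 0) := by
    apply intervalIntegral.integral_eq_sub_of_hasDerivAt (f := fun s => (-25) / (η + s))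
    · intro s hs
      rw [uIcc_of_le hpi0.le] at hs
      rw [abs_of_nonneg hs.1]
      have hs0 : η + s ≠ 0 := by linarith [hs.1]
      have := (hasDerivAt_const s (-25 : ℝ)).fun_div ((hasDerivAt_id' s).const_add η) hs0
      refine this.congr_deriv ?_
      ring
    · exact hG.intervalIntegrable _ _
  rw [h3, add_zero]
  have h4 : 0 < 25 / (η + π) := by positivity
  have h5 : 2 * ((-25) / (η + π) - (-25) / η) = 50 / η - 2 * (25 / (η + π)) := by ring
  rw [h5]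
  linarith

theorem abs_rpow_sub_le {α β lam : ℝ} (hα : 0 ≤ α) (hβ : 0 < β) (h0 : 0 < lam) (h1 : lam < 1) :
    |α ^ lam - β ^ lam| ≤ β ^ (lam - 1) * |α - β| := by
  obtain ⟨t, ht⟩ : ∃ t, t = α / β := ⟨_, rfl⟩
  have ht0 : 0 ≤ t := by rw [ht]; positivity
  have hαt : α = β * t := by rw [ht]; field_simp
  have key : |t ^ lam - 1| ≤ |t - 1| := by
    rcases le_total t 1 with h | h
    · have h2 : t ≤ t ^ lam := by
        rcases ht0.eq_or_lt with h3 | h3
        · rw [← h3, Real.zero_rpow h0.ne']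
        · calc t = t ^ (1 : ℝ) := (Real.rpow_one t).symm
            _ ≤ t ^ lam := Real.rpow_le_rpow_of_exponent_ge h3 h h1.le
      have h3 : t ^ lam ≤ 1 := Real.rpow_le_one ht0 h h0.le
      rw [abs_of_nonpos (by linarith), abs_of_nonpos (by linarith)]
      linarith
    · have h2 : t ^ lam ≤ t := by
        calc t ^ lam ≤ t ^ (1 : ℝ) := Real.rpow_le_rpow_of_exponent_le h h1.le
          _ = t := Real.rpow_one t
      have h3 : 1 ≤ t ^ lam := Real.one_le_rpow h h0.le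
      rw [abs_of_nonneg (by linarith), abs_of_nonneg (by linarith)]
      linarith
  have hb : 0 < β ^ lam := Real.rpow_pos_of_pos hβ _
  calc |α ^ lam - β ^ lam| = β ^ lam * |t ^ lam - 1| := by
        rw [hαt, Real.mul_rpow hβ.le ht0, ← abs_of_pos hb, ← abs_mul, abs_of_pos hb]
        congr 1
        ring
    _ ≤ β ^ lam * |t - 1| := by gcongr
    _ = β ^ (lam - 1) * |α - β| := by
        have h2 : α - β = β * (t - 1) := by rw [hαt]; ring
        rw [h2, abs_mul, abs_of_pos hβ, ← mul_assoc, Real.rpow_sub_one hβ.ne']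
        field_simp

/-! ### The gain near `zz x` -/

theorem cay_sub_x {x : ℝ} {z : ℂ} (hz : ‖z‖ < 1) (hx : 0 < x) (hx1 : x ≤ 1) :
    cay z - x = 2 * I * (z - zz x) / ((1 - z) * (1 - zz x)) := by
  have e1 := one_sub_ne_zero' hz
  have e2 := xI_ne_zero x
  have e3 : 1 - zz x ≠ 0 := by
    intro h
    have := norm_one_sub_zz_ge hx hx1
    rw [h, norm_zero] at this
    linarith
  have e4 : (x : ℂ) = I * (1 + zz x) / (1 - zz x) := by
    rw [zz_one_add, zz_one_sub]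
    have := Complex.I_ne_zero
    field_simp
  nth_rewrite 1 [e4]
  rw [cay, div_sub_div _ _ e1 e3]
  congr 1
  ring

theorem g_bounds {g : ℂ} (hg : ‖g - 3 / 2‖ ≤ 1 / 10) :
    1 / 4 ≤ (1 / g ^ 2 + 2 / g ^ 3).re ∧ ‖1 / g ^ 2 + 2 / g ^ 3‖ ≤ 5 / 4 := by
  have hre : |g.re - 3 / 2| ≤ 1 / 10 := by
    have := Complex.abs_re_le_norm (g - 3 / 2)
    have h2 : (g - 3 / 2).re = g.re - 3 / 2 := by
      rw [Complex.sub_re]
      norm_num
    rw [h2] at this
    exact this.trans hg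
  have him : |g.im| ≤ 1 / 10 := by
    have := Complex.abs_im_le_norm (g - 3 / 2)
    have h2 : (g - 3 / 2).im = g.im := by
      rw [Complex.sub_im]
      norm_num
    rw [h2] at this
    exact this.trans hg
  obtain ⟨h1, h2⟩ := abs_le.1 hre
  obtain ⟨h3, h4⟩ := abs_le.1 him
  have hng : 7 / 5 ≤ ‖g‖ := by
    have := norm_sub_norm_le (3 / 2 : ℂ) (3 / 2 - g)
    rw [sub_sub_cancel, norm_sub_rev, show ‖(3 / 2 : ℂ)‖ = 3 / 2 by norm_num] at this
    linarith
  have hg0 : g ≠ 0 := by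
    rintro rfl
    rw [norm_zero] at hng
    linarith
  constructor
  · have e1 : (1 / g ^ 2).re = (g.re ^ 2 - g.im ^ 2) / (g.re ^ 2 + g.im ^ 2) ^ 2 := by
      rw [one_div, Complex.inv_re]
      have : (g ^ 2).re = g.re ^ 2 - g.im ^ 2 := by rw [pow_two, Complex.mul_re]; ring
      rw [this, map_pow, Complex.normSq_apply]
      ring
    have e2 : (2 / g ^ 3).re = 2 * (g.re * (g.re ^ 2 - 3 * g.im ^ 2)) /
        (g.re ^ 2 + g.im ^ 2) ^ 3 := by
      rw [div_eq_mul_inv, show (2 : ℂ) = ((2 : ℝ) : ℂ) by norm_num, Complex.re_ofReal_mul,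
        Complex.inv_re]
      have : (g ^ 3).re = g.re * (g.re ^ 2 - 3 * g.im ^ 2) := by
        rw [pow_succ, pow_two, Complex.mul_re, Complex.mul_re, Complex.mul_im]; ring
      rw [this, map_pow, Complex.normSq_apply]
      ring
    rw [Complex.add_re, e1, e2]
    have hgr : 7 / 5 ≤ g.re := by linarith
    have hgr2 : g.re ≤ 8 / 5 := by linarith
    have hi2 : g.im ^ 2 ≤ 1 / 100 := by nlinarith
    have hr2 : 49 / 25 ≤ g.re ^ 2 := by nlinarith
    have hr3 : g.re ^ 2 ≤ 64 / 25 := by nlinarith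
    have hi0 := sq_nonneg g.im
    have f1 : 1 / 4 ≤ (g.re ^ 2 - g.im ^ 2) / (g.re ^ 2 + g.im ^ 2) ^ 2 := by
      rw [le_div_iff₀ (by positivity)]
      nlinarith
    have f2 : 0 ≤ 2 * (g.re * (g.re ^ 2 - 3 * g.im ^ 2)) / (g.re ^ 2 + g.im ^ 2) ^ 3 := by
      apply div_nonneg _ (by positivity)
      have : 0 ≤ g.re ^ 2 - 3 * g.im ^ 2 := by linarith
      have : 0 ≤ g.re := by linarith
      positivity
    linarith
  · refine (norm_add_le _ _).trans ?_
    rw [norm_div, norm_div, norm_pow, norm_pow, norm_one, show ‖(2 : ℂ)‖ = 2 by norm_num]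
    have f1 : 1 / ‖g‖ ^ 2 ≤ 1 / (7 / 5) ^ 2 := by gcongr
    have f2 : 2 / ‖g‖ ^ 3 ≤ 2 / (7 / 5) ^ 3 := by gcongr
    have f3 : (1 : ℝ) / (7 / 5) ^ 2 = 25 / 49 := by norm_num
    have f4 : (2 : ℝ) / (7 / 5) ^ 3 = 250 / 343 := by norm_num
    rw [f3] at f1
    rw [f4] at f2
    linarith

theorem norm_exp_sub_exp_le (a b : ℝ) : ‖cexp (a * I) - cexp (b * I)‖ ≤ |a - b| := by
  have e : cexp (a * I) - cexp (b * I) = cexp (b * I) * (cexp (I * ((a - b : ℝ) : ℂ)) - 1) := by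
    rw [mul_sub, ← Complex.exp_add, mul_one]
    congr 2
    push_cast
    ring
  rw [e, norm_mul, Complex.norm_exp_ofReal_mul_I, one_mul]
  exact Real.norm_exp_I_mul_ofReal_sub_one_le

theorem gain_pointwise {x η : ℝ} (hη : 0 < η) (hx : 1000 * η ≤ x) (hx1 : x ≤ 1 / 100) {θ : ℝ}
    (hθ : |θ - (zz x).arg| ≤ η / 20) :
    x / 8 ≤ ‖(1 + circleMap 0 (1 - η) θ) / (1 - circleMap 0 (1 - η) θ) ^ 3‖ ∧
      1 / 6000 ≤ Real.log ‖AA x η (cay (circleMap 0 (1 - η) θ))‖ ^ 2 := by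
  have hx0 : 0 < x := by linarith
  obtain ⟨z, hz⟩ : ∃ z, z = circleMap 0 (1 - η) θ := ⟨_, rfl⟩
  rw [← hz]
  have hzn : ‖z‖ = 1 - η := by
    rw [hz, norm_circleMap_zero, abs_of_nonneg (by linarith)]
  have hz1 : ‖z‖ < 1 := by linarith
  have e1 := one_sub_ne_zero' hz1
  have hη1 : η ≤ 1 / 100000 := by linarith
  -- distance between `z` and `zz x`
  have hzz : zz x = cexp ((zz x).arg * I) := by
    have := Complex.norm_mul_exp_arg_mul_I (zz x)
    rw [norm_zz] at this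
    rw [Complex.ofReal_one, one_mul] at this
    exact this.symm
  have hd : z - zz x = -η * cexp (θ * I) + (cexp (θ * I) - cexp ((zz x).arg * I)) := by
    rw [← hzz, hz, circleMap_zero]
    push_cast
    ring
  have hee := (norm_exp_sub_exp_le θ (zz x).arg).trans hθ
  have hne : ‖cexp (θ * I)‖ = 1 := Complex.norm_exp_ofReal_mul_I _
  have hd1 : ‖z - zz x‖ ≤ 21 / 20 * η := by
    rw [hd]
    refine (norm_add_le _ _).trans ?_
    rw [norm_mul, norm_neg, norm_ofReal_pos hη, hne]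
    linarith
  have h1z := norm_one_add_zz_le hx0
  have h1s := norm_one_sub_zz_ge hx0 (by linarith)
  have h1z' : ‖1 + z‖ ≤ 21 / 1000 := by
    have : 1 + z = (1 + zz x) + (z - zz x) := by ring
    rw [this]
    refine (norm_add_le _ _).trans ?_
    linarith
  have hsn : 1 ≤ ‖1 - z‖ := by
    have h2 := norm_sub_norm_le (2 : ℂ) (1 + z)
    rw [show ‖(2 : ℂ)‖ = 2 by norm_num, show (2 : ℂ) - (1 + z) = 1 - z by ring] at h2
    linarith
  constructor
  · have hlip := k_lipschitz hx0 hx1 hz1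
    have hk := k0_ge hx0
    have h3 : |‖(1 + z) / (1 - z) ^ 3‖ - k0 x| ≤ 21 / 10 * η := by
      have h4 : 1 ≤ ‖1 - z‖ ^ 3 := one_le_pow₀ hsn
      have h5 := abs_nonneg (‖(1 + z) / (1 - z) ^ 3‖ - k0 x)
      nlinarith
    have h4 := (abs_le.1 h3).1
    linarith
  · -- the local coordinate
    have hw := cay_im hz1
    obtain ⟨g, hg⟩ : ∃ g : ℂ, g = 1 + 2 * ((z - zz x) / η) / ((1 - z) * (1 - zz x)) := ⟨_, rfl⟩
    have hη0 : (η : ℂ) ≠ 0 := by exact_mod_cast hη.ne'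
    have e3 : 1 - zz x ≠ 0 := by
      intro h
      rw [h, norm_zero] at h1s
      linarith
    have hv : vv x η (cay z) = η * I * g := by
      rw [vv, cay_sub_x hz1 hx0 (by linarith), hg]
      field_simp
      ring
    have hgb : ‖g - 3 / 2‖ ≤ 1 / 10 := by
      obtain ⟨s, hs⟩ : ∃ s : ℂ, s = (z - zz x) / η := ⟨_, rfl⟩
      obtain ⟨P, hP⟩ : ∃ P : ℂ, P = (1 - z) * (1 - zz x) := ⟨_, rfl⟩
      have hs1 : ‖s - 1‖ ≤ 8 / 100 := by
        have e4 : s - 1 = -(cexp (θ * I) + 1) + (cexp (θ * I) - cexp ((zz x).arg * I)) / η := by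
          rw [hs, hd]
          field_simp
          ring
        rw [e4]
        refine (norm_add_le _ _).trans ?_
        rw [norm_neg, norm_div, norm_ofReal_pos hη]
        have h5 : ‖cexp (θ * I) - cexp ((zz x).arg * I)‖ / η ≤ 1 / 20 := by
          rw [div_le_iff₀ hη]
          linarith
        have h6 : ‖cexp (θ * I) + 1‖ ≤ 2 * x + η / 20 := by
          have e5 : cexp (θ * I) + 1 = (1 + zz x) + (cexp (θ * I) - cexp ((zz x).arg * I)) := by
            rw [← hzz]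
            ring
          rw [e5]
          refine (norm_add_le _ _).trans ?_
          linarith
        linarith
      have hP1 : ‖P - 4‖ ≤ 1 / 10 := by
        have e4 : P - 4 = -(2 * (1 + z)) - 2 * (1 + zz x) + (1 + z) * (1 + zz x) := by
          rw [hP]
          ring
        rw [e4]
        refine (norm_add_le _ _).trans ?_
        have h7 := norm_sub_le (-(2 * (1 + z))) (2 * (1 + zz x))
        rw [norm_neg, norm_mul, norm_mul, show ‖(2 : ℂ)‖ = 2 by norm_num] at h7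
        rw [norm_mul]
        have h8 : ‖1 + z‖ * ‖1 + zz x‖ ≤ 21 / 1000 * (2 * x) := by gcongr
        nlinarith
      have hPn : 39 / 10 ≤ ‖P‖ := by
        have h2 := norm_sub_norm_le (4 : ℂ) (4 - P)
        rw [show ‖(4 : ℂ)‖ = 4 by norm_num, sub_sub_cancel, norm_sub_rev] at h2
        linarith
      have hP0 : P ≠ 0 := by
        intro h
        rw [h, norm_zero] at hPn
        linarith
      have e5 : g - 3 / 2 = (4 * (s - 1) - (P - 4)) / (2 * P) := by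
        rw [hg, ← hs, ← hP]
        field_simp
        ring
      rw [e5, norm_div, norm_mul, show ‖(2 : ℂ)‖ = 2 by norm_num, div_le_iff₀ (by positivity)]
      refine (norm_sub_le _ _).trans ?_
      rw [norm_mul, show ‖(4 : ℂ)‖ = 4 by norm_num]
      linarith
    obtain ⟨hg1, hg2⟩ := g_bounds hgb
    have hg0 : g ≠ 0 := by
      rintro rfl
      rw [zero_sub, norm_neg, show ‖(3 / 2 : ℂ)‖ = 3 / 2 by norm_num] at hgb
      linarith
    have hQ : (η : ℂ) ^ 2 / 10 * (1 / vv x η (cay z) ^ 2 + 2 * η * I / vv x η (cay z) ^ 3) =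
        -((1 / 10 : ℝ) : ℂ) * (1 / g ^ 2 + 2 / g ^ 3) := by
      rw [hv]
      have hI2 := Complex.I_sq
      have e6 : ((η : ℂ) * I * g) ^ 2 = -((η : ℂ) ^ 2 * g ^ 2) := by
        linear_combination (η : ℂ) ^ 2 * g ^ 2 * hI2
      have e7 : ((η : ℂ) * I * g) ^ 3 = -((η : ℂ) ^ 3 * I * g ^ 3) := by
        linear_combination (η : ℂ) ^ 3 * g ^ 3 * I * hI2
      rw [e6, e7]
      have hI0 := Complex.I_ne_zero
      push_cast
      field_simp
      ring
    have hw2 : η / 2 ≤ ‖cay z‖ := by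
      rw [norm_cay, le_div_iff₀ (by linarith)]
      have := norm_one_sub_le hz1
      have hp : η ≤ ‖1 + z‖ := by
        have := norm_sub_norm_le 1 (-z)
        rw [norm_one, norm_neg, sub_neg_eq_add] at this
        linarith
      nlinarith
    have hPk := norm_kernel_div hη hx hw hw2
    have hAA : AA x η (cay z) = 1 + xi x η (cay z) := by rw [xi]; ring
    have hAne := AA_ne_zero (x := x) hη hw
    rw [hAA] at hAne ⊢
    have hxi := xi_eq (x := x) hη hw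
    rw [hQ] at hxi
    obtain ⟨P, hP⟩ : ∃ P, P = (η : ℂ) ^ 2 / 10 * (1 / vv x η (cay z) + η * I /
      vv x η (cay z) ^ 2) / cay z := ⟨_, rfl⟩
    obtain ⟨Q, hQ'⟩ : ∃ Q : ℂ, Q = -((1 / 10 : ℝ) : ℂ) * (1 / g ^ 2 + 2 / g ^ 3) := ⟨_, rfl⟩
    rw [← hP] at hxi hPk
    rw [← hQ'] at hxi
    have hQre : Q.re ≤ -(1 / 40) := by
      rw [hQ', neg_mul, Complex.neg_re, Complex.re_ofReal_mul]
      linarith
    have hQn : ‖Q‖ ≤ 1 / 8 := by
      rw [hQ', norm_mul, norm_neg, Complex.norm_real, Real.norm_eq_abs]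
      rw [abs_of_pos (by norm_num : (0 : ℝ) < 1 / 10)]
      linarith
    have hPQ : ‖P * Q‖ ≤ 1 / 1000 * (1 / 8) := by
      rw [norm_mul]
      gcongr
    have hxin : ‖xi x η (cay z)‖ ≤ 127 / 1000 := by
      rw [hxi]
      have b3 := norm_sub_le (Q - P) (P * Q)
      have b4 := norm_sub_le Q P
      linarith
    have hxire : (xi x η (cay z)).re ≤ -(23 / 1000) := by
      rw [hxi, Complex.sub_re, Complex.sub_re]
      have b1 := (abs_le.1 ((Complex.abs_re_le_norm P).trans hPk)).1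
      have b2 := (abs_le.1 ((Complex.abs_re_le_norm (P * Q)).trans hPQ)).1
      linarith
    have hlog := log_norm_le_neg (s := 7 / 500) hAne (by
      have := norm_nonneg (xi x η (cay z))
      nlinarith)
    nlinarith

/-! ### Assembly -/

theorem exp_ge_quadratic {y : ℝ} (hy : |y| ≤ 1) : 1 + y + y ^ 2 / 4 ≤ Real.exp y := by
  have h := Real.exp_bound hy (n := 3) (by norm_num)
  rw [Finset.sum_range_succ, Finset.sum_range_succ, Finset.sum_range_succ,
    Finset.sum_range_zero] at h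
  have h1 := (abs_le.1 h).1
  have h2 : |y| ^ 3 ≤ y ^ 2 := by
    have : |y| ^ 3 = |y| * y ^ 2 := by rw [← sq_abs y]; ring
    rw [this]
    nlinarith [sq_nonneg y]
  norm_num [Nat.factorial] at h1
  nlinarith [sq_nonneg y]

theorem exp_sub_one_le {y : ℝ} (hy : |y| ≤ 1) : Real.exp y - 1 ≤ 2 * |y| := by
  have h1 := Real.abs_exp_sub_one_le hy
  exact (le_abs_self _).trans h1

theorem continuous_K {r : ℝ} (h0 : 0 ≤ r) (h1 : r < 1) :
    Continuous (fun θ : ℝ => ‖(1 + circleMap 0 r θ) / (1 - circleMap 0 r θ) ^ 3‖) := by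
  have hc := continuous_circleMap 0 r
  refine Continuous.norm (Continuous.div (continuous_const.add hc)
    ((continuous_const.sub hc).pow 3) ?_)
  intro θ
  exact pow_ne_zero 3 (one_sub_ne_zero' (norm_circleMap_lt h0 h1 θ))

theorem continuous_U {x η r : ℝ} (hη : 0 < η) (h0 : 0 ≤ r) (h1 : r < 1) :
    Continuous (fun θ : ℝ => Real.log ‖AA x η (cay (circleMap 0 r θ))‖) := by
  rw [continuous_iff_continuousAt]
  intro θ
  have hz := norm_circleMap_lt h0 h1 θ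
  have hA : ContinuousAt (fun θ : ℝ => AA x η (cay (circleMap 0 r θ))) θ := by
    have h2 : ContinuousAt (fun z => AA x η (cay z)) (circleMap 0 r θ) :=
      ((differentiableAt_AA hη (cay_im hz)).comp _ (hasDerivAt_cay hz).differentiableAt).continuousAt
    exact ContinuousAt.comp (f := circleMap 0 r) (g := fun z => AA x η (cay z)) h2
      (continuous_circleMap 0 r).continuousAt
  exact hA.norm.log (norm_ne_zero_iff.2 (AA_ne_zero hη (cay_im hz)))

theorem norm_deriv_ff {x η lam : ℝ} (hη : 0 < η) {z : ℂ} (hz : ‖z‖ < 1) :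
    ‖deriv (ff x η) z‖ ^ lam = Real.exp (-(lam * Real.log ‖AA x η I‖)) *
      (‖(1 + z) / (1 - z) ^ 3‖ ^ lam * Real.exp (lam * Real.log ‖AA x η (cay z)‖)) := by
  have hI : 0 < I.im := by simp
  have hA := norm_pos_iff.2 (AA_ne_zero (x := x) hη (cay_im hz))
  have hA' := norm_pos_iff.2 (AA_ne_zero (x := x) hη hI)
  rw [deriv_ff_eq hη hz, (hasDerivAt_koebe hz).deriv, norm_div, norm_mul,
    Real.div_rpow (by positivity) hA'.le, Real.mul_rpow (norm_nonneg _) hA.le,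
    Real.rpow_def_of_pos hA, Real.rpow_def_of_pos hA', mul_comm (Real.log ‖AA x η (cay z)‖),
    mul_comm (Real.log ‖AA x η I‖), Real.exp_neg]
  ring

theorem abs_U_le {x η : ℝ} (hη : 0 < η) (hx : 1000 * η ≤ x) {z : ℂ}
    (hz : ‖z‖ = 1 - η) : |Real.log ‖AA x η (cay z)‖| ≤ 1 := by
  have hz1 : ‖z‖ < 1 := by rw [hz]; linarith
  have e1 := one_sub_ne_zero' hz1
  have hs : 0 < ‖1 - z‖ := norm_pos_iff.2 e1
  have hp : η ≤ ‖1 + z‖ := by
    have := norm_sub_norm_le 1 (-z)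
    rw [norm_one, norm_neg, sub_neg_eq_add] at this
    linarith
  have hw2 : η / 2 ≤ ‖cay z‖ := by
    rw [norm_cay, le_div_iff₀ hs]
    have := norm_one_sub_le hz1
    nlinarith
  have hhalf := norm_xi_le_half hη hx (cay_im hz1) hw2
  have : AA x η (cay z) = 1 + xi x η (cay z) := by rw [xi]; ring
  rw [this]
  have := abs_log_norm_le hhalf
  linarith

theorem integral_K_le {η lam : ℝ} (hη : 0 < η) (hη1 : η ≤ 1 / 2) (h0 : 0 < lam) (h1 : lam < 1) :
    ∫ θ in (0 : ℝ)..(2 * π), ‖(1 + circleMap 0 (1 - η) θ) / (1 - circleMap 0 (1 - η) θ) ^ 3‖ ^ lam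
      ≤ 400 * η ^ (-(max 1 (3 * lam - 1))) := by
  have hpi0 := Real.pi_pos
  obtain ⟨μ, hμ⟩ : ∃ μ, μ = max 1 (3 * lam - 1) := ⟨_, rfl⟩
  rw [← hμ]
  have hr0 : (0 : ℝ) ≤ 1 - η := by linarith
  have hr1 : 1 - η < 1 := by linarith
  have hpt : ∀ θ : ℝ, ‖(1 + circleMap 0 (1 - η) θ) / (1 - circleMap 0 (1 - η) θ) ^ 3‖ ^ lam ≤
      8 * η ^ (1 - μ) * (1 / ‖circleMap 0 (1 - η) θ - 1‖ ^ 2) := by
    intro θ
    have hzn : ‖circleMap 0 (1 - η) θ‖ = 1 - η := by
      rw [norm_circleMap_zero, abs_of_nonneg hr0]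
    obtain ⟨z, hz⟩ : ∃ z, z = circleMap 0 (1 - η) θ := ⟨_, rfl⟩
    rw [← hz] at hzn ⊢
    have hz1 : ‖z‖ < 1 := by linarith
    have hs0 := norm_pos_iff.2 (one_sub_ne_zero' hz1)
    have hs2 := norm_one_sub_le hz1
    have hsη : η ≤ ‖1 - z‖ := by
      have := norm_sub_norm_le 1 z
      rw [norm_one] at this
      linarith
    have hp2 : ‖1 + z‖ ≤ 2 := by
      refine (norm_add_le _ _).trans ?_
      rw [norm_one]
      linarith
    rw [norm_sub_rev z 1, norm_div, norm_pow]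
    obtain ⟨s, hs⟩ : ∃ s, s = ‖1 - z‖ := ⟨_, rfl⟩
    rw [← hs] at hs0 hs2 hsη ⊢
    have h2 : (‖1 + z‖ / s ^ 3) ^ lam ≤ 2 * s ^ (-(3 * lam)) := by
      rw [Real.div_rpow (norm_nonneg _) (by positivity), ← Real.rpow_natCast, ← Real.rpow_mul hs0.le,
        Real.rpow_neg hs0.le]
      have h3 : ‖1 + z‖ ^ lam ≤ 2 := by
        calc ‖1 + z‖ ^ lam ≤ 2 ^ lam := Real.rpow_le_rpow (norm_nonneg _) hp2 h0.le
          _ ≤ 2 ^ (1 : ℝ) := Real.rpow_le_rpow_of_exponent_le (by norm_num) h1.le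
          _ = 2 := Real.rpow_one 2
      rw [div_eq_mul_inv]
      push_cast
      gcongr
    have h4 : s ^ (-(3 * lam)) = s ^ (2 - 3 * lam) * (1 / s ^ 2) := by
      rw [one_div, ← Real.rpow_natCast s 2, ← Real.rpow_neg hs0.le, ← Real.rpow_add hs0]
      congr 1
      push_cast
      ring
    have h5 : s ^ (2 - 3 * lam) ≤ 4 * η ^ (1 - μ) := by
      rcases le_total (3 * lam) 2 with h | h
      · have hμ1 : μ = 1 := by rw [hμ]; exact max_eq_left (by linarith)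
        rw [hμ1, sub_self, Real.rpow_zero]
        calc s ^ (2 - 3 * lam) ≤ 2 ^ (2 - 3 * lam) :=
              Real.rpow_le_rpow hs0.le hs2 (by linarith)
          _ ≤ 2 ^ (2 : ℝ) := Real.rpow_le_rpow_of_exponent_le (by norm_num) (by linarith)
          _ = 4 * 1 := by
            rw [Real.rpow_two]
            norm_num
      · have hμ1 : μ = 3 * lam - 1 := by rw [hμ]; exact max_eq_right (by linarith)
        rw [hμ1]
        have e : 1 - (3 * lam - 1) = 2 - 3 * lam := by ring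
        rw [e]
        have h6 : s ^ (2 - 3 * lam) ≤ η ^ (2 - 3 * lam) :=
          Real.rpow_le_rpow_of_nonpos hη hsη (by linarith)
        have h7 : 0 < η ^ (2 - 3 * lam) := Real.rpow_pos_of_pos hη _
        linarith
    calc (‖1 + z‖ / s ^ 3) ^ lam ≤ 2 * s ^ (-(3 * lam)) := h2
      _ = 2 * s ^ (2 - 3 * lam) * (1 / s ^ 2) := by rw [h4]; ring
      _ ≤ 2 * (4 * η ^ (1 - μ)) * (1 / s ^ 2) := by gcongr
      _ = 8 * η ^ (1 - μ) * (1 / s ^ 2) := by ring
  have hF : Continuous (fun θ => 1 / ‖circleMap 0 (1 - η) θ - 1‖ ^ 2) := by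
    apply continuous_const.div
    · exact (((continuous_circleMap 0 _).sub continuous_const).norm).pow 2
    · intro θ
      apply pow_ne_zero 2
      rw [norm_sub_rev]
      exact norm_ne_zero_iff.2 (one_sub_ne_zero' (norm_circleMap_lt hr0 hr1 θ))
  have hmono : ∫ θ in (0 : ℝ)..(2 * π),
      ‖(1 + circleMap 0 (1 - η) θ) / (1 - circleMap 0 (1 - η) θ) ^ 3‖ ^ lam ≤
      ∫ θ in (0 : ℝ)..(2 * π), 8 * η ^ (1 - μ) * (1 / ‖circleMap 0 (1 - η) θ - 1‖ ^ 2) := by
    apply intervalIntegral.integral_mono_on (by positivity)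
    · exact ((continuous_K hr0 hr1).rpow_const (fun _ => Or.inr h0.le)).intervalIntegrable _ _
    · exact (continuous_const.mul hF).intervalIntegrable _ _
    · intro θ _
      exact hpt θ
  refine hmono.trans ?_
  rw [intervalIntegral.integral_const_mul]
  have h3 := integral_inv_sq_kernel hη hη1 (b := 1) (by simp)
  have h4 : 0 < η ^ (1 - μ) := Real.rpow_pos_of_pos hη _
  calc 8 * η ^ (1 - μ) * ∫ θ in (0 : ℝ)..(2 * π), 1 / ‖circleMap 0 (1 - η) θ - 1‖ ^ 2
      ≤ 8 * η ^ (1 - μ) * (50 / η) := by gcongr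
    _ = 400 * η ^ (-μ) := by
      have : η ^ (1 - μ) = η ^ (-μ) * η := by
        rw [← Real.rpow_add_one hη.ne']
        congr 1
        ring
      rw [this]
      field_simp
      ring

theorem first_order {x η lam : ℝ} (hη : 0 < η) (hx : 1000 * η ≤ x) (hx1 : x ≤ 1 / 100)
    (h0 : 0 < lam) (h1 : lam < 1) :
    |∫ θ in (0 : ℝ)..(2 * π), (‖(1 + circleMap 0 (1 - η) θ) /
      (1 - circleMap 0 (1 - η) θ) ^ 3‖ ^ lam - k0 x ^ lam) *
      Real.log ‖AA x η (cay (circleMap 0 (1 - η) θ))‖| ≤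
      k0 x ^ (lam - 1) * (4 * η ^ 2 * (90 + 20 * Real.log (1 / η))) := by
  have hpi0 := Real.pi_pos
  have hx0 : 0 < x := by linarith
  have hη1 : η ≤ 1 / 2 := by linarith
  have hr0 : (0 : ℝ) ≤ 1 - η := by linarith
  have hr1 : 1 - η < 1 := by linarith
  have hk0 : 0 < k0 x := lt_of_lt_of_le (by positivity) (k0_ge hx0)
  have hb := one_le_norm_bb (x := x) hη (by linarith)
  have hm1 : (1 : ℝ) ≤ ‖(-1 : ℂ)‖ := by simp
  have hne : ∀ b : ℂ, 1 ≤ ‖b‖ → ∀ θ, ‖circleMap 0 (1 - η) θ - b‖ ≠ 0 := by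
    intro b hb θ h
    rw [norm_eq_zero, sub_eq_zero] at h
    rw [← h, norm_circleMap_zero, abs_of_nonneg hr0] at hb
    linarith
  have c1 : ∀ b : ℂ, 1 ≤ ‖b‖ → Continuous (fun θ => 1 / ‖circleMap 0 (1 - η) θ - b‖) := by
    intro b hb
    exact continuous_const.div (((continuous_circleMap 0 _).sub continuous_const).norm) (hne b hb)
  have c2 : ∀ b : ℂ, 1 ≤ ‖b‖ → Continuous (fun θ => η / ‖circleMap 0 (1 - η) θ - b‖ ^ 2) := by
    intro b hb
    exact continuous_const.div ((((continuous_circleMap 0 _).sub continuous_const).norm).pow 2)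
      (fun θ => pow_ne_zero 2 (hne b hb θ))
  have hcK := continuous_K hr0 hr1
  have hcU := continuous_U (x := x) hη hr0 hr1
  calc |∫ θ in (0 : ℝ)..(2 * π), (‖(1 + circleMap 0 (1 - η) θ) /
      (1 - circleMap 0 (1 - η) θ) ^ 3‖ ^ lam - k0 x ^ lam) *
      Real.log ‖AA x η (cay (circleMap 0 (1 - η) θ))‖|
      ≤ ∫ θ in (0 : ℝ)..(2 * π), |(‖(1 + circleMap 0 (1 - η) θ) /
      (1 - circleMap 0 (1 - η) θ) ^ 3‖ ^ lam - k0 x ^ lam) *
      Real.log ‖AA x η (cay (circleMap 0 (1 - η) θ))‖| :=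
        intervalIntegral.abs_integral_le_integral_abs (by positivity)
    _ ≤ ∫ θ in (0 : ℝ)..(2 * π), k0 x ^ (lam - 1) * (4 * η ^ 2 *
        (1 / ‖circleMap 0 (1 - η) θ - (-1)‖ + 1 / ‖circleMap 0 (1 - η) θ - bb x η‖ +
          η / ‖circleMap 0 (1 - η) θ - bb x η‖ ^ 2)) := by
        apply intervalIntegral.integral_mono_on (by positivity)
        · apply Continuous.intervalIntegrable
          exact (((hcK.rpow_const (fun _ => Or.inr h0.le)).sub continuous_const).mul hcU).abs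
        · apply Continuous.intervalIntegrable
          exact continuous_const.mul (continuous_const.mul (((c1 _ hm1).add (c1 _ hb)).add
            (c2 _ hb)))
        · intro θ _
          rw [abs_mul]
          have hzn : ‖circleMap 0 (1 - η) θ‖ = 1 - η := by
            rw [norm_circleMap_zero, abs_of_nonneg hr0]
          have h2 := abs_rpow_sub_le (norm_nonneg ((1 + circleMap 0 (1 - η) θ) /
            (1 - circleMap 0 (1 - η) θ) ^ 3)) hk0 h0 h1
          have h3 := key_pointwise hη hx hx1 hzn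
          have h4 : 0 < k0 x ^ (lam - 1) := Real.rpow_pos_of_pos hk0 _
          refine (mul_le_mul_of_nonneg_right h2 (abs_nonneg _)).trans ?_
          rw [mul_assoc]
          exact mul_le_mul_of_nonneg_left h3 h4.le
    _ = k0 x ^ (lam - 1) * (4 * η ^ 2 *
        ((∫ θ in (0 : ℝ)..(2 * π), 1 / ‖circleMap 0 (1 - η) θ - (-1)‖) +
        (∫ θ in (0 : ℝ)..(2 * π), 1 / ‖circleMap 0 (1 - η) θ - bb x η‖) +
          η * ∫ θ in (0 : ℝ)..(2 * π), 1 / ‖circleMap 0 (1 - η) θ - bb x η‖ ^ 2)) := by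
        rw [intervalIntegral.integral_const_mul, intervalIntegral.integral_const_mul,
          intervalIntegral.integral_add, intervalIntegral.integral_add,
          ← intervalIntegral.integral_const_mul]
        · simp only [mul_one_div]
        · exact (c1 _ hm1).intervalIntegrable _ _
        · exact (c1 _ hb).intervalIntegrable _ _
        · exact ((c1 _ hm1).add (c1 _ hb)).intervalIntegrable _ _
        · exact (c2 _ hb).intervalIntegrable _ _
    _ ≤ k0 x ^ (lam - 1) * (4 * η ^ 2 * (90 + 20 * Real.log (1 / η))) := by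
        have i1 := integral_inv_kernel hη hη1 hm1
        have i2 := integral_inv_kernel hη hη1 hb
        have i3 := integral_inv_sq_kernel hη hη1 hb
        have i4 : η * ∫ θ in (0 : ℝ)..(2 * π), 1 / ‖circleMap 0 (1 - η) θ - bb x η‖ ^ 2 ≤ 50 := by
          calc η * ∫ θ in (0 : ℝ)..(2 * π), 1 / ‖circleMap 0 (1 - η) θ - bb x η‖ ^ 2
              ≤ η * (50 / η) := by gcongr
            _ = 50 := by field_simp
        have h4 : 0 < k0 x ^ (lam - 1) := Real.rpow_pos_of_pos hk0 _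
        refine mul_le_mul_of_nonneg_left (mul_le_mul_of_nonneg_left ?_ (by positivity)) h4.le
        linarith

theorem gain {x η lam : ℝ} (hη : 0 < η) (hx : 1000 * η ≤ x) (hx1 : x ≤ 1 / 100)
    (h0 : 0 < lam) :
    η / 10 * ((x / 8) ^ lam * (1 / 6000)) ≤ ∫ θ in (0 : ℝ)..(2 * π), ‖(1 + circleMap 0 (1 - η) θ) /
      (1 - circleMap 0 (1 - η) θ) ^ 3‖ ^ lam *
      Real.log ‖AA x η (cay (circleMap 0 (1 - η) θ))‖ ^ 2 := by
  have hpi0 := Real.pi_gt_three
  have hx0 : 0 < x := by linarith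
  have hr0 : (0 : ℝ) ≤ 1 - η := by linarith
  have hr1 : 1 - η < 1 := by linarith
  obtain ⟨F, hF⟩ : ∃ F : ℝ → ℝ, F = fun θ => ‖(1 + circleMap 0 (1 - η) θ) /
      (1 - circleMap 0 (1 - η) θ) ^ 3‖ ^ lam *
      Real.log ‖AA x η (cay (circleMap 0 (1 - η) θ))‖ ^ 2 := ⟨_, rfl⟩
  have hFc : Continuous F := by
    rw [hF]
    exact ((continuous_K hr0 hr1).rpow_const (fun _ => Or.inr h0.le)).mul
      ((continuous_U (x := x) hη hr0 hr1).pow 2)
  have hF0 : ∀ θ, 0 ≤ F θ := by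
    intro θ
    rw [hF]
    positivity
  have hper : Function.Periodic F (2 * π) := by
    intro θ
    rw [hF]
    show ‖(1 + circleMap 0 (1 - η) (θ + 2 * π)) / (1 - circleMap 0 (1 - η) (θ + 2 * π)) ^ 3‖ ^ lam *
      Real.log ‖AA x η (cay (circleMap 0 (1 - η) (θ + 2 * π)))‖ ^ 2 = _
    rw [periodic_circleMap 0 (1 - η) θ]
  have hgoal : ∫ θ in (0 : ℝ)..(2 * π), ‖(1 + circleMap 0 (1 - η) θ) /
      (1 - circleMap 0 (1 - η) θ) ^ 3‖ ^ lam *
      Real.log ‖AA x η (cay (circleMap 0 (1 - η) θ))‖ ^ 2 = ∫ θ in (0 : ℝ)..(2 * π), F θ := by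
    rw [hF]
  rw [hgoal]
  obtain ⟨β, hβ⟩ : ∃ β, β = (zz x).arg := ⟨_, rfl⟩
  have h2 : ∫ θ in (0 : ℝ)..(2 * π), F θ = ∫ θ in (β - η / 20)..(β - η / 20 + 2 * π), F θ := by
    have := hper.intervalIntegral_add_eq 0 (β - η / 20)
    rw [zero_add] at this
    exact this
  have h3 : ∫ θ in (β - η / 20)..(β + η / 20), F θ ≤
      ∫ θ in (β - η / 20)..(β - η / 20 + 2 * π), F θ := by
    have hadj := intervalIntegral.integral_add_adjacent_intervals
      (hFc.intervalIntegrable (μ := volume) (β - η / 20) (β + η / 20))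
      (hFc.intervalIntegrable (β + η / 20) (β - η / 20 + 2 * π))
    have : 0 ≤ ∫ θ in (β + η / 20)..(β - η / 20 + 2 * π), F θ := by
      apply intervalIntegral.integral_nonneg (by linarith)
      intro θ _
      exact hF0 θ
    linarith
  have h4 : ∫ _θ in (β - η / 20)..(β + η / 20), (x / 8) ^ lam * (1 / 6000) ≤
      ∫ θ in (β - η / 20)..(β + η / 20), F θ := by
    apply intervalIntegral.integral_mono_on (by linarith)
    · exact continuous_const.intervalIntegrable _ _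
    · exact hFc.intervalIntegrable _ _
    · intro θ hθ
      have hθ' : |θ - (zz x).arg| ≤ η / 20 := by
        rw [← hβ, abs_le]
        constructor <;> linarith [hθ.1, hθ.2]
      obtain ⟨g1, g2⟩ := gain_pointwise hη hx hx1 hθ'
      rw [hF]
      show (x / 8) ^ lam * (1 / 6000) ≤ ‖(1 + circleMap 0 (1 - η) θ) /
        (1 - circleMap 0 (1 - η) θ) ^ 3‖ ^ lam *
        Real.log ‖AA x η (cay (circleMap 0 (1 - η) θ))‖ ^ 2
      gcongr
  rw [intervalIntegral.integral_const, smul_eq_mul] at h4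
  have h5 : β + η / 20 - (β - η / 20) = η / 10 := by ring
  rw [h5] at h4
  rw [h2]
  linarith

theorem main_ineq {x η lam : ℝ} (hη : 0 < η) (hx : 1000 * η ≤ x) (hx1 : x ≤ 1 / 100)
    (h0 : 0 < lam) (h1 : lam < 1)
    (hfin : lam * (k0 x ^ (lam - 1) * (4 * η ^ 2 * (90 + 20 * Real.log (1 / η)))) +
      lam * (k0 x ^ lam * (2 * π * (2 * η ^ 2 * x ^ 2))) +
      4 * η ^ 2 * x ^ 2 * (400 * η ^ (-(max 1 (3 * lam - 1)))) <
      lam ^ 2 / 4 * (η / 10 * ((x / 8) ^ lam * (1 / 6000)))) :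
    ∫ θ in (0 : ℝ)..(2 * π), ‖deriv koebe (circleMap 0 (1 - η) θ)‖ ^ lam <
      ∫ θ in (0 : ℝ)..(2 * π), ‖deriv (ff x η) (circleMap 0 (1 - η) θ)‖ ^ lam := by
  have hpi0 := Real.pi_pos
  have hx0 : 0 < x := by linarith
  have hη1 : η ≤ 1 / 2 := by linarith
  have hr0 : (0 : ℝ) ≤ 1 - η := by linarith
  have hr1 : 1 - η < 1 := by linarith
  have hk0 : 0 < k0 x := lt_of_lt_of_le (by positivity) (k0_ge hx0)
  obtain ⟨m, hm⟩ : ∃ m, m = Real.log ‖AA x η I‖ := ⟨_, rfl⟩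
  obtain ⟨K, hK⟩ : ∃ K : ℝ → ℝ, K = fun θ => ‖(1 + circleMap 0 (1 - η) θ) /
      (1 - circleMap 0 (1 - η) θ) ^ 3‖ ^ lam := ⟨_, rfl⟩
  obtain ⟨U, hU⟩ : ∃ U : ℝ → ℝ, U = fun θ =>
      Real.log ‖AA x η (cay (circleMap 0 (1 - η) θ))‖ := ⟨_, rfl⟩
  have hKc : Continuous K := by
    rw [hK]
    exact (continuous_K hr0 hr1).rpow_const (fun _ => Or.inr h0.le)
  have hUc : Continuous U := by
    rw [hU]
    exact continuous_U (x := x) hη hr0 hr1
  have hK0 : ∀ θ, 0 ≤ K θ := by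
    intro θ
    rw [hK]
    positivity
  have hU1 : ∀ θ, |U θ| ≤ 1 := by
    intro θ
    rw [hU]
    exact abs_U_le hη hx (by rw [norm_circleMap_zero, abs_of_nonneg hr0])
  have hL : ∫ θ in (0 : ℝ)..(2 * π), ‖deriv koebe (circleMap 0 (1 - η) θ)‖ ^ lam =
      ∫ θ in (0 : ℝ)..(2 * π), K θ := by
    apply intervalIntegral.integral_congr
    intro θ _
    rw [hK]
    show ‖deriv koebe (circleMap 0 (1 - η) θ)‖ ^ lam = ‖_‖ ^ lam
    rw [(hasDerivAt_koebe (norm_circleMap_lt hr0 hr1 θ)).deriv]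
  have hR : ∫ θ in (0 : ℝ)..(2 * π), ‖deriv (ff x η) (circleMap 0 (1 - η) θ)‖ ^ lam =
      Real.exp (-(lam * m)) * ∫ θ in (0 : ℝ)..(2 * π), K θ * Real.exp (lam * U θ) := by
    rw [← intervalIntegral.integral_const_mul]
    apply intervalIntegral.integral_congr
    intro θ _
    rw [hK, hU, hm]
    exact norm_deriv_ff hη (norm_circleMap_lt hr0 hr1 θ)
  rw [hL, hR]
  -- lower bound of the integral
  have hlow : (∫ θ in (0 : ℝ)..(2 * π), K θ) + lam * (∫ θ in (0 : ℝ)..(2 * π), K θ * U θ) +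
      lam ^ 2 / 4 * (∫ θ in (0 : ℝ)..(2 * π), K θ * U θ ^ 2) ≤
      ∫ θ in (0 : ℝ)..(2 * π), K θ * Real.exp (lam * U θ) := by
    rw [← intervalIntegral.integral_const_mul, ← intervalIntegral.integral_const_mul,
      ← intervalIntegral.integral_add, ← intervalIntegral.integral_add]
    · apply intervalIntegral.integral_mono_on (by positivity)
      · apply Continuous.intervalIntegrable
        exact (hKc.add (continuous_const.mul (hKc.mul hUc))).add
          (continuous_const.mul (hKc.mul (hUc.pow 2)))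
      · apply Continuous.intervalIntegrable
        exact hKc.mul (Real.continuous_exp.comp (continuous_const.mul hUc))
      · intro θ _
        have h2 : |lam * U θ| ≤ 1 := by
          rw [abs_mul, abs_of_pos h0]
          have := hU1 θ
          have := abs_nonneg (U θ)
          nlinarith
        have h3 := mul_le_mul_of_nonneg_left (exp_ge_quadratic h2) (hK0 θ)
        refine le_trans (le_of_eq ?_) h3
        ring
    · exact (hKc.add (continuous_const.mul (hKc.mul hUc))).intervalIntegrable _ _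
    · exact (continuous_const.mul (hKc.mul (hUc.pow 2))).intervalIntegrable _ _
    · exact hKc.intervalIntegrable _ _
    · exact (continuous_const.mul (hKc.mul hUc)).intervalIntegrable _ _
  -- first order term
  have hfirst : |∫ θ in (0 : ℝ)..(2 * π), (K θ - k0 x ^ lam) * U θ| ≤
      k0 x ^ (lam - 1) * (4 * η ^ 2 * (90 + 20 * Real.log (1 / η))) := by
    rw [hK, hU]
    exact first_order hη hx hx1 h0 h1
  have hmean : ∫ θ in (0 : ℝ)..(2 * π), U θ = 2 * π * m := by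
    rw [hU, hm]
    exact mean_value hη hr0 hr1
  have hsplit : ∫ θ in (0 : ℝ)..(2 * π), K θ * U θ =
      (∫ θ in (0 : ℝ)..(2 * π), (K θ - k0 x ^ lam) * U θ) + k0 x ^ lam * (2 * π * m) := by
    rw [← hmean, ← intervalIntegral.integral_const_mul, ← intervalIntegral.integral_add]
    · congr 1
      ext θ
      ring
    · exact ((hKc.sub continuous_const).mul hUc).intervalIntegrable _ _
    · exact (continuous_const.mul hUc).intervalIntegrable _ _
  have hmabs : |m| ≤ 2 * η ^ 2 * x ^ 2 := by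
    rw [hm]
    exact abs_log_center hη hx hx1
  have hgain : η / 10 * ((x / 8) ^ lam * (1 / 6000)) ≤
      ∫ θ in (0 : ℝ)..(2 * π), K θ * U θ ^ 2 := by
    rw [hK, hU]
    exact gain hη hx hx1 h0
  have hKint : ∫ θ in (0 : ℝ)..(2 * π), K θ ≤ 400 * η ^ (-(max 1 (3 * lam - 1))) := by
    rw [hK]
    exact integral_K_le hη hη1 h0 h1
  have hKint0 : 0 ≤ ∫ θ in (0 : ℝ)..(2 * π), K θ := by
    apply intervalIntegral.integral_nonneg (by positivity)
    intro θ _
    exact hK0 θ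
  -- the factor
  have hm1 : |m| ≤ 1 := by
    refine hmabs.trans ?_
    have h2 : η ^ 2 ≤ 1 / 4 := by nlinarith
    have h3 : x ^ 2 ≤ 1 := by nlinarith
    nlinarith [sq_nonneg η, sq_nonneg x]
  have hlm : |lam * m| ≤ |m| := by
    rw [abs_mul, abs_of_pos h0]
    have := abs_nonneg m
    nlinarith
  have hexp := exp_sub_one_le (hlm.trans hm1)
  have hexp' : Real.exp (lam * m) - 1 ≤ 4 * η ^ 2 * x ^ 2 := by linarith
  have hkl : 0 < k0 x ^ lam := Real.rpow_pos_of_pos hk0 _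
  have f1 : -(k0 x ^ (lam - 1) * (4 * η ^ 2 * (90 + 20 * Real.log (1 / η)))) ≤
      ∫ θ in (0 : ℝ)..(2 * π), (K θ - k0 x ^ lam) * U θ := (abs_le.1 hfirst).1
  have f2 : -(k0 x ^ lam * (2 * π * (2 * η ^ 2 * x ^ 2))) ≤ k0 x ^ lam * (2 * π * m) := by
    rw [← mul_neg, ← mul_neg]
    have := (abs_le.1 hmabs).1
    gcongr
  have f3 : (Real.exp (lam * m) - 1) * (∫ θ in (0 : ℝ)..(2 * π), K θ) ≤
      4 * η ^ 2 * x ^ 2 * (400 * η ^ (-(max 1 (3 * lam - 1)))) := by
    have h4 : (0 : ℝ) ≤ 4 * η ^ 2 * x ^ 2 := by positivity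
    calc (Real.exp (lam * m) - 1) * (∫ θ in (0 : ℝ)..(2 * π), K θ)
        ≤ (4 * η ^ 2 * x ^ 2) * (∫ θ in (0 : ℝ)..(2 * π), K θ) :=
          mul_le_mul_of_nonneg_right hexp' hKint0
      _ ≤ _ := mul_le_mul_of_nonneg_left hKint h4
  have f4 : lam * (∫ θ in (0 : ℝ)..(2 * π), K θ * U θ) ≥
      -(lam * (k0 x ^ (lam - 1) * (4 * η ^ 2 * (90 + 20 * Real.log (1 / η))))) -
      lam * (k0 x ^ lam * (2 * π * (2 * η ^ 2 * x ^ 2))) := by
    rw [hsplit]
    nlinarith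
  have f5 : lam ^ 2 / 4 * (η / 10 * ((x / 8) ^ lam * (1 / 6000))) ≤
      lam ^ 2 / 4 * (∫ θ in (0 : ℝ)..(2 * π), K θ * U θ ^ 2) := by gcongr
  have f6 : Real.exp (lam * m) * (∫ θ in (0 : ℝ)..(2 * π), K θ) <
      ∫ θ in (0 : ℝ)..(2 * π), K θ * Real.exp (lam * U θ) := by
    have : Real.exp (lam * m) * (∫ θ in (0 : ℝ)..(2 * π), K θ) =
        (Real.exp (lam * m) - 1) * (∫ θ in (0 : ℝ)..(2 * π), K θ) +
          ∫ θ in (0 : ℝ)..(2 * π), K θ := by ring
    rw [this]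
    linarith
  rw [Real.exp_neg, ← div_eq_inv_mul, lt_div_iff₀ (Real.exp_pos _), mul_comm]
  exact f6

theorem exists_param {lam : ℝ} (h0 : 0 < lam) (h1 : lam < 1) : ∃ x η : ℝ, 0 < η ∧
    1000 * η ≤ x ∧ x ≤ 1 / 100 ∧
    lam * (k0 x ^ (lam - 1) * (4 * η ^ 2 * (90 + 20 * Real.log (1 / η)))) +
      lam * (k0 x ^ lam * (2 * π * (2 * η ^ 2 * x ^ 2))) +
      4 * η ^ 2 * x ^ 2 * (400 * η ^ (-(max 1 (3 * lam - 1)))) <
      lam ^ 2 / 4 * (η / 10 * ((x / 8) ^ lam * (1 / 6000))) := by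
  have hpi0 := Real.pi_pos
  obtain ⟨μ, hμ⟩ : ∃ μ, μ = max 1 (3 * lam - 1) := ⟨_, rfl⟩
  have hμ2 : μ < 2 := by rw [hμ]; exact max_lt (by norm_num) (by linarith)
  have hα : 0 < (2 - lam) * (2 - μ) := mul_pos (by linarith) (by linarith)
  have hpow : ∀ a : ℝ, 0 < a → Tendsto (fun x : ℝ => x ^ a) (𝓝[>] 0) (𝓝 0) := by
    intro a ha
    have h2 := (Real.continuousAt_rpow_const (0 : ℝ) a (Or.inr ha.le)).tendsto
    rw [Real.zero_rpow ha.ne'] at h2
    exact h2.mono_left nhdsWithin_le_nhds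
  have hlog := tendsto_log_mul_rpow_nhdsGT_zero (r := 1 - lam) (by linarith)
  have hT : Tendsto (fun x : ℝ => lam * 16 * (90 * x ^ (1 - lam) - 40 * (Real.log x * x ^ (1 - lam)))
      + lam * 4 * π * (x ^ (2 - lam) * x ^ (2 : ℝ)) + 1600 * x ^ ((2 - lam) * (2 - μ)))
      (𝓝[>] 0) (𝓝 (lam * 16 * (90 * 0 - 40 * 0) + lam * 4 * π * (0 * 0) + 1600 * 0)) := by
    exact (((((hpow _ (by linarith)).const_mul 90).sub (hlog.const_mul 40)).const_mul _).add
      (((hpow _ (by linarith)).mul (hpow 2 (by norm_num))).const_mul _)).add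
      ((hpow _ hα).const_mul _)
  have hzero : lam * 16 * (90 * 0 - 40 * 0) + lam * 4 * π * (0 * 0) + 1600 * 0 = (0 : ℝ) := by ring
  rw [hzero] at hT
  have hE1 := hT.eventually (gt_mem_nhds (by positivity : (0 : ℝ) < lam ^ 2 / 1920000))
  have hE2 := (hpow (1 - lam) (by linarith)).eventually
    (gt_mem_nhds (by norm_num : (0 : ℝ) < 1 / 1000))
  have hE3 : ∀ᶠ x : ℝ in 𝓝[>] 0, x < 1 / 100 :=
    nhdsWithin_le_nhds (gt_mem_nhds (by norm_num : (0 : ℝ) < 1 / 100))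
  have hE4 : ∀ᶠ x : ℝ in 𝓝[>] 0, 0 < x := self_mem_nhdsWithin
  obtain ⟨x, hx1, hx2, hx3, hx4⟩ := (hE1.and (hE2.and (hE3.and hE4))).exists
  obtain ⟨η, hη⟩ : ∃ η, η = x ^ (2 - lam) := ⟨_, rfl⟩
  have hη0 : 0 < η := by rw [hη]; exact Real.rpow_pos_of_pos hx4 _
  have hηx : η = x ^ (1 - lam) * x := by
    rw [hη, ← Real.rpow_add_one hx4.ne']
    congr 1
    ring
  refine ⟨x, η, hη0, ?_, hx3.le, ?_⟩
  · rw [hηx]
    nlinarith
  · rw [← hμ]
    have hk1 := k0_ge hx4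
    have hk2 := k0_le hx4 (by linarith)
    have hk0 : 0 < k0 x := lt_of_lt_of_le (by positivity) hk1
    have hxl : 0 < x ^ lam := Real.rpow_pos_of_pos hx4 _
    have hlogη : Real.log (1 / η) = -((2 - lam) * Real.log x) := by
      rw [one_div, Real.log_inv, hη, Real.log_rpow hx4]
    have hlogx : Real.log x ≤ 0 := Real.log_nonpos hx4.le (by linarith)
    have a1 : k0 x ^ (lam - 1) ≤ 4 * (x ^ lam / x) := by
      calc k0 x ^ (lam - 1) ≤ (x / 4) ^ (lam - 1) :=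
            Real.rpow_le_rpow_of_nonpos (by positivity) hk1 (by linarith)
        _ = 4 ^ (1 - lam) * (x ^ lam / x) := by
            rw [Real.div_rpow hx4.le (by norm_num), Real.rpow_sub_one hx4.ne',
              show (1 : ℝ) - lam = -(lam - 1) by ring, Real.rpow_neg (by norm_num)]
            field_simp
        _ ≤ 4 * (x ^ lam / x) := by
            gcongr
            calc (4 : ℝ) ^ (1 - lam) ≤ 4 ^ (1 : ℝ) :=
                  Real.rpow_le_rpow_of_exponent_le (by norm_num) (by linarith)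
              _ = 4 := Real.rpow_one 4
    have a2 : k0 x ^ lam ≤ x ^ lam := Real.rpow_le_rpow hk0.le hk2 h0.le
    have a3 : x ^ lam / 8 ≤ (x / 8) ^ lam := by
      rw [Real.div_rpow hx4.le (by norm_num)]
      gcongr
      calc (8 : ℝ) ^ lam ≤ 8 ^ (1 : ℝ) :=
            Real.rpow_le_rpow_of_exponent_le (by norm_num) h1.le
        _ = 8 := Real.rpow_one 8
    have hlog0 : 0 ≤ Real.log (1 / η) := by
      rw [hlogη]
      nlinarith
    have hlog2 : Real.log (1 / η) ≤ -(2 * Real.log x) := by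
      rw [hlogη]
      nlinarith
    have t1 : lam * (k0 x ^ (lam - 1) * (4 * η ^ 2 * (90 + 20 * Real.log (1 / η)))) ≤
        (η * x ^ lam) * (lam * 16 * (90 * x ^ (1 - lam) - 40 * (Real.log x * x ^ (1 - lam)))) := by
      calc lam * (k0 x ^ (lam - 1) * (4 * η ^ 2 * (90 + 20 * Real.log (1 / η))))
          ≤ lam * (4 * (x ^ lam / x) * (4 * η ^ 2 * (90 + 20 * -(2 * Real.log x)))) := by
            gcongr
        _ = (η * x ^ lam) * (lam * 16 * ((η / x) * (90 - 40 * Real.log x))) := by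
            field_simp
            ring
        _ = (η * x ^ lam) * (lam * 16 * (90 * x ^ (1 - lam) - 40 *
            (Real.log x * x ^ (1 - lam)))) := by
            have : η / x = x ^ (1 - lam) := by rw [hηx]; field_simp
            rw [this]
            ring
    have t2 : lam * (k0 x ^ lam * (2 * π * (2 * η ^ 2 * x ^ 2))) ≤
        (η * x ^ lam) * (lam * 4 * π * (x ^ (2 - lam) * x ^ (2 : ℝ))) := by
      calc lam * (k0 x ^ lam * (2 * π * (2 * η ^ 2 * x ^ 2)))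
          ≤ lam * (x ^ lam * (2 * π * (2 * η ^ 2 * x ^ 2))) := by gcongr
        _ = (η * x ^ lam) * (lam * 4 * π * (x ^ (2 - lam) * x ^ (2 : ℝ))) := by
            rw [← hη, Real.rpow_two]
            ring
    have t3 : 4 * η ^ 2 * x ^ 2 * (400 * η ^ (-μ)) =
        (η * x ^ lam) * (1600 * x ^ ((2 - lam) * (2 - μ))) := by
      have e1 : η ^ 2 = η * x ^ (2 - lam) := by rw [← hη]; ring
      have e2 : x ^ 2 = x ^ lam * x ^ (2 - lam) := by
        rw [← Real.rpow_add hx4, ← Real.rpow_two]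
        congr 1
        ring
      have e3 : x ^ ((2 - lam) * (2 - μ)) = x ^ (2 - lam) * x ^ (2 - lam) * η ^ (-μ) := by
        rw [hη, ← Real.rpow_mul hx4.le, ← Real.rpow_add hx4, ← Real.rpow_add hx4]
        congr 1
        ring
      rw [e3, e2, e1]
      ring
    have t4 : (η * x ^ lam) * (lam ^ 2 / 1920000) ≤
        lam ^ 2 / 4 * (η / 10 * ((x / 8) ^ lam * (1 / 6000))) := by
      calc (η * x ^ lam) * (lam ^ 2 / 1920000) =
            lam ^ 2 / 4 * (η / 10 * ((x ^ lam / 8) * (1 / 6000))) := by ring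
        _ ≤ _ := by gcongr
    have hηxl : 0 < η * x ^ lam := mul_pos hη0 hxl
    have t5 := mul_lt_mul_of_pos_left hx1 hηxl
    rw [mul_add, mul_add] at t5
    linarith

theorem integralMean_lt {x η lam : ℝ} (hη : 0 < η) (hη1 : η < 1) (h0 : 0 < lam)
    (h : ∫ θ in (0 : ℝ)..(2 * π), ‖deriv koebe (circleMap 0 (1 - η) θ)‖ ^ lam <
      ∫ θ in (0 : ℝ)..(2 * π), ‖deriv (ff x η) (circleMap 0 (1 - η) θ)‖ ^ lam) :
    0 < integralMean lam (1 - η) koebe ∧
      integralMean lam (1 - η) koebe < integralMean lam (1 - η) (ff x η) := by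
  have hpi0 := Real.pi_pos
  have hr0 : (0 : ℝ) ≤ 1 - η := by linarith
  have hr1 : 1 - η < 1 := by linarith
  have e : ∀ f : ℂ → ℂ, integralMean lam (1 - η) f = ((1 / (2 * π)) *
      ∫ θ in (0 : ℝ)..(2 * π), ‖deriv f (circleMap 0 (1 - η) θ)‖ ^ lam) ^ (1 / lam) := by
    intro f
    rw [integralMean]
    simp only [circleMap_zero]
  rw [e, e]
  have hL : ∫ θ in (0 : ℝ)..(2 * π), ‖deriv koebe (circleMap 0 (1 - η) θ)‖ ^ lam =
      ∫ θ in (0 : ℝ)..(2 * π), ‖(1 + circleMap 0 (1 - η) θ) /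
      (1 - circleMap 0 (1 - η) θ) ^ 3‖ ^ lam := by
    apply intervalIntegral.integral_congr
    intro θ _
    show ‖deriv koebe (circleMap 0 (1 - η) θ)‖ ^ lam = ‖_‖ ^ lam
    rw [(hasDerivAt_koebe (norm_circleMap_lt hr0 hr1 θ)).deriv]
  have hpos : 0 < ∫ θ in (0 : ℝ)..(2 * π), ‖deriv koebe (circleMap 0 (1 - η) θ)‖ ^ lam := by
    rw [hL]
    apply intervalIntegral.intervalIntegral_pos_of_pos_on
    · exact ((continuous_K hr0 hr1).rpow_const (fun _ => Or.inr h0.le)).intervalIntegrable _ _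
    · intro θ _
      have hz := norm_circleMap_lt hr0 hr1 θ
      apply Real.rpow_pos_of_pos
      rw [norm_pos_iff]
      apply div_ne_zero _ (pow_ne_zero 3 (one_sub_ne_zero' hz))
      intro h2
      have : circleMap 0 (1 - η) θ = -1 := by linear_combination h2
      rw [this, norm_neg, norm_one] at hz
      exact lt_irrefl _ hz
    · positivity
  constructor
  · positivity
  · apply Real.rpow_lt_rpow (by positivity) _ (by positivity)
    gcongr

/-- For every `0 < lam < 1` the best constant `C_lam` is larger than `1`. -/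
theorem one_lt_bestConstant (lam : ℝ) (h0 : 0 < lam) (h1 : lam < 1) : 1 < bestConstant lam := by
  obtain ⟨x, η, hη, hx, hx1, hfin⟩ := exists_param h0 h1
  have hη1 : η < 1 := by linarith
  have hmain := main_ineq hη hx hx1 h0 h1 hfin
  obtain ⟨hk, hlt⟩ := integralMean_lt (x := x) hη hη1 h0 hmain
  have h2 : 1 < ENNReal.ofReal (integralMean lam (1 - η) (ff x η)) /
      ENNReal.ofReal (integralMean lam (1 - η) koebe) := by
    rw [ENNReal.lt_div_iff_mul_lt (Or.inl (by simpa using hk)) (Or.inl ENNReal.ofReal_ne_top),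
      one_mul]
    exact (ENNReal.ofReal_lt_ofReal_iff (hk.trans hlt)).2 hlt
  refine h2.trans_le ?_
  refine le_iSup_of_le (ff x η) ?_
  refine le_iSup_of_le (classS_ff hη) ?_
  refine le_iSup_of_le (1 - η) ?_
  exact le_iSup_of_le ⟨by linarith, by linarith⟩ le_rfl

end Pool.Agent.Helper42.KoebeMeans
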