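import Mathlib

/-!
# Monochromatic sumsets in the reals from a total measure

Main result: if some total countably additive probability measure on a set `ι` vanishes on points,
then every finite colouring of the free commutative monoid on `ι` (hence of `ℝ`, when `ι = ℝ`)
is constant on `X + X` for some infinite `X`.

Outline.
* A cluster is a pair `(H, u)` of a countable set and a point outside it. With iterated
  almost-everywhere quantifiers and a greedy choice of typical points (`block`) we build `r`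
  clusters such that the colour type of each `u s` over all points of all other clusters, and over
  `H s`, is finitely satisfiable in `H s` (`system_fs`).
* This gives ultrafilters `W s` on `H s` converging to `u s` (`exists_ultra`).
* There are `r + 1` kinds of sums, `4 (u 0 + .. + u (m-1)) + 2 ((a m + u m) + ..)`, whose iterated
  limit colours are `r` in number, so two of them agree, and the replacement lemma builds an
  infinite monochromatic sumset (`mono_sumset`).
-/

set_option autoImplicit false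

open MeasureTheory Set Filter Topology
open scoped ENNReal Classical

namespace Pool.Agent.Helper42.Dcd

section Measure

variable {ι : Type*} [MeasurableSpace ι] [DiscreteMeasurableSpace ι] (μ : Measure ι)

/-- Iterated almost-everywhere quantifier, adding the sampled points to a finite set. -/
def AEI : ℕ → (Finset ι → Prop) → Finset ι → Prop
  | 0, p, P => p P
  | k + 1, p, P => ∀ᵐ z ∂μ, AEI k p (insert z P)

/-- Iterated integral, adding the sampled points to a finite set. -/
noncomputable def LI : ℕ → (Finset ι → ℝ≥0∞) → Finset ι → ℝ≥0∞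
  | 0, f, P => f P
  | k + 1, f, P => ∫⁻ z, LI k f (insert z P) ∂μ

omit [DiscreteMeasurableSpace ι] in
theorem LI_mono {f g : Finset ι → ℝ≥0∞} (h : ∀ F, f F ≤ g F) (k : ℕ) (P : Finset ι) :
    LI μ k f P ≤ LI μ k g P := by
  induction k generalizing P with
  | zero => exact h P
  | succ k ih => exact lintegral_mono (fun z => ih _)

omit [DiscreteMeasurableSpace ι] in
theorem LI_le_one [IsProbabilityMeasure μ] {f : Finset ι → ℝ≥0∞} (h : ∀ F, f F ≤ 1) (k : ℕ)
    (P : Finset ι) : LI μ k f P ≤ 1 := by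
  induction k generalizing P with
  | zero => exact h P
  | succ k ih =>
    calc LI μ (k + 1) f P = ∫⁻ z, LI μ k f (insert z P) ∂μ := rfl
      _ ≤ ∫⁻ _z, 1 ∂μ := lintegral_mono (fun z => ih _)
      _ = 1 := by simp

theorem LI_zero_iff (p : Finset ι → Prop) (k : ℕ) (P : Finset ι) :
    LI μ k (fun F => if p F then 0 else 1) P = 0 ↔ AEI μ k p P := by
  induction k generalizing P with
  | zero =>
    simp [LI, AEI]
  | succ k ih =>
    show ∫⁻ z, LI μ k (fun F => if p F then 0 else 1) (insert z P) ∂μ = 0 ↔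
      ∀ᵐ z ∂μ, AEI μ k p (insert z P)
    rw [lintegral_eq_zero_iff (Measurable.of_discrete)]
    constructor
    · intro h
      filter_upwards [h] with z hz
      exact (ih _).1 hz
    · intro h
      filter_upwards [h] with z hz
      exact (ih _).2 hz

theorem LI_tendsto [IsProbabilityMeasure μ] {f : ℕ → Finset ι → ℝ≥0∞} (h1 : ∀ j F, f j F ≤ 1)
    (h : ∀ F, Tendsto (fun j => f j F) atTop (𝓝 0)) (k : ℕ) (P : Finset ι) :
    Tendsto (fun j => LI μ k (f j) P) atTop (𝓝 0) := by
  induction k generalizing P with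
  | zero => exact h P
  | succ k ih =>
    have := tendsto_lintegral_of_dominated_convergence (μ := μ)
      (F := fun j z => LI μ k (f j) (insert z P)) (f := fun _ => 0) (fun _ => 1)
      (fun n => Measurable.of_discrete)
      (fun n => Filter.Eventually.of_forall (fun z => LI_le_one μ (h1 n) k _))
      (by simp) (Filter.Eventually.of_forall (fun z => ih _))
    simpa [LI] using this

/-- Robust truth of a predicate of finite sets. -/
def Rob (p : Finset ι → Prop) (P : Finset ι) : Prop := ∀ k, AEI μ k p P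

omit [DiscreteMeasurableSpace ι] in
theorem Rob.insert {p : Finset ι → Prop} {P : Finset ι} (h : Rob μ p P) :
    ∀ᵐ z ∂μ, Rob μ p (insert z P) := by
  unfold Rob
  rw [ae_all_iff]
  intro k
  exact h (k + 1)

omit [DiscreteMeasurableSpace ι] in
theorem Rob.base {p : Finset ι → Prop} {P : Finset ι} (h : Rob μ p P) : p P := h 0

omit [DiscreteMeasurableSpace ι] in
theorem Rob.of_forall {p : Finset ι → Prop} {P : Finset ι} (h : ∀ F, P ⊆ F → p F) :
    Rob μ p P := by
  intro k
  induction k generalizing P with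
  | zero => exact h P (Finset.Subset.refl P)
  | succ k ih =>
    refine Filter.Eventually.of_forall (fun z => ih ?_)
    intro F hF
    exact h F ((Finset.subset_insert z P).trans hF)

omit [MeasurableSpace ι] [DiscreteMeasurableSpace ι] in
theorem countable_finsets {Z : Set ι} (hZ : Z.Countable) :
    {P : Finset ι | (P : Set ι) ⊆ Z}.Countable := by
  have h0 := Set.countable_ofPred_finite_subset hZ
  have h1 := h0.preimage_of_injOn (f := fun P : Finset ι => (P : Set ι))
    Finset.coe_injective.injOn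
  refine h1.mono ?_
  intro P hP
  exact ⟨P.finite_toSet, hP⟩

/-- All predicates of a family are robustly true at all finite subsets of `Z`. -/
def Good (S : Set (Finset ι → Prop)) (Z : Set ι) : Prop :=
  ∀ p ∈ S, ∀ P : Finset ι, (P : Set ι) ⊆ Z → Rob μ p P

omit [DiscreteMeasurableSpace ι] in
theorem Good.mono {S : Set (Finset ι → Prop)} {Z Z' : Set ι} (h : Good μ S Z) (hZ : Z' ⊆ Z) :
    Good μ S Z' := fun p hp P hP => h p hp P (hP.trans hZ)

/-- Typical points over `Z`. -/
def Typ (S : Set (Finset ι → Prop)) (Z : Set ι) (z : ι) : Prop :=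
  z ∉ Z ∧ Good μ S (insert z Z)

omit [DiscreteMeasurableSpace ι] in
theorem typ_ae [NullSingletonClass μ] {S : Set (Finset ι → Prop)} (hS : S.Countable) {Z : Set ι}
    (hZ : Z.Countable) (h : Good μ S Z) : ∀ᵐ z ∂μ, Typ μ S Z z := by
  have h1 : ∀ᵐ z ∂μ, z ∉ Z := by
    have := hZ.measure_zero μ
    exact measure_eq_zero_iff_ae_notMem.1 this
  have h2 : ∀ᵐ z ∂μ, ∀ p ∈ S, ∀ P ∈ {P : Finset ι | (P : Set ι) ⊆ Z}, Rob μ p (insert z P) := by
    rw [ae_ball_iff hS]
    intro p hp
    have hc : {P : Finset ι | (P : Set ι) ⊆ Z}.Countable := countable_finsets hZ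
    rw [ae_ball_iff hc]
    intro P hP
    exact (h p hp P hP).insert
  filter_upwards [h1, h2] with z hz1 hz2
  refine ⟨hz1, ?_⟩
  intro p hp P hP
  by_cases hzP : z ∈ P
  · have : insert z (P.erase z) = P := Finset.insert_erase hzP
    rw [← this]
    apply hz2 p hp
    intro x hx
    have hx' : x ∈ P.erase z := by exact_mod_cast hx
    rw [Finset.mem_erase] at hx'
    have := hP (show x ∈ (P : Set ι) from by exact_mod_cast hx'.2)
    rcases this with h | h
    · exact absurd h hx'.1
    · exact h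
  · apply h p hp
    intro x hx
    rcases hP hx with h' | h'
    · subst h'
      exact absurd (by exact_mod_cast hx) hzP
    · exact h'

end Measure

section Block

variable {ι : Type*} [MeasurableSpace ι] [DiscreteMeasurableSpace ι] (μ : Measure ι)
  [IsProbabilityMeasure μ] [NullSingletonClass μ] {β : Type*} (τ : Finset ι → ι → β)

/-- The new predicate attached to a cluster. -/
def PNew (H : Set ι) (u : ι) (F : Finset ι) : Prop :=
  u ∉ F → ∃ b ∈ H, b ∉ F ∧ τ F b = τ F u

/-- The gain of a new point. -/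
noncomputable def gain (A : Set ι) (k : ℕ) (P : Finset ι) (a : ι) : ℝ≥0∞ :=
  LI μ k (fun F => if (∃ b ∈ A, b ∉ F ∧ τ F b = τ F a) then 0 else 1) P

omit [NullSingletonClass μ] [DiscreteMeasurableSpace ι] in
theorem gain_le_one (A : Set ι) (k : ℕ) (P : Finset ι) (a : ι) : gain μ τ A k P a ≤ 1 := by
  apply LI_le_one
  intro F
  split_ifs <;> simp

omit [NullSingletonClass μ] [DiscreteMeasurableSpace ι] [IsProbabilityMeasure μ] in
theorem gain_anti {A A' : Set ι} (h : A ⊆ A') (k : ℕ) (P : Finset ι) (a : ι) :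
    gain μ τ A' k P a ≤ gain μ τ A k P a := by
  apply LI_mono
  intro F
  by_cases h1 : ∃ b ∈ A, b ∉ F ∧ τ F b = τ F a
  · have h2 : ∃ b ∈ A', b ∉ F ∧ τ F b = τ F a := by
      obtain ⟨b, hb, hb'⟩ := h1
      exact ⟨b, h hb, hb'⟩
    rw [if_pos h1, if_pos h2]
  · rw [if_neg h1]
    split_ifs <;> simp

omit [DiscreteMeasurableSpace ι] in
theorem exists_choice {S : Set (Finset ι → Prop)} (hS : S.Countable) {Z : Set ι}
    (hZ : Z.Countable) (hG : Good μ S Z) (g : ι → ℝ≥0∞) (hg : ∀ a, g a ≤ 1) {ε : ℝ≥0∞}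
    (hε : ε ≠ 0) : ∃ a, Typ μ S Z a ∧ ∀ b, Typ μ S Z b → g b ≤ g a + ε := by
  obtain ⟨a0, ha0⟩ := (typ_ae μ hS hZ hG).exists
  set s : ℝ≥0∞ := ⨆ b ∈ {b | Typ μ S Z b}, g b with hs
  have hle : ∀ b, Typ μ S Z b → g b ≤ s := by
    intro b hb
    exact le_iSup₂ (f := fun b (_ : b ∈ {b | Typ μ S Z b}) => g b) b hb
  have hs1 : s ≤ 1 := iSup₂_le (fun b _ => hg b)
  by_cases hsε : s ≤ ε
  · refine ⟨a0, ha0, fun b hb => ?_⟩
    exact (hle b hb).trans (hsε.trans le_add_self)
  · push Not at hsε
    have hne : s ≠ ⊤ := (hs1.trans_lt ENNReal.one_lt_top).ne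
    have hs0 : s ≠ 0 := (bot_le.trans_lt hsε).ne'
    have hlt : s - ε < s := ENNReal.sub_lt_self hne hs0 hε
    obtain ⟨a, ha⟩ := lt_iSup_iff.1 hlt
    obtain ⟨ha1, ha2⟩ := lt_iSup_iff.1 ha
    refine ⟨a, ha1, fun b hb => ?_⟩
    refine (hle b hb).trans ?_
    exact tsub_le_iff_right.1 ha2.le

omit [DiscreteMeasurableSpace ι] in
theorem exists_run {S : Set (Finset ι → Prop)} (hS : S.Countable) {Y : Set ι}
    (hY : Y.Countable) (hG : Good μ S Y) (req : List ι → Finset ι × ℕ) :
    ∃ L : ℕ → List ι, ∃ a : ℕ → ι, L 0 = [] ∧ (∀ j, L (j + 1) = L j ++ [a j]) ∧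
      ∀ j, Typ μ S (Y ∪ {x | x ∈ L j}) (a j) ∧ ∀ b, Typ μ S (Y ∪ {x | x ∈ L j}) b →
        gain μ τ {x | x ∈ L j} (req (L j)).2 (req (L j)).1 b ≤
          gain μ τ {x | x ∈ L j} (req (L j)).2 (req (L j)).1 (a j) +
            ((L j).length + 1 : ℝ≥0∞)⁻¹ := by
  have key : ∀ L : {L : List ι // Good μ S (Y ∪ {x | x ∈ L})},
      ∃ a, Typ μ S (Y ∪ {x | x ∈ L.1}) a ∧ ∀ b, Typ μ S (Y ∪ {x | x ∈ L.1}) b →
        gain μ τ {x | x ∈ L.1} (req L.1).2 (req L.1).1 b ≤
          gain μ τ {x | x ∈ L.1} (req L.1).2 (req L.1).1 a + (L.1.length + 1 : ℝ≥0∞)⁻¹ := by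
    intro L
    apply exists_choice μ hS _ L.2 _ (fun a => gain_le_one μ τ _ _ _ a)
    · apply ENNReal.inv_ne_zero.2
      finiteness
    · exact hY.union (L.1.finite_toSet.countable)
  choose f hf using key
  have hstep : ∀ L : {L : List ι // Good μ S (Y ∪ {x | x ∈ L})},
      Good μ S (Y ∪ {x | x ∈ L.1 ++ [f L]}) := by
    intro L
    have h1 := (hf L).1.2
    refine h1.mono μ ?_
    intro x hx
    rcases hx with hx | hx
    · exact Or.inr (Or.inl hx)
    · have hx' : x ∈ L.1 ++ [f L] := hx
      rw [List.mem_append, List.mem_singleton] at hx'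
      rcases hx' with h | h
      · exact Or.inr (Or.inr h)
      · exact Or.inl h
  have h0 : Good μ S (Y ∪ {x | x ∈ ([] : List ι)}) := by
    refine hG.mono μ ?_
    intro x hx
    rcases hx with hx | hx
    · exact hx
    · simp at hx
  let st : ℕ → {L : List ι // Good μ S (Y ∪ {x | x ∈ L})} := fun n =>
    Nat.rec ⟨[], h0⟩ (fun _ L => ⟨L.1 ++ [f L], hstep L⟩) n
  refine ⟨fun n => (st n).1, fun n => f (st n), rfl, fun j => rfl, fun j => hf (st j)⟩

omit [DiscreteMeasurableSpace ι] [IsProbabilityMeasure μ] [NullSingletonClass μ] in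
theorem AEI_mono {p q : Finset ι → Prop} (h : ∀ F, p F → q F) (k : ℕ) (P : Finset ι)
    (hp : AEI μ k p P) : AEI μ k q P := by
  induction k generalizing P with
  | zero => exact h P hp
  | succ k ih =>
    have hp' : ∀ᵐ z ∂μ, AEI μ k p (insert z P) := hp
    show ∀ᵐ z ∂μ, AEI μ k q (insert z P)
    filter_upwards [hp'] with z hz
    exact ih _ hz

theorem block {S : Set (Finset ι → Prop)} (hS : S.Countable) {Y : Set ι} (hY : Y.Countable)
    (hG : Good μ S Y) (hτ : ∀ F, (Set.range (τ F)).Finite) :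
    ∃ (A : Set ι) (u : ι), A.Countable ∧ Disjoint A Y ∧ u ∉ Y ∧ u ∉ A ∧
      Good μ (insert (PNew τ A u) S) (insert u (Y ∪ A)) := by
  have hEn : ∀ L' : List ι, ∃ e : ℕ → Finset ι × ℕ,
      {q : Finset ι × ℕ | (q.1 : Set ι) ⊆ Y ∪ {x | x ∈ L'}} = Set.range e := by
    intro L'
    apply Set.Countable.exists_eq_range
    · have h1 := (countable_finsets (hY.union (L'.finite_toSet.countable))).prod
        (Set.countable_univ (α := ℕ))
      refine h1.mono ?_
      intro q hq
      exact ⟨hq, Set.mem_univ _⟩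
    · exact ⟨(∅, 0), by simp⟩
  choose En hEn' using hEn
  let req : List ι → Finset ι × ℕ := fun L =>
    En (L.take (Nat.unpair (Nat.unpair L.length).1).1) (Nat.unpair (Nat.unpair L.length).1).2
  obtain ⟨L, a, h0, hstep, hrun⟩ := exists_run μ τ hS hY hG req
  have hlen : ∀ j, (L j).length = j := by
    intro j
    induction j with
    | zero => rw [h0]; rfl
    | succ j ih => rw [hstep, List.length_append, ih]; rfl
  have htake : ∀ i j, i ≤ j → (L j).take i = L i := by
    intro i j hij
    induction j with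
    | zero =>
      obtain rfl : i = 0 := by omega
      rw [h0]; rfl
    | succ j ih =>
      rcases Nat.lt_or_ge j i with h | h
      · obtain rfl : i = j + 1 := by omega
        rw [List.take_of_length_le (by rw [hlen])]
      · rw [hstep, List.take_append_of_le_length (by rw [hlen]; exact h)]
        exact ih h
  have hmem : ∀ j x, x ∈ L j ↔ ∃ i < j, x = a i := by
    intro j x
    induction j with
    | zero => rw [h0]; simp
    | succ j ih =>
      rw [hstep, List.mem_append, ih, List.mem_singleton]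
      constructor
      · rintro (⟨i, hi, rfl⟩ | rfl)
        · exact ⟨i, by omega, rfl⟩
        · exact ⟨j, by omega, rfl⟩
      · rintro ⟨i, hi, rfl⟩
        rcases Nat.lt_or_ge i j with h | h
        · exact Or.inl ⟨i, h, rfl⟩
        · obtain rfl : i = j := by omega
          exact Or.inr rfl
  have hsub : ∀ P : Finset ι, (P : Set ι) ⊆ Y ∪ Set.range a →
      ∃ i, (P : Set ι) ⊆ Y ∪ {x | x ∈ L i} := by
    intro P
    induction P using Finset.induction_on with
    | empty => intro _; exact ⟨0, by simp⟩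
    | insert x P hx ih =>
      intro hP
      rw [Finset.coe_insert, Set.insert_subset_iff] at hP
      obtain ⟨i, hi⟩ := ih hP.2
      rcases hP.1 with h | ⟨j, rfl⟩
      · refine ⟨i, ?_⟩
        rw [Finset.coe_insert, Set.insert_subset_iff]
        exact ⟨Or.inl h, hi⟩
      · refine ⟨max i (j + 1), ?_⟩
        rw [Finset.coe_insert, Set.insert_subset_iff]
        refine ⟨Or.inr ((hmem _ _).2 ⟨j, by omega, rfl⟩), ?_⟩
        intro y hy
        rcases hi hy with h | h
        · exact Or.inl h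
        · obtain ⟨i', hi', rfl⟩ := (hmem _ _).1 h
          exact Or.inr ((hmem _ _).2 ⟨i', by omega, rfl⟩)
  have hnotin : ∀ j, a j ∉ Y ∪ {x | x ∈ L j} := fun j => (hrun j).1.1
  have hinj : Function.Injective a := by
    intro i j hij
    by_contra hne
    rcases Nat.lt_or_gt_of_ne hne with h | h
    · exact hnotin j (Or.inr ((hmem _ _).2 ⟨i, h, hij.symm⟩))
    · exact hnotin i (Or.inr ((hmem _ _).2 ⟨j, h, hij⟩))
  have hLsub : ∀ j, {x | x ∈ L j} ⊆ Set.range a := by
    intro j x hx
    obtain ⟨i, _, rfl⟩ := (hmem _ _).1 hx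
    exact ⟨i, rfl⟩
  have hGL : ∀ i, Good μ S (Y ∪ {x | x ∈ L i}) := fun i =>
    (hrun i).1.2.mono μ (Set.subset_insert _ _)
  have hGA : Good μ S (Y ∪ Set.range a) := by
    intro p hp P hP
    obtain ⟨i, hi⟩ := hsub P hP
    exact hGL i p hp P hi
  have hAc : (Y ∪ Set.range a).Countable := hY.union (Set.countable_range a)
  obtain ⟨u, hu⟩ := (typ_ae μ hS hAc hGA).exists
  have huT : ∀ j, Typ μ S (Y ∪ {x | x ∈ L j}) u := by
    intro j
    refine ⟨fun h => hu.1 ?_, hu.2.mono μ ?_⟩
    · exact Set.union_subset_union_right Y (hLsub j) h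
    · exact Set.insert_subset_insert (Set.union_subset_union_right Y (hLsub j))
  have hlim : ∀ k (P : Finset ι),
      Tendsto (fun j => gain μ τ {x | x ∈ L j} k P (a j)) atTop (𝓝 0) := by
    intro k P
    apply LI_tendsto
    · intro j F
      split_ifs <;> simp
    · intro F
      have hJ : {j | ¬ ∃ b ∈ {x | x ∈ L j}, b ∉ F ∧ τ F b = τ F (a j)}.Finite := by
        have hJ1 : {j | a j ∈ F}.Finite :=
          (F.finite_toSet).preimage (hinj.injOn)
        have hJ2 : {j | a j ∉ F ∧ ¬ ∃ b ∈ {x | x ∈ L j}, b ∉ F ∧ τ F b = τ F (a j)}.Finite := by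
          apply Set.Finite.of_finite_image (f := fun j => τ F (a j))
          · apply (hτ F).subset
            rintro _ ⟨j, _, rfl⟩
            exact ⟨a j, rfl⟩
          · intro i hi j hj hij
            by_contra hne
            rcases Nat.lt_or_gt_of_ne hne with h | h
            · exact hj.2 ⟨a i, (hmem _ _).2 ⟨i, h, rfl⟩, hi.1, hij⟩
            · exact hi.2 ⟨a j, (hmem _ _).2 ⟨j, h, rfl⟩, hj.1, hij.symm⟩
        refine (hJ1.union hJ2).subset ?_
        intro j hj
        by_cases h : a j ∈ F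
        · exact Or.inl h
        · exact Or.inr ⟨h, hj⟩
      have hev : ∀ᶠ j in atTop, ∃ b ∈ {x | x ∈ L j}, b ∉ F ∧ τ F b = τ F (a j) := by
        rw [← Nat.cofinite_eq_atTop]
        have := hJ.eventually_cofinite_notMem
        filter_upwards [this] with j hj
        by_contra hcon
        exact hj hcon
      apply tendsto_const_nhds.congr'
      filter_upwards [hev] with j hj
      rw [if_pos hj]
  have hgain0 : ∀ k (P : Finset ι), (P : Set ι) ⊆ Y ∪ Set.range a →
      gain μ τ (Set.range a) k P u = 0 := by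
    intro k P hP
    obtain ⟨i, hi⟩ := hsub P hP
    have hmemEn : (P, k) ∈ Set.range (En (L i)) := by
      rw [← hEn']
      exact hi
    obtain ⟨n, hn⟩ := hmemEn
    let js : ℕ → ℕ := fun m => Nat.pair (Nat.pair i n) m
    have hjs : Tendsto js atTop atTop :=
      tendsto_atTop_mono (fun m => Nat.right_le_pair (Nat.pair i n) m) tendsto_id
    have hreq : ∀ m, req (L (js m)) = (P, k) := by
      intro m
      have hi' : i ≤ js m := (Nat.left_le_pair i n).trans (Nat.left_le_pair _ m)
      simp only [req, hlen, js, Nat.unpair_pair]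
      rw [htake i _ hi', hn]
    have hb : ∀ m, gain μ τ (Set.range a) k P u ≤
        gain μ τ {x | x ∈ L (js m)} k P (a (js m)) + ((js m : ℝ≥0∞) + 1)⁻¹ := by
      intro m
      have h1 := (hrun (js m)).2 u (huT _)
      rw [hreq, hlen] at h1
      exact (gain_anti μ τ (hLsub _) k P u).trans h1
    have ht : Tendsto (fun m => gain μ τ {x | x ∈ L (js m)} k P (a (js m)) +
        ((js m : ℝ≥0∞) + 1)⁻¹) atTop (𝓝 0) := by
      have h1 := (hlim k P).comp hjs
      have h2 : Tendsto (fun j : ℕ => ((j : ℝ≥0∞) + 1)⁻¹) atTop (𝓝 0) := by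
        have h3 := (ENNReal.tendsto_inv_nat_nhds_zero).comp (tendsto_add_atTop_nat 1)
        refine h3.congr ?_
        intro j
        simp
      have h4 := h1.add (h2.comp hjs)
      simpa using h4
    exact le_antisymm (ge_of_tendsto' ht hb) bot_le
  refine ⟨Set.range a, u, Set.countable_range a, ?_, fun h => hu.1 (Or.inl h),
    fun h => hu.1 (Or.inr h), ?_⟩
  · rw [Set.disjoint_left]
    rintro _ ⟨j, rfl⟩ hj
    exact hnotin j (Or.inl hj)
  · intro p hp P hP
    rcases hp with rfl | hp
    · by_cases huP : u ∈ P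
      · apply Rob.of_forall
        intro F hF huF
        exact absurd (hF huP) huF
      · have hP' : (P : Set ι) ⊆ Y ∪ Set.range a := by
          intro x hx
          rcases hP hx with h | h
          · subst h
            exact absurd (by exact_mod_cast hx) huP
          · exact h
        intro k
        have h1 := (LI_zero_iff μ _ k P).1 (hgain0 k P hP')
        refine AEI_mono μ ?_ k P h1
        intro F hF _
        exact hF
    · exact hu.2 p hp P hP

theorem system (hτ : ∀ F, (Set.range (τ F)).Finite) (r : ℕ) :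
    ∃ (H : ℕ → Set ι) (u : ℕ → ι) (Y : Set ι), Y.Countable ∧ (∀ s < r, H s ⊆ Y) ∧
      (∀ s < r, u s ∈ Y) ∧ (∀ s < r, ∀ t < r, s ≠ t → u s ≠ u t) ∧
      (∀ s < r, ∀ t < r, u s ∉ H t) ∧
      Good μ {p | ∃ s < r, p = PNew τ (H s) (u s)} Y := by
  induction r with
  | zero =>
    have hne : Nonempty ι := (inferInstance : (ae μ).NeBot).nonempty
    refine ⟨fun _ => ∅, fun _ => Classical.arbitrary ι, ∅, Set.countable_empty, ?_, ?_, ?_, ?_, ?_⟩
    · intro s hs; omega
    · intro s hs; omega
    · intro s hs; omega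
    · intro s hs; omega
    · rintro p ⟨s, hs, _⟩; omega
  | succ r ih =>
    obtain ⟨H, u, Y, hY, hHY, huY, huu, huH, hG⟩ := ih
    have hS : {p | ∃ s < r, p = PNew τ (H s) (u s)}.Countable := by
      have : {p | ∃ s < r, p = PNew τ (H s) (u s)} ⊆
          Set.range (fun s : ℕ => PNew τ (H s) (u s)) := by
        rintro p ⟨s, _, rfl⟩
        exact ⟨s, rfl⟩
      exact (Set.countable_range _).mono this
    obtain ⟨A, v, hA, hAY, hvY, hvA, hG'⟩ := block μ τ hS hY hG hτ
    refine ⟨fun s => if s = r then A else H s, fun s => if s = r then v else u s,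
      insert v (Y ∪ A), (hY.union hA).insert v, ?_, ?_, ?_, ?_, ?_⟩
    · intro s hs
      by_cases h : s = r
      · simp only [h, if_true]
        exact (Set.subset_union_right).trans (Set.subset_insert _ _)
      · simp only [h, if_false]
        exact ((hHY s (by omega)).trans Set.subset_union_left).trans (Set.subset_insert _ _)
    · intro s hs
      by_cases h : s = r
      · simp only [h, if_true]
        exact Set.mem_insert _ _
      · simp only [h, if_false]
        exact Set.mem_insert_of_mem _ (Or.inl (huY s (by omega)))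
    · intro s hs t ht hst
      by_cases h : s = r <;> by_cases h' : t = r
      · exact absurd (h.trans h'.symm) hst
      · simp only [h, h', if_true, if_false]
        intro hvt
        exact hvY (hvt ▸ huY t (by omega))
      · simp only [h, h', if_true, if_false]
        intro hvt
        exact hvY (hvt ▸ huY s (by omega))
      · simp only [h, h', if_false]
        exact huu s (by omega) t (by omega) hst
    · intro s hs t ht
      by_cases h : s = r <;> by_cases h' : t = r
      · simp only [h, h', if_true]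
        exact hvA
      · simp only [h, h', if_true, if_false]
        intro hvt
        exact hvY (hHY t (by omega) hvt)
      · simp only [h, h', if_true, if_false]
        intro hvt
        exact Set.disjoint_left.1 hAY hvt (huY s (by omega))
      · simp only [h, h', if_false]
        exact huH s (by omega) t (by omega)
    · rintro p ⟨s, hs, rfl⟩
      apply hG'
      by_cases h : s = r
      · left
        simp only [h, if_true]
      · right
        refine ⟨s, by omega, ?_⟩
        simp only [h, if_false]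

include μ in
theorem system_fs (hτ : ∀ F, (Set.range (τ F)).Finite) (r : ℕ) :
    ∃ (H : ℕ → Set ι) (u : ℕ → ι) (Y : Set ι), (∀ s < r, H s ⊆ Y) ∧
      (∀ s < r, u s ∈ Y) ∧ (∀ s < r, ∀ t < r, s ≠ t → u s ≠ u t) ∧
      (∀ s < r, ∀ t < r, u s ∉ H t) ∧
      ∀ s < r, ∀ P : Finset ι, (P : Set ι) ⊆ Y → u s ∉ P →
        ∃ b ∈ H s, b ∉ P ∧ τ P b = τ P (u s) := by
  obtain ⟨H, u, Y, _, hHY, huY, huu, huH, hG⟩ := system μ τ hτ r
  refine ⟨H, u, Y, hHY, huY, huu, huH, ?_⟩
  intro s hs P hP hu
  exact (hG _ ⟨s, hs, rfl⟩ P hP).base μ hu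

end Block

section Comb

variable {ι : Type*} {r : ℕ} (c : (ι →₀ ℕ) → Fin r)

/-- Basis vector. -/
noncomputable def e (x : ι) : ι →₀ ℕ := Finsupp.single x 1

/-- Colour data of a point over a finite set. -/
def tau (P : Finset ι) (a : ι) : Set ((ι →₀ ℕ) × ℕ × Fin r) :=
  {t | (t.1.support ⊆ P ∧ ∀ x, t.1 x ≤ P.card) ∧ t.2.1 ≤ P.card ∧ c (t.1 + t.2.1 • e a) = t.2.2}

theorem tau_finite (P : Finset ι) : (Set.range (tau c P)).Finite := by
  have h1 : {n : ι →₀ ℕ | n.support ⊆ P ∧ ∀ x, n x ≤ P.card}.Finite := by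
    apply (Set.finite_Iic (Finsupp.indicator P (fun _ _ => P.card) : ι →₀ ℕ)).subset
    intro n hn x
    rw [Finsupp.indicator_apply]
    split_ifs with hx
    · exact hn.2 x
    · have : x ∉ n.support := fun h => hx (hn.1 h)
      rw [Finsupp.notMem_support_iff] at this
      rw [this]
  have h2 : (Set.Iic P.card : Set ℕ).Finite := Set.finite_Iic _
  have h3 := h1.prod (h2.prod (Set.finite_univ (α := Fin r)))
  apply h3.finite_subsets.subset
  rintro _ ⟨a, rfl⟩ t ht
  exact ⟨ht.1, ht.2.1, Set.mem_univ _⟩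

theorem tau_mono {P Q : Finset ι} (hPQ : P ⊆ Q) {a b : ι} (h : tau c Q a = tau c Q b) :
    tau c P a = tau c P b := by
  have key : ∀ a b, tau c Q a = tau c Q b → tau c P a ⊆ tau c P b := by
    intro a b h t ht
    have hcard := Finset.card_le_card hPQ
    have h1 : t ∈ tau c Q a :=
      ⟨⟨ht.1.1.trans hPQ, fun x => (ht.1.2 x).trans hcard⟩, ht.2.1.trans hcard, ht.2.2⟩
    rw [h] at h1
    exact ⟨ht.1, ht.2.1, h1.2.2⟩
  exact Set.Subset.antisymm (key a b h) (key b a h.symm)

theorem tau_eq {P : Finset ι} {a b : ι} (h : tau c P a = tau c P b) {v : ι →₀ ℕ}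
    (hv : v.support ⊆ P) (hv' : ∀ x, v x ≤ P.card) {q : ℕ} (hq : q ≤ P.card) :
    c (v + q • e a) = c (v + q • e b) := by
  have h1 : (v, q, c (v + q • e b)) ∈ tau c P b := ⟨⟨hv, hv'⟩, hq, rfl⟩
  rw [← h] at h1
  exact h1.2.2

/-- A cluster system gives ultrafilters. -/
theorem exists_ultra {H : Set ι} {u : ι} {Y : Set ι} (hHY : H ⊆ Y) (huH : u ∉ H)
    (hfs : ∀ P : Finset ι, (P : Set ι) ⊆ Y → u ∉ P → ∃ b ∈ H, b ∉ P ∧ tau c P b = tau c P u) :
    ∃ W : Ultrafilter ι, (∀ᶠ b in (W : Filter ι), b ∈ H) ∧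
      (∀ x, ∀ᶠ b in (W : Filter ι), b ≠ x) ∧
      ∀ (v : ι →₀ ℕ) (q : ℕ), (v.support : Set ι) ⊆ Y → u ∉ v.support →
        ∀ᶠ b in (W : Filter ι), c (v + q • e b) = c (v + q • e u) := by
  let I := {P : Finset ι // (P : Set ι) ⊆ Y ∧ u ∉ P}
  let B : I → Set ι := fun P => {b | b ∈ H ∧ b ∉ P.1 ∧ tau c P.1 b = tau c P.1 u}
  let i0 : I := ⟨∅, by simp, by simp⟩
  have : Nonempty I := ⟨i0⟩
  have hdir : Directed (· ≥ ·) (fun P : I => 𝓟 (B P)) := by
    intro P Q
    refine ⟨⟨P.1 ∪ Q.1, ?_, ?_⟩, ?_, ?_⟩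
    · rw [Finset.coe_union]
      exact Set.union_subset P.2.1 Q.2.1
    · rw [Finset.mem_union]
      rintro (h | h)
      · exact P.2.2 h
      · exact Q.2.2 h
    · show 𝓟 _ ≤ 𝓟 _
      rw [Filter.principal_mono]
      intro b hb
      exact ⟨hb.1, fun h => hb.2.1 (Finset.mem_union_left _ h),
        tau_mono c Finset.subset_union_left hb.2.2⟩
    · show 𝓟 _ ≤ 𝓟 _
      rw [Filter.principal_mono]
      intro b hb
      exact ⟨hb.1, fun h => hb.2.1 (Finset.mem_union_right _ h),
        tau_mono c Finset.subset_union_right hb.2.2⟩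
  have hne : (⨅ P : I, 𝓟 (B P)).NeBot := by
    apply Filter.iInf_neBot_of_directed' hdir
    intro P
    rw [Filter.principal_neBot_iff]
    obtain ⟨b, hb1, hb2, hb3⟩ := hfs P.1 P.2.1 P.2.2
    exact ⟨b, hb1, hb2, hb3⟩
  have hmem : ∀ P : I, B P ∈ (Ultrafilter.of (⨅ P : I, 𝓟 (B P)) : Filter ι) := by
    intro P
    apply Ultrafilter.of_le
    exact Filter.mem_iInf_of_mem P (Filter.mem_principal_self _)
  have hgrow : ∀ (N : ℕ) (P0 : Finset ι), (P0 : Set ι) ⊆ Y → u ∉ P0 →
      ∃ P : Finset ι, P0 ⊆ P ∧ (P : Set ι) ⊆ Y ∧ u ∉ P ∧ N ≤ P.card := by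
    intro N P0 h1 h2
    induction N with
    | zero => exact ⟨P0, Finset.Subset.refl _, h1, h2, Nat.zero_le _⟩
    | succ N ih =>
      obtain ⟨P, hP1, hP2, hP3, hP4⟩ := ih
      obtain ⟨b, hb1, hb2, _⟩ := hfs P hP2 hP3
      refine ⟨insert b P, hP1.trans (Finset.subset_insert _ _), ?_, ?_, ?_⟩
      · rw [Finset.coe_insert]
        exact Set.insert_subset (hHY hb1) hP2
      · rw [Finset.mem_insert]
        rintro (h | h)
        · exact huH (h ▸ hb1)
        · exact hP3 h
      · rw [Finset.card_insert_of_notMem hb2]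
        omega
  refine ⟨Ultrafilter.of (⨅ P : I, 𝓟 (B P)), ?_, ?_, ?_⟩
  · filter_upwards [hmem i0] with b hb
    exact hb.1
  · intro x
    by_cases hx : x ∈ Y ∧ x ≠ u
    · have hP : (({x} : Finset ι) : Set ι) ⊆ Y ∧ u ∉ ({x} : Finset ι) := by
        refine ⟨by simpa using hx.1, ?_⟩
        rw [Finset.mem_singleton]
        exact fun h => hx.2 h.symm
      filter_upwards [hmem ⟨{x}, hP⟩] with b hb
      have := hb.2.1
      simpa using this
    · filter_upwards [hmem i0] with b hb
      rintro rfl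
      apply hx
      exact ⟨hHY hb.1, fun h => huH (h ▸ hb.1)⟩
  · intro v q hv hu
    obtain ⟨P, hP1, hP2, hP3, hP4⟩ := hgrow ((∑ x ∈ v.support, v x) + q) v.support hv hu
    filter_upwards [hmem ⟨P, hP2, hP3⟩] with b hb
    apply tau_eq c hb.2.2 hP1
    · intro x
      by_cases hx : x ∈ v.support
      · have := Finset.single_le_sum (f := fun x => v x) (fun i _ => Nat.zero_le _) hx
        have h2 : v x ≤ ∑ x ∈ v.support, v x := this
        show v x ≤ P.card
        omega
      · rw [Finsupp.notMem_support_iff] at hx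
        rw [hx]
        exact Nat.zero_le _
    · show q ≤ P.card
      omega

/-- Iterated ultrafilter quantifier over lists; the highest index is outermost. -/
def QL (W : ℕ → Ultrafilter ι) : ℕ → ℕ → (List ι → Prop) → Prop
  | _, 0, p => p []
  | m, d + 1, p => QL W (m + 1) d (fun L => ∀ᶠ a in (W m : Filter ι), p (a :: L))

variable {W : ℕ → Ultrafilter ι}

theorem QL.mono {p q : List ι → Prop} (h : ∀ L, p L → q L) {m d : ℕ} (hp : QL W m d p) :
    QL W m d q := by
  induction d generalizing m p q with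
  | zero => exact h _ hp
  | succ d ih =>
    refine ih ?_ hp
    intro L hL
    exact hL.mono (fun a ha => h _ ha)

theorem QL.and {p q : List ι → Prop} {m d : ℕ} (hp : QL W m d p) (hq : QL W m d q) :
    QL W m d (fun L => p L ∧ q L) := by
  induction d generalizing m p q with
  | zero => exact ⟨hp, hq⟩
  | succ d ih =>
    have := ih (m := m + 1) hp hq
    exact this.mono (fun L hL => hL.1.and hL.2)

theorem QL.exists {p : List ι → Prop} {m d : ℕ} (hp : QL W m d p) : ∃ L, p L := by
  induction d generalizing m p with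
  | zero => exact ⟨[], hp⟩
  | succ d ih =>
    obtain ⟨L, hL⟩ := ih (m := m + 1) hp
    obtain ⟨a, ha⟩ := Filter.Eventually.exists hL
    exact ⟨a :: L, ha⟩

theorem QL.color (W : ℕ → Ultrafilter ι) (m d : ℕ) (T : List ι → Fin r) :
    ∃ i, QL W m d (fun L => T L = i) := by
  induction d generalizing m T with
  | zero => exact ⟨T [], rfl⟩
  | succ d ih =>
    have h : ∀ L, ∃ i, ∀ᶠ a in (W m : Filter ι), T (a :: L) = i := by
      intro L
      rw [← Ultrafilter.eventually_exists_iff]
      exact Filter.Eventually.of_forall (fun a => ⟨_, rfl⟩)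
    choose T' hT' using h
    obtain ⟨i, hi⟩ := ih (m + 1) T'
    refine ⟨i, hi.mono ?_⟩
    intro L hL
    rw [← hL]
    exact hT' L

theorem QL.split {p : List ι → Prop} {m d d' : ℕ} :
    QL W m (d + d') p ↔ QL W (m + d) d' (fun L' => QL W m d (fun L => p (L ++ L'))) := by
  induction d generalizing m p with
  | zero =>
    rw [Nat.zero_add]
    exact Iff.rfl
  | succ d ih =>
    have h1 : d + 1 + d' = (d + d') + 1 := by omega
    rw [h1]
    show QL W (m + 1) (d + d') (fun L => ∀ᶠ a in (W m : Filter ι), p (a :: L)) ↔ _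
    rw [ih]
    have h2 : m + 1 + d = m + (d + 1) := by omega
    rw [h2]
    exact Iff.rfl

theorem QL.all_mem {K : Set ι} {m d : ℕ}
    (h : ∀ s, m ≤ s → s < m + d → ∀ᶠ a in (W s : Filter ι), a ∈ K) :
    QL W m d (fun L => ∀ x ∈ L, x ∈ K) := by
  induction d generalizing m with
  | zero => intro x hx; simp at hx
  | succ d ih =>
    have h1 := ih (m := m + 1) (fun s h1 h2 => h s (by omega) (by omega))
    refine h1.mono ?_
    intro L hL
    filter_upwards [h m le_rfl (by omega)] with a ha
    intro x hx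
    rcases List.mem_cons.1 hx with rfl | hx
    · exact ha
    · exact hL x hx

/-- The list of cluster points. -/
def UL (u : ℕ → ι) : ℕ → ℕ → List ι
  | _, 0 => []
  | m, d + 1 => u m :: UL u (m + 1) d

theorem UL_append (u : ℕ → ι) (m d d' : ℕ) :
    UL u m (d + d') = UL u m d ++ UL u (m + d) d' := by
  induction d generalizing m with
  | zero => simp [UL]
  | succ d ih =>
    have h1 : d + 1 + d' = (d + d') + 1 := by omega
    have h2 : m + (d + 1) = m + 1 + d := by omega
    rw [h1, h2]
    show u m :: UL u (m + 1) (d + d') = u m :: (UL u (m + 1) d ++ _)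
    rw [ih]

theorem mem_UL (u : ℕ → ι) {m d : ℕ} {x : ι} (h : x ∈ UL u m d) :
    ∃ s, m ≤ s ∧ s < m + d ∧ x = u s := by
  induction d generalizing m with
  | zero => simp [UL] at h
  | succ d ih =>
    rcases List.mem_cons.1 h with h | h
    · exact ⟨m, le_rfl, by omega, h⟩
    · obtain ⟨s, h1, h2, h3⟩ := ih h
      exact ⟨s, by omega, by omega, h3⟩

/-- Sum of the basis vectors of a list. -/
noncomputable def E (L : List ι) : ι →₀ ℕ := (L.map e).sum

theorem E_nil : E ([] : List ι) = 0 := rfl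

theorem E_cons (a : ι) (L : List ι) : E (a :: L) = e a + E L := by
  simp [E]

theorem E_append (L L' : List ι) : E (L ++ L') = E L + E L' := by
  simp [E]

theorem supp_e {x y : ι} (h : x ∈ (e y).support) : x = y := by
  have := Finsupp.support_single_subset h
  simpa using this

theorem supp_add {v w : ι →₀ ℕ} {x : ι} (h : x ∈ (v + w).support) :
    x ∈ v.support ∨ x ∈ w.support := by
  have := Finsupp.support_add h
  simpa using this

theorem supp_smul {v : ι →₀ ℕ} {q : ℕ} {x : ι} (h : x ∈ (q • v).support) : x ∈ v.support := by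
  exact Finsupp.support_smul h

theorem supp_E {L : List ι} {x : ι} (h : x ∈ (E L).support) : x ∈ L := by
  induction L with
  | nil => simp [E_nil] at h
  | cons a L ih =>
    rw [E_cons] at h
    rcases supp_add h with h | h
    · rw [supp_e h]; simp
    · exact List.mem_cons_of_mem _ (ih h)

theorem mem_supp_E {L : List ι} {x : ι} (h : x ∈ L) : x ∈ (E L).support := by
  induction L with
  | nil => simp at h
  | cons a L ih =>
    rw [E_cons, Finsupp.mem_support_iff, Finsupp.add_apply]
    rcases List.mem_cons.1 h with rfl | h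
    · simp [e]
    · have := ih h
      rw [Finsupp.mem_support_iff] at this
      omega

variable {H : ℕ → Set ι} {u : ℕ → ι} {Y : Set ι}

theorem replace_lemma (R : ℕ) (hHY : ∀ s < R, H s ⊆ Y) (huY : ∀ s < R, u s ∈ Y)
    (huu : ∀ s < R, ∀ t < R, s ≠ t → u s ≠ u t) (huH : ∀ s < R, ∀ t < R, u s ∉ H t)
    (hW1 : ∀ s < R, ∀ᶠ b in (W s : Filter ι), b ∈ H s)
    (hW3 : ∀ s < R, ∀ (v : ι →₀ ℕ) (q : ℕ), (v.support : Set ι) ⊆ Y → u s ∉ v.support →
        ∀ᶠ b in (W s : Filter ι), c (v + q • e b) = c (v + q • e (u s)))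
    (m d : ℕ) (hmd : m + d ≤ R) (v : ι →₀ ℕ) (hv : (v.support : Set ι) ⊆ Y)
    (hv' : ∀ s, m ≤ s → s < m + d → u s ∉ v.support) (q : ℕ) :
    QL W m d (fun L => c (v + q • E L) = c (v + q • E (UL u m d))) := by
  induction d generalizing m v with
  | zero => rfl
  | succ d ih =>
    have h1 := ih (m + 1) (by omega) (v + q • e (u m)) (by
      intro x hx
      rcases supp_add hx with h | h
      · exact hv h
      · rw [supp_e (supp_smul h)]
        exact huY m (by omega)) (by
      intro s hs1 hs2 hs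
      rcases supp_add hs with h | h
      · exact hv' s (by omega) (by omega) h
      · exact huu s (by omega) m (by omega) (by omega) (supp_e (supp_smul h)))
    have h2 : QL W (m + 1) d (fun L => ∀ x ∈ L, ∃ t < R, x ∈ H t) :=
      QL.all_mem (K := {x | ∃ t < R, x ∈ H t}) (fun s hs1 hs2 => by
        filter_upwards [hW1 s (by omega)] with a ha
        exact ⟨s, by omega, ha⟩)
    refine (h1.and h2).mono ?_
    rintro L ⟨hL1, hL2⟩
    have h3 := hW3 m (by omega) (v + q • E L) q (by
      intro x hx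
      rcases supp_add hx with h | h
      · exact hv h
      · obtain ⟨t, ht, hxt⟩ := hL2 x (supp_E (supp_smul h))
        exact hHY t ht hxt) (by
      intro hx
      rcases supp_add hx with h | h
      · exact hv' m le_rfl (by omega) h
      · obtain ⟨t, ht, hxt⟩ := hL2 _ (supp_E (supp_smul h))
        exact huH m (by omega) t ht hxt)
    filter_upwards [h3] with a ha
    have e1 : v + q • E (a :: L) = v + q • E L + q • e a := by
      rw [E_cons, smul_add]; abel
    have e2 : v + q • E (UL u m (d + 1)) = v + q • e (u m) + q • E (UL u (m + 1) d) := by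
      show v + q • E (u m :: UL u (m + 1) d) = _
      rw [E_cons, smul_add]; abel
    have e3 : v + q • E L + q • e (u m) = v + q • e (u m) + q • E L := by abel
    rw [e1, ha, e3, hL1, e2]

theorem QL.of_forall {p : List ι → Prop} {m d : ℕ} (h : ∀ L, p L) : QL W m d p := by
  induction d generalizing m p with
  | zero => exact h []
  | succ d ih => exact ih (fun L => Filter.Eventually.of_forall (fun a => h _))

theorem QL.ball {m d : ℕ} (s : Finset (List ι)) {p : List ι → List ι → Prop}
    (h : ∀ P ∈ s, QL W m d (p P)) : QL W m d (fun L => ∀ P ∈ s, p P L) := by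
  induction s using Finset.induction_on with
  | empty => exact QL.of_forall (fun L P hP => by simp at hP)
  | insert P s hP ih =>
    have h1 := ih (fun P hP => h P (Finset.mem_insert_of_mem hP))
    have h2 := h P (Finset.mem_insert_self _ _)
    refine (h1.and h2).mono ?_
    rintro L ⟨hL1, hL2⟩ Q hQ
    rcases Finset.mem_insert.1 hQ with rfl | hQ
    · exact hL2
    · exact hL1 Q hQ

theorem mono_sumset (hHY : ∀ s < r, H s ⊆ Y) (huY : ∀ s < r, u s ∈ Y)
    (huu : ∀ s < r, ∀ t < r, s ≠ t → u s ≠ u t) (huH : ∀ s < r, ∀ t < r, u s ∉ H t)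
    (hW1 : ∀ s < r, ∀ᶠ b in (W s : Filter ι), b ∈ H s)
    (hW2 : ∀ s < r, ∀ x, ∀ᶠ b in (W s : Filter ι), b ≠ x)
    (hW3 : ∀ s < r, ∀ (v : ι →₀ ℕ) (q : ℕ), (v.support : Set ι) ⊆ Y → u s ∉ v.support →
        ∀ᶠ b in (W s : Filter ι), c (v + q • e b) = c (v + q • e (u s))) :
    ∃ X : Set (ι →₀ ℕ), X.Infinite ∧ ∃ k, ∀ x ∈ X, ∀ y ∈ X, c (x + y) = k := by
  let T : ℕ → List ι → Fin r := fun m L =>
    c (4 • E (UL u 0 m) + 2 • E (UL u m (r - m)) + 2 • E L)
  have hχ : ∀ m, ∃ i, QL W m (r - m) (fun L => T m L = i) := fun m => QL.color W m (r - m) (T m)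
  choose χ hχ' using hχ
  obtain ⟨m, l, hml, hlr, hc⟩ : ∃ m l, m < l ∧ l ≤ r ∧ χ m = χ l := by
    obtain ⟨a, b, hab, hχab⟩ := Fintype.exists_ne_map_eq_of_card_lt
      (fun m : Fin (r + 1) => χ m) (by simp)
    rcases lt_or_gt_of_ne hab with h | h
    · exact ⟨a, b, h, by omega, hχab⟩
    · exact ⟨b, a, h, by omega, hχab.symm⟩
  obtain ⟨i, hi⟩ : ∃ i, i = χ l := ⟨_, rfl⟩
  obtain ⟨d, hd⟩ : ∃ d, l = m + (d + 1) := ⟨l - m - 1, by omega⟩
  obtain ⟨d', hd'⟩ : ∃ d', r = l + d' := ⟨r - l, by omega⟩
  have hm1 : QL W m ((d + 1) + d') (fun L => T m L = i) := by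
    have := hχ' m
    rw [hc, ← hi] at this
    have h1 : r - m = (d + 1) + d' := by omega
    rw [h1] at this
    exact this
  have hm2 : QL W l d' (fun L' => QL W m (d + 1) (fun L => T m (L ++ L') = i)) := by
    have := QL.split.1 hm1
    rw [← hd] at this
    exact this
  have hl1 : QL W l d' (fun L => T l L = i) := by
    have := hχ' l
    rw [← hi] at this
    have h1 : r - l = d' := by omega
    rw [h1] at this
    exact this
  have hK : QL W l d' (fun L => ∀ x ∈ L, ∃ t < r, x ∈ H t) :=
    QL.all_mem (K := {x | ∃ t < r, x ∈ H t}) (fun s hs1 hs2 => by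
      filter_upwards [hW1 s (by omega)] with a ha
      exact ⟨s, by omega, ha⟩)
  obtain ⟨b, ⟨hb1, hb2⟩, hb3⟩ := ((hm2.and hl1).and hK).exists
  set z : ι →₀ ℕ := 2 • E (UL u 0 m) + E (UL u l d') + E b with hz
  have hzsupp : ∀ x ∈ z.support, (∃ s < r, (s < m ∨ l ≤ s) ∧ x = u s) ∨ ∃ t < r, x ∈ H t := by
    intro x hx
    rcases supp_add hx with h | h
    · left
      rcases supp_add h with h | h
      · obtain ⟨s, h1, h2, h3⟩ := mem_UL u (supp_E (supp_smul h))
        exact ⟨s, by omega, by omega, h3⟩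
      · obtain ⟨s, h1, h2, h3⟩ := mem_UL u (supp_E h)
        exact ⟨s, by omega, by omega, h3⟩
    · right
      exact hb3 x (supp_E h)
  have hzY : ∀ x ∈ z.support, x ∈ Y := by
    intro x hx
    rcases hzsupp x hx with ⟨s, h1, _, rfl⟩ | ⟨t, h1, h2⟩
    · exact huY s h1
    · exact hHY t h1 h2
  have hzu : ∀ s, m ≤ s → s < m + (d + 1) → u s ∉ z.support := by
    intro s h1 h2 hx
    rcases hzsupp _ hx with ⟨t, h3, h4, h5⟩ | ⟨t, h3, h4⟩
    · exact huu s (by omega) t h3 (by omega) h5
    · exact huH s (by omega) t h3 h4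
  have hTl : c (2 • z + 4 • E (UL u m (d + 1))) = i := by
    rw [← hb2]
    show _ = c (4 • E (UL u 0 l) + 2 • E (UL u l (r - l)) + 2 • E b)
    congr 1
    have h1 : r - l = d' := by omega
    have h2 : UL u 0 l = UL u 0 m ++ UL u m (d + 1) := by
      rw [hd, UL_append, Nat.zero_add]
    rw [h1, h2, E_append, hz]
    simp only [smul_add, smul_smul]
    norm_num
    abel
  have hULm : UL u m (r - m) = UL u m (d + 1) ++ UL u l d' := by
    have h1 : r - m = (d + 1) + d' := by omega
    rw [h1, UL_append, ← hd]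
  have hTm : ∀ L, T m (L ++ b) = c (2 • z + 2 • E L + 2 • E (UL u m (d + 1))) := by
    intro L
    show c (4 • E (UL u 0 m) + 2 • E (UL u m (r - m)) + 2 • E (L ++ b)) = _
    congr 1
    rw [hULm, E_append, E_append, hz]
    simp only [smul_add, smul_smul]
    norm_num
    abel
  let x : List ι → (ι →₀ ℕ) := fun P => z + 2 • E P
  let 𝒮 : List ι → Prop := fun P => (∀ y ∈ P, ∃ t < r, y ∈ H t) ∧ c (x P + x P) = i ∧
    c (2 • z + 2 • E P + 2 • E (UL u m (d + 1))) = i
  obtain ⟨f, hf1, hf2⟩ := exists_seq_of_forall_finset_exists 𝒮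
    (fun P Q => c (x P + x Q) = i ∧ x P ≠ x Q) (by
    intro s hs
    have q1 : QL W m (d + 1) (fun L => c (2 • z + 4 • E L) = i) := by
      have := replace_lemma c r hHY huY huu huH hW1 hW3 m (d + 1) (by omega) (2 • z)
        (fun y hy => hzY y (supp_smul hy)) (fun s h1 h2 hy => hzu s h1 h2 (supp_smul hy)) 4
      exact this.mono (fun L hL => hL.trans hTl)
    have q2 : QL W m (d + 1) (fun L => ∀ P ∈ s, c (2 • z + 2 • E P + 2 • E L) = i) := by
      apply QL.ball
      intro P hP
      obtain ⟨hP1, hP2, hP3⟩ := hs P hP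
      have := replace_lemma c r hHY huY huu huH hW1 hW3 m (d + 1) (by omega)
        (2 • z + 2 • E P) (by
          intro y hy
          rcases supp_add hy with h | h
          · exact hzY y (supp_smul h)
          · obtain ⟨t, h1, h2⟩ := hP1 y (supp_E (supp_smul h))
            exact hHY t h1 h2) (by
          intro s' h1 h2 hy
          rcases supp_add hy with h | h
          · exact hzu s' h1 h2 (supp_smul h)
          · obtain ⟨t, h3, h4⟩ := hP1 _ (supp_E (supp_smul h))
            exact huH s' (by omega) t h3 h4) 2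
      exact this.mono (fun L hL => hL.trans hP3)
    have q4 : QL W m (d + 1) (fun L => ∀ P ∈ s, x P ≠ x L) := by
      apply QL.ball
      intro P hP
      show QL W (m + 1) d (fun L => ∀ᶠ a in (W m : Filter ι), x P ≠ x (a :: L))
      apply QL.of_forall
      intro L
      have h1 : ∀ᶠ a in (W m : Filter ι), ∀ y ∈ {y | y ∈ P}, a ≠ y :=
        (Filter.eventually_all_finite (P.finite_toSet)).2 (fun y _ => hW2 m (by omega) y)
      filter_upwards [h1] with a ha hcon
      have h2 : a ∉ P := fun h => ha a h rfl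
      have h3 : (E P) a = 0 := by
        rw [← Finsupp.notMem_support_iff]
        exact fun h => h2 (supp_E h)
      have h4 : (E (a :: L)) a ≠ 0 := by
        rw [← Finsupp.mem_support_iff]
        exact mem_supp_E (by simp)
      have h5 := DFunLike.congr_fun hcon a
      simp only [x, Finsupp.add_apply, Finsupp.smul_apply, h3, smul_eq_mul] at h5
      omega
    have q5 : QL W m (d + 1) (fun L => ∀ y ∈ L, ∃ t < r, y ∈ H t) :=
      QL.all_mem (K := {x | ∃ t < r, x ∈ H t}) (fun s hs1 hs2 => by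
        filter_upwards [hW1 s (by omega)] with a ha
        exact ⟨s, by omega, ha⟩)
    obtain ⟨L, ⟨⟨⟨h1, h2⟩, h3⟩, h4⟩, h5⟩ := ((((q1.and q2).and hb1).and q4).and q5).exists
    refine ⟨L, ⟨h5, ?_, ?_⟩, ?_⟩
    · rw [← h1]
      congr 1
      show z + 2 • E L + (z + 2 • E L) = _
      rw [two_smul ℕ z]
      have : (4 : ℕ) • E L = 2 • E L + 2 • E L := by
        rw [← add_smul]
      rw [this]
      abel
    · rw [← hTm]
      exact h3
    · intro P hP
      refine ⟨?_, h4 P hP⟩
      rw [← h2 P hP]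
      congr 1
      show z + 2 • E P + (z + 2 • E L) = _
      rw [two_smul ℕ z]
      abel)
  have hne : ∀ n n', n ≠ n' → x (f n) ≠ x (f n') := by
    intro n n' h
    rcases Nat.lt_or_gt_of_ne h with h | h
    · exact (hf2 n n' h).2
    · exact (hf2 n' n h).2.symm
  refine ⟨Set.range (fun n => x (f n)), ?_, i, ?_⟩
  · apply Set.infinite_range_of_injective
    intro n n' h
    by_contra hcon
    exact hne n n' hcon h
  · rintro _ ⟨n, rfl⟩ _ ⟨n', rfl⟩
    rcases Nat.lt_trichotomy n n' with h | rfl | h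
    · exact (hf2 n n' h).1
    · exact (hf1 n).2.1
    · show c (x (f n) + x (f n')) = i
      rw [add_comm]
      exact (hf2 n' n h).1

end Comb

/-- A total countably additive probability measure vanishing on points yields monochromatic
infinite sumsets in free commutative monoids. -/
theorem total_measure_sumset {ι : Type*} (m : Set ι → ℝ) (h0 : ∀ s, 0 ≤ m s)
    (h1 : m Set.univ = 1) (h2 : ∀ x, m {x} = 0)
    (h3 : ∀ f : ℕ → Set ι, Pairwise (Function.onFun Disjoint f) →
      HasSum (fun n => m (f n)) (m (⋃ n, f n)))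
    {r : ℕ} (c : (ι →₀ ℕ) → Fin r) :
    ∃ X : Set (ι →₀ ℕ), X.Infinite ∧ ∃ k, ∀ x ∈ X, ∀ y ∈ X, c (x + y) = k := by
  let _ : MeasurableSpace ι := ⊤
  have hempty : m ∅ = 0 := by
    have h := h3 (fun _ => ∅) (fun i j _ => by simp [Function.onFun])
    have hs := h.summable
    exact (summable_const_iff _).1 (show Summable (fun _ : ℕ => m ∅) from hs)
  let μ : Measure ι := Measure.ofMeasurable (fun s _ => ENNReal.ofReal (m s))
    (by simp [hempty]) (by
      intro f _ hf
      have h := h3 f hf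
      show ENNReal.ofReal (m (⋃ i, f i)) = ∑' i, ENNReal.ofReal (m (f i))
      rw [← h.tsum_eq]
      exact ENNReal.ofReal_tsum_of_nonneg (fun n => h0 _) h.summable)
  have hμ : ∀ s, μ s = ENNReal.ofReal (m s) := fun s =>
    Measure.ofMeasurable_apply s (MeasurableSpace.measurableSet_top)
  have : IsProbabilityMeasure μ := ⟨by rw [hμ, h1]; simp⟩
  have : NullSingletonClass μ := ⟨fun x => by rw [hμ, h2]; simp⟩
  obtain ⟨H, u, Y, hHY, huY, huu, huH, hfs⟩ := system_fs μ (tau c) (tau_finite c) r
  have hex : ∀ s, s < r → ∃ W : Ultrafilter ι, (∀ᶠ b in (W : Filter ι), b ∈ H s) ∧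
      (∀ x, ∀ᶠ b in (W : Filter ι), b ≠ x) ∧
      ∀ (v : ι →₀ ℕ) (q : ℕ), (v.support : Set ι) ⊆ Y → u s ∉ v.support →
        ∀ᶠ b in (W : Filter ι), c (v + q • e b) = c (v + q • e (u s)) := fun s hs =>
    exists_ultra c (hHY s hs) (huH s hs s hs) (hfs s hs)
  have hne : Nonempty ι := (inferInstance : (ae μ).NeBot).nonempty
  have : Nonempty (Ultrafilter ι) := ⟨pure hne.some⟩
  choose! W hW using hex
  exact mono_sumset c hHY huY huu huH (fun s hs => (hW s hs).1) (fun s hs => (hW s hs).2.1)
    (fun s hs => (hW s hs).2.2)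

theorem real_embedding : ∃ φ : (ℝ →₀ ℕ) →+ ℝ, Function.Injective φ := by
  let b := Module.Basis.ofVectorSpace ℚ ℝ
  have hcard : Cardinal.mk (Module.Basis.ofVectorSpaceIndex ℚ ℝ) = Cardinal.mk ℝ := by
    rw [b.mk_eq_rank'', Real.rank_rat_real, Cardinal.mk_real]
  obtain ⟨g⟩ := Cardinal.eq.1 hcard
  let b' := b.reindex g
  let φ1 : (ℝ →₀ ℕ) →+ (ℝ →₀ ℚ) := Finsupp.mapRange.addMonoidHom (Nat.castAddMonoidHom ℚ)
  let φ2 : (ℝ →₀ ℚ) →+ ℝ := (b'.repr.symm : (ℝ →₀ ℚ) ≃ₗ[ℚ] ℝ).toLinearMap.toAddMonoidHom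
  refine ⟨φ2.comp φ1, ?_⟩
  have h1 : Function.Injective φ1 :=
    Finsupp.mapRange_injective _ (map_zero _) (fun a b h => Nat.cast_injective (R := ℚ) h)
  have h2 : Function.Injective φ2 := b'.repr.symm.injective
  intro x y hxy
  exact h1 (h2 hxy)

theorem countable_colouring : ∃ c : ℝ → ℕ, ∀ X : Set ℝ, X.Infinite →
    ∃ x ∈ X, ∃ y ∈ X, ∃ z ∈ X, ∃ w ∈ X, c (x + y) ≠ c (z + w) := by
  let b := Module.Basis.ofVectorSpace ℚ ℝ
  let N : ℝ → ℚ := fun x => (b.repr x).sum (fun _ q => q ^ 2)
  have hN : ∀ (x : ℝ) (s : Finset (Module.Basis.ofVectorSpaceIndex ℚ ℝ)),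
      (b.repr x).support ⊆ s → N x = ∑ i ∈ s, (b.repr x i) ^ 2 := by
    intro x s hs
    exact Finsupp.sum_of_support_subset _ hs _ (fun i _ => by norm_num)
  refine ⟨fun x => Encodable.encode (N x), ?_⟩
  intro X hX
  by_contra hcon
  push Not at hcon
  have hcon' : ∀ x ∈ X, ∀ y ∈ X, ∀ z ∈ X, ∀ w ∈ X, N (x + y) = N (z + w) :=
    fun x hx y hy z hz w hw => Encodable.encode_injective (hcon x hx y hy z hz w hw)
  obtain ⟨x, hx, y, hy, hxy⟩ := hX.nontrivial
  apply hxy
  have e1 := hcon' x hx x hx y hy y hy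
  have e2 := hcon' x hx x hx x hx y hy
  set s := (b.repr x).support ∪ (b.repr y).support with hs
  have sx : (b.repr x).support ⊆ s := Finset.subset_union_left
  have sy : (b.repr y).support ⊆ s := Finset.subset_union_right
  have sxy : ∀ u v : ℝ, (b.repr u).support ⊆ s → (b.repr v).support ⊆ s →
      (b.repr (u + v)).support ⊆ s := by
    intro u v hu hv
    rw [map_add]
    exact Finsupp.support_add.trans (Finset.union_subset hu hv)
  rw [hN _ s (sxy x x sx sx), hN _ s (sxy y y sy sy)] at e1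
  rw [hN _ s (sxy x x sx sx), hN _ s (sxy x y sx sy)] at e2
  have key : ∑ i ∈ s, (b.repr x i - b.repr y i) ^ 2 = 0 := by
    have : ∀ i, (b.repr x i - b.repr y i) ^ 2 =
        (1 / 2) * (b.repr (x + x) i) ^ 2 + (1 / 2) * (b.repr (y + y) i) ^ 2 -
          (b.repr (x + y) i) ^ 2 := by
      intro i
      simp only [map_add, Finsupp.add_apply]
      ring
    rw [Finset.sum_congr rfl (fun i _ => this i), Finset.sum_sub_distrib,
      Finset.sum_add_distrib, ← Finset.mul_sum, ← Finset.mul_sum]
    linarith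
  have key2 : ∀ i ∈ s, b.repr x i = b.repr y i := by
    intro i hi
    have := (Finset.sum_eq_zero_iff_of_nonneg (fun i _ => sq_nonneg _)).1 key i hi
    have h2 := pow_eq_zero_iff (two_ne_zero) |>.1 this
    linarith
  apply b.repr.injective
  ext i
  by_cases hi : i ∈ s
  · exact key2 i hi
  · have h1 : i ∉ (b.repr x).support := fun h => hi (sx h)
    have h2 : i ∉ (b.repr y).support := fun h => hi (sy h)
    rw [Finsupp.notMem_support_iff] at h1 h2
    rw [h1, h2]

theorem final (m : Set ℝ → ℝ) (h0 : ∀ s, 0 ≤ m s)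
    (h1 : m Set.univ = 1) (h2 : ∀ x, m {x} = 0)
    (h3 : ∀ f : ℕ → Set ℝ, Pairwise (Function.onFun Disjoint f) →
      HasSum (fun n => m (f n)) (m (⋃ n, f n))) (r : ℕ) (c : ℝ → Fin r) :
    ∃ X : Set ℝ, X.Infinite ∧ ∃ k : Fin r, ∀ x ∈ X, ∀ y ∈ X, c (x + y) = k := by
  obtain ⟨φ, hφ⟩ := real_embedding
  obtain ⟨X, hX, k, hk⟩ := total_measure_sumset m h0 h1 h2 h3 (fun n => c (φ n))
  refine ⟨φ '' X, hX.image hφ.injOn, k, ?_⟩
  rintro _ ⟨x, hx, rfl⟩ _ ⟨y, hy, rfl⟩
  rw [← map_add]
  exact hk x hx y hy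

end Pool.Agent.Helper42.Dcd
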